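import Pool.Agent.Lib_helper53.LE.Defs
import Pool.Agent.Lib_helper98.GAF.Z2

/-! LSP3, part E, block EV: `(s - 1) ζ(s)` and its imprimitive versions. -/

set_option autoImplicit false

namespace Pool.Agent.LE

open Complex MeasureTheory ProbabilityTheory
open Pool.Agent.LSP (tau MX CC CB sg1 wX)
open Pool.Agent.KSL (WW)
open Pool.Agent.LEV (Uu Um)
open Pool.Agent.LVB (IsST el)
open Pool.Agent.LK (Qe V PQ MW)

theorem ev_z1 : z1 = riemannZeta₁ := by
  funext s
  unfold z1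
  by_cases hs : s = 1
  · rw [hs, Function.update_self, riemannZeta₁_one]
  · rw [Function.update_of_ne hs]
    have h1 : riemannZeta s = (s - 1)⁻¹ * riemannZeta₁ s :=
      riemannZeta_eq_inv_sub_mul hs
    rw [h1, ← mul_assoc, mul_inv_cancel₀ (sub_ne_zero.2 hs), one_mul]

theorem ev_prod_diff (q : ℕ) :
    Differentiable ℂ fun s : ℂ => ∏ p ∈ q.primeFactors, (1 - (p : ℂ) ^ (-s)) := by
  refine Differentiable.fun_finsetProd fun p hp => ?_
  have h0 : (p : ℂ) ≠ 0 := by exact_mod_cast (Nat.prime_of_mem_primeFactors hp).ne_zero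
  refine (differentiable_const _).sub ?_
  exact fun s => (differentiableAt_id.neg).const_cpow (Or.inl h0)

theorem ev_prod_bd (q : ℕ) (hq : q ≠ 0) {s : ℂ} (hs : 0 ≤ s.re) :
    ‖∏ p ∈ q.primeFactors, (1 - (p : ℂ) ^ (-s))‖ ≤ q := by
  rw [norm_prod]
  have h1 : ∏ p ∈ q.primeFactors, ‖1 - (p : ℂ) ^ (-s)‖ ≤ ∏ p ∈ q.primeFactors, (p : ℝ) := by
    refine Finset.prod_le_prod (fun p _ => norm_nonneg _) fun p hp => ?_
    have hpp := Nat.prime_of_mem_primeFactors hp
    have h2 : (2 : ℝ) ≤ p := by exact_mod_cast hpp.two_le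
    have h3 : ‖(p : ℂ) ^ (-s)‖ ≤ 1 := by
      rw [Complex.norm_natCast_cpow_of_pos hpp.pos, Complex.neg_re]
      exact Real.rpow_le_one_of_one_le_of_nonpos (by linarith) (by linarith)
    calc ‖1 - (p : ℂ) ^ (-s)‖ ≤ ‖(1 : ℂ)‖ + ‖(p : ℂ) ^ (-s)‖ := norm_sub_le _ _
      _ ≤ 1 + 1 := by rw [norm_one]; linarith
      _ ≤ p := by linarith
  refine h1.trans ?_
  have h4 : ∏ p ∈ q.primeFactors, p ≤ q :=
    Nat.le_of_dvd (Nat.pos_of_ne_zero hq) (Nat.prod_primeFactors_dvd q)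
  rw [← Nat.cast_prod]
  exact Nat.cast_le.2 h4

/-- block EV: `(s - 1) ζ(s)` and its imprimitive versions -/
theorem zq_facts_pr : ∃ C : ℝ, ∀ (q : ℕ) [NeZero q] (s : ℂ),
    (1 / 2 ≤ s.re → s.re ≤ 3 → DifferentiableAt ℂ (zq1 q) s ∧
      (s ≠ 1 → zq1 q s = (s - 1) * zq q s) ∧ ‖zq1 q s‖ ≤ C * q * (|s.im| + 2) ^ 2) ∧
    (13 / 10 ≤ s.re → DifferentiableAt ℂ (zq q) s ∧ ‖(zq q s)⁻¹‖ ≤ C ∧ zq q s ≠ 0) := by
  obtain ⟨C₁, hC₁, hZ⟩ := GA.Z1_growth
  have hsum : Summable (fun n : ℕ => (n : ℝ) ^ (-(13 / 10) : ℝ)) :=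
    Real.summable_nat_rpow.2 (by norm_num)
  set C₂ : ℝ := ∑' n : ℕ, (n : ℝ) ^ (-(13 / 10) : ℝ) with hC₂
  refine ⟨max C₁ C₂, fun q _ s => ⟨fun h1 h2 => ⟨?_, ?_, ?_⟩, fun h1 => ?_⟩⟩
  · show DifferentiableAt ℂ (fun s => (∏ p ∈ q.primeFactors, (1 - (p : ℂ) ^ (-s))) * z1 s) s
    rw [ev_z1]
    exact ((ev_prod_diff q) s).mul (differentiable_riemannZeta₁ s)
  · intro hs
    unfold zq1 zq z1
    rw [Function.update_of_ne hs]
    ring
  · unfold zq1
    rw [ev_z1, norm_mul]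
    have h3 := ev_prod_bd q (NeZero.ne q) (s := s) (by linarith)
    have h4 := hZ s (by linarith) (by linarith)
    have h5 : C₁ * (|s.im| + 2) ^ 2 ≤ max C₁ C₂ * (|s.im| + 2) ^ 2 :=
      mul_le_mul_of_nonneg_right (le_max_left _ _) (by positivity)
    calc ‖∏ p ∈ q.primeFactors, (1 - (p : ℂ) ^ (-s))‖ * ‖riemannZeta₁ s‖
        ≤ (q : ℝ) * (max C₁ C₂ * (|s.im| + 2) ^ 2) :=
          mul_le_mul h3 (h4.trans h5) (norm_nonneg _) (Nat.cast_nonneg _)
      _ = _ := by ring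
  · have hs1 : s ≠ 1 := by
      intro h
      rw [h] at h1
      norm_num at h1
    have hre : 1 < s.re := by linarith
    have hzq : zq q s = LSeries (fun n : ℕ => (1 : DirichletCharacter ℂ q) n) s := by
      have h2 := DirichletCharacter.LFunctionTrivChar_eq_mul_riemannZeta (N := q) hs1
      have h3 := DirichletCharacter.LFunction_eq_LSeries (1 : DirichletCharacter ℂ q) hre
      unfold zq
      rw [← h2]
      exact h3
    have hmul := DirichletCharacter.LSeries.mul_mu_eq_one (1 : DirichletCharacter ℂ q) hre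
    rw [← hzq] at hmul
    have hne : zq q s ≠ 0 := left_ne_zero_of_mul_eq_one hmul
    refine ⟨?_, ?_, hne⟩
    · show DifferentiableAt ℂ
        (fun s => (∏ p ∈ q.primeFactors, (1 - (p : ℂ) ^ (-s))) * riemannZeta s) s
      exact ((ev_prod_diff q) s).mul (differentiableAt_riemannZeta hs1)
    · rw [inv_eq_of_mul_eq_one_right hmul]
      refine le_trans ?_ (le_max_right _ _)
      unfold LSeries
      refine tsum_of_norm_bounded hsum.hasSum fun n => ?_
      rcases eq_or_ne n 0 with rfl | hn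
      · rw [LSeries.term_zero, norm_zero]
        positivity
      · rw [LSeries.term_of_ne_zero hn, norm_div, Complex.norm_natCast_cpow_of_pos
          (Nat.pos_of_ne_zero hn), Pi.mul_apply, norm_mul]
        have h6 : ‖(1 : DirichletCharacter ℂ q) (n : ZMod q)‖ ≤ 1 :=
          DirichletCharacter.norm_le_one _ _
        have h7 : ‖((ArithmeticFunction.moebius n : ℤ) : ℂ)‖ ≤ 1 := by
          rw [Complex.norm_intCast]
          exact_mod_cast ArithmeticFunction.abs_moebius_le_one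
        have hn1 : (1 : ℝ) ≤ n := by exact_mod_cast Nat.one_le_iff_ne_zero.2 hn
        have h8 : (n : ℝ) ^ (-(13 / 10) : ℝ) = 1 / (n : ℝ) ^ (13 / 10 : ℝ) := by
          rw [Real.rpow_neg (by linarith), one_div]
        rw [h8]
        refine div_le_div₀ zero_le_one ?_ (by positivity) ?_
        · calc _ ≤ (1 : ℝ) * 1 := mul_le_mul h6 h7 (norm_nonneg _) zero_le_one
            _ = 1 := one_mul 1
        · exact Real.rpow_le_rpow_of_exponent_le hn1 h1

end Pool.Agent.LE
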