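import Pool.Agent.Lib_helper53.LE.Defs
import Pool.Agent.Lib_helper41.LVBF.ELM

/-! LSP3, part E, block EH: series of the local factor. -/

set_option autoImplicit false

namespace Pool.Agent.LE

open Complex MeasureTheory ProbabilityTheory
open Pool.Agent.LSP (tau MX CC CB sg1 wX)
open Pool.Agent.KSL (WW)
open Pool.Agent.LEV (Uu Um)
open Pool.Agent.LVB (IsST el)
open Pool.Agent.LK (Qe V PQ MW)

theorem eh_norm (p : ℕ) (a : ℂ) : ‖a / (Real.sqrt p : ℂ)‖ = ‖a‖ / Real.sqrt p := by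
  rw [norm_div, Complex.norm_real, Real.norm_eq_abs, abs_of_nonneg (Real.sqrt_nonneg _)]

theorem eh_lt {p : ℕ} (hp : p.Prime) {a : ℂ} (ha : ‖a‖ < Real.sqrt p) :
    ‖a / (Real.sqrt p : ℂ)‖ < 1 := by
  have hp0 : (0 : ℝ) < p := by exact_mod_cast hp.pos
  rw [eh_norm, div_lt_one (Real.sqrt_pos.2 hp0)]
  exact ha

theorem eh_bd {p : ℕ} (a : ℂ) {x : ℝ} (hx : |x| ≤ 2) (k : ℕ) :
    ‖(a / (Real.sqrt p : ℂ)) ^ k * (Uu x k : ℂ)‖ ≤
      ((k : ℝ) + 1) * ‖a / (Real.sqrt p : ℂ)‖ ^ k := by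
  rw [norm_mul, norm_pow, Complex.norm_real, Real.norm_eq_abs, mul_comm]
  exact mul_le_mul_of_nonneg_right (Pool.Agent.LVB.uu_le hx k) (by positivity)

/-- block EH -/
theorem el_ser_pr {p : ℕ} (hp : p.Prime) {a : ℂ} (ha : ‖a‖ < Real.sqrt p) {x : ℝ} (hx : |x| ≤ 2) :
    HasSum (fun k : ℕ => (a / (Real.sqrt p : ℂ)) ^ k * (Uu x k : ℂ)) (el p a x) ∧
      ‖el p a x‖ ≤ 1 / (1 - ‖a‖ / Real.sqrt p) ^ 2 := by
  have hr1 := eh_lt hp ha
  have hgeo := Pool.Agent.LVB.ELF_geo (norm_nonneg (a / (Real.sqrt p : ℂ))) hr1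
  set q : ℂ := a / (Real.sqrt p : ℂ) with hq
  set f : ℕ → ℂ := fun k => q ^ k * (Uu x k : ℂ) with hf
  have hs : Summable f := Summable.of_norm_bounded hgeo.summable (fun k => eh_bd a hx k)
  have hS := hs.hasSum
  have hp0 : (0 : ℝ) < p := by exact_mod_cast hp.pos
  have e1 : ∑' k, f k = 1 + ∑' k, f (k + 1) := by
    rw [hs.tsum_eq_zero_add]
    simp [hf, Uu]
  have hs1 : Summable (fun k => f (k + 1)) := (summable_nat_add_iff 1).2 hs
  have e2 : ∑' k, f (k + 1) = (x : ℂ) * q + ∑' k, f (k + 2) := by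
    rw [hs1.tsum_eq_zero_add]
    simp [hf, Uu, mul_comm]
  have e3 : ∀ k, f (k + 2) = (x : ℂ) * q * f (k + 1) - q ^ 2 * f k := by
    intro k
    simp only [hf, Uu]
    push_cast
    ring
  have e4 : ∑' k, f (k + 2) = (x : ℂ) * q * ∑' k, f (k + 1) - q ^ 2 * ∑' k, f k := by
    rw [tsum_congr e3, (hs1.mul_left _).tsum_sub (hs.mul_left _), tsum_mul_left, tsum_mul_left]
  have e5 : (∑' k, f k) * (1 - a * (x : ℂ) / (Real.sqrt p : ℂ) + a ^ 2 / (p : ℂ)) = 1 := by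
    have hsq : ((Real.sqrt p : ℝ) : ℂ) ^ 2 = (p : ℂ) := by
      rw [← Complex.ofReal_pow, Real.sq_sqrt hp0.le]
      simp
    have h1 : a * (x : ℂ) / (Real.sqrt p : ℂ) = (x : ℂ) * q := by rw [hq]; ring
    have h2 : a ^ 2 / (p : ℂ) = q ^ 2 := by rw [hq, div_pow, hsq]
    rw [h1, h2]
    have h3 : ∑' k, f (k + 1) = ∑' k, f k - 1 := by rw [e1]; ring
    rw [h3] at e2 e4
    rw [e4] at e2
    linear_combination e2
  have e6 : el p a x = ∑' k, f k := by
    unfold el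
    exact (eq_inv_of_mul_eq_one_left e5).symm
  constructor
  · rw [e6]
    exact hS
  · rw [e6, ← eh_norm]
    exact tsum_of_norm_bounded hgeo (fun k => eh_bd a hx k)

theorem eh_series {I : Finset ℕ} {P : Measure (ℕ → ℝ)} (hP : IsST I P) {p : ℕ} (hp : p ∈ I)
    (hpp : p.Prime) {a : ℂ} (ha : ‖a‖ < Real.sqrt p) {g : (ℕ → ℝ) → ℂ}
    (hg : AEStronglyMeasurable g P) {C : ℝ} (hC : ∀ᵐ x ∂P, ‖g x‖ ≤ C) :
    HasSum (fun k : ℕ => (a / (Real.sqrt p : ℂ)) ^ k * ∫ x, (Uu (x p) k : ℂ) * g x ∂P)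
      (∫ x, el p a (x p) * g x ∂P) := by
  have := hP.prob
  have hb1 := eh_lt hpp ha
  set b : ℂ := a / (Real.sqrt p : ℂ) with hb
  have hF : ∀ k : ℕ, Integrable (fun x : ℕ → ℝ => b ^ k * ((Uu (x p) k : ℂ) * g x)) P :=
    fun k => (Pool.Agent.LVB.ELM_int hP hp k hg hC).const_mul _
  have hS : Summable fun k : ℕ => ∫ x, ‖b ^ k * ((Uu (x p) k : ℂ) * g x)‖ ∂P := by
    refine Summable.of_nonneg_of_le (fun k => integral_nonneg fun x => norm_nonneg _)
      (fun k => ?_) (Pool.Agent.LVB.ELM_summ (norm_nonneg b) hb1 C)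
    have h1 : ∫ x, ‖b ^ k * ((Uu (x p) k : ℂ) * g x)‖ ∂P ≤
        ∫ x : ℕ → ℝ, ‖b‖ ^ k * (((k : ℝ) + 1) * C) ∂P := by
      refine integral_mono_ae (hF k).norm (integrable_const _) ?_
      filter_upwards [hP.bdd, hC] with x hx hx2
      rw [norm_mul, norm_pow, norm_mul, Complex.norm_real, Real.norm_eq_abs]
      exact mul_le_mul_of_nonneg_left
        (mul_le_mul (Pool.Agent.LVB.uu_le (hx p hp) k) hx2 (norm_nonneg _) (by positivity))
        (by positivity)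
    refine h1.trans ?_
    rw [integral_const]
    simp
  have h := hasSum_integral_of_summable_integral_norm hF hS
  have e : ∫ x, ∑' k, b ^ k * ((Uu (x p) k : ℂ) * g x) ∂P = ∫ x, el p a (x p) * g x ∂P := by
    refine integral_congr_ae ?_
    filter_upwards [hP.bdd] with x hx
    have h1 := (el_ser_pr hpp ha (hx p hp)).1.mul_right (g x)
    rw [← h1.tsum_eq]
    refine tsum_congr fun k => ?_
    rw [← hb]
    ring
  rw [e] at h
  simpa only [integral_const_mul] using h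

theorem eh_proj {I : Finset ℕ} {P : Measure (ℕ → ℝ)} (hP : IsST I P) {p : ℕ} (hp : p ∈ I)
    (hpp : p.Prime) {a : ℂ} (ha : ‖a‖ < Real.sqrt p) (j : ℕ) :
    ∫ x, el p a (x p) * (Uu (x p) j : ℂ) ∂P = (a / (Real.sqrt p : ℂ)) ^ j := by
  have h := eh_series hP hp hpp ha (g := fun x => (Uu (x p) j : ℂ))
    (Pool.Agent.LVB.ELM_meas p j).aestronglyMeasurable (C := (j : ℝ) + 1) (by
      filter_upwards [hP.bdd] with x hx
      rw [Complex.norm_real, Real.norm_eq_abs]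
      exact Pool.Agent.LVB.uu_le (hx p hp) j)
  have h1 : ∀ k : ℕ, ∫ x, (Uu (x p) k : ℂ) * (Uu (x p) j : ℂ) ∂P = if k = j then 1 else 0 := by
    intro k
    have h2 : ∀ x : ℕ → ℝ, (Uu (x p) k : ℂ) * (Uu (x p) j : ℂ) =
        ((Uu (x p) k * Uu (x p) j : ℝ) : ℂ) := fun x => by push_cast; rfl
    simp_rw [h2]
    rw [integral_complex_ofReal, Pool.Agent.LVB.ELM_orth hP hp k j]
    split_ifs <;> simp
  simp_rw [h1] at h
  have h3 : HasSum (fun k : ℕ => (a / (Real.sqrt p : ℂ)) ^ k * (if k = j then (1 : ℂ) else 0))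
      ((a / (Real.sqrt p : ℂ)) ^ j * (if j = j then (1 : ℂ) else 0)) :=
    hasSum_single j fun k hk => by simp [hk]
  have h4 := h.unique h3
  simpa using h4

/-- block EH -/
theorem el_two_pr {I : Finset ℕ} {P : Measure (ℕ → ℝ)} (hP : IsST I P) {p : ℕ} (hp : p ∈ I)
    (hpp : p.Prime) {a b : ℂ} (ha : ‖a‖ < Real.sqrt p) (hb : ‖b‖ < Real.sqrt p) :
    ∫ x, el p a (x p) * el p b (x p) ∂P = 1 / (1 - a * b / p) := by
  have hp0 : (0 : ℝ) < p := by exact_mod_cast hpp.pos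
  have hm : Measurable (fun x : ℕ → ℝ => el p b (x p)) :=
    (Pool.Agent.LVB.el_meas p b).comp (measurable_pi_apply p)
  have h := eh_series hP hp hpp ha (g := fun x => el p b (x p)) hm.aestronglyMeasurable
    (C := 1 / (1 - ‖b‖ / Real.sqrt p) ^ 2) (by
      filter_upwards [hP.bdd] with x hx
      exact (el_ser_pr hpp hb (hx p hp)).2)
  have h1 : ∀ k : ℕ, ∫ x, (Uu (x p) k : ℂ) * el p b (x p) ∂P = (b / (Real.sqrt p : ℂ)) ^ k := by
    intro k
    rw [← eh_proj hP hp hpp hb k]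
    exact integral_congr_ae (Filter.Eventually.of_forall fun x => mul_comm _ _)
  simp_rw [h1, ← mul_pow] at h
  have h2 : ‖a / (Real.sqrt p : ℂ) * (b / (Real.sqrt p : ℂ))‖ < 1 := by
    rw [norm_mul]
    have h3 := eh_lt hpp ha
    have h4 := eh_lt hpp hb
    have h5 := norm_nonneg (a / (Real.sqrt p : ℂ))
    have h6 := norm_nonneg (b / (Real.sqrt p : ℂ))
    nlinarith
  have h3 := h.unique (hasSum_geometric_of_norm_lt_one h2)
  rw [h3]
  have hsq : ((Real.sqrt p : ℝ) : ℂ) * ((Real.sqrt p : ℝ) : ℂ) = (p : ℂ) := by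
    rw [← Complex.ofReal_mul, Real.mul_self_sqrt hp0.le]
    simp
  rw [div_mul_div_comm, hsq, one_div]


end Pool.Agent.LE
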