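import Pool.Agent.Lib_helper53.LE.Defs
import Pool.Agent.Lib_helper41.LVBF.ELM
import Pool.Agent.Lib_helper53.LEF.EH

/-! LE, block EI: the integral of four local factors (uses el_ser_pr). -/

set_option autoImplicit false

namespace Pool.Agent.LE

open Complex MeasureTheory ProbabilityTheory Filter
open Pool.Agent.LSP (tau MX CC CB sg1 wX)
open Pool.Agent.KSL (WW)
open Pool.Agent.LEV (Uu Um MEX_le)
open Pool.Agent.LVB (IsST el ELM_meas ELM_int ELM_orth el_meas)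
open Pool.Agent.LK (Qe V PQ MW)

/-- the complete homogeneous polynomials in two variables -/
noncomputable def ei_h (A B : ℂ) : ℕ → ℂ
  | 0 => 1
  | (n + 1) => A * ei_h A B n + B ^ (n + 1)

theorem ei_hb {A B : ℂ} {M : ℝ} (hA : ‖A‖ ≤ M) (hB : ‖B‖ ≤ M) (n : ℕ) :
    ‖ei_h A B n‖ ≤ ((n : ℝ) + 1) * M ^ n := by
  have hM : 0 ≤ M := (norm_nonneg A).trans hA
  induction n with
  | zero => simp [ei_h]
  | succ n ih =>
    have h1 : ‖A * ei_h A B n‖ ≤ M * (((n : ℝ) + 1) * M ^ n) := by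
      rw [norm_mul]
      exact mul_le_mul hA ih (norm_nonneg _) hM
    have h2 : ‖B ^ (n + 1)‖ ≤ M ^ (n + 1) := by
      rw [norm_pow]
      exact pow_le_pow_left₀ (norm_nonneg _) hB _
    calc ‖ei_h A B (n + 1)‖ = ‖A * ei_h A B n + B ^ (n + 1)‖ := rfl
      _ ≤ M * (((n : ℝ) + 1) * M ^ n) + M ^ (n + 1) := (norm_add_le _ _).trans (add_le_add h1 h2)
      _ = (((n + 1 : ℕ) : ℝ) + 1) * M ^ (n + 1) := by push_cast; ring

theorem ei_sum2 {M : ℝ} (h0 : 0 ≤ M) (h1 : M < 1) :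
    Summable (fun n : ℕ => (((n : ℝ) + 1) * (n + 2)) * M ^ n) := by
  have hr : ‖M‖ < 1 := by rwa [Real.norm_eq_abs, abs_of_nonneg h0]
  have h2 := ((summable_pow_mul_geometric_of_norm_lt_one 2 hr).add
    ((summable_pow_mul_geometric_of_norm_lt_one 1 hr).mul_left 3)).add
    ((summable_geometric_of_lt_one h0 h1).mul_left 2)
  refine h2.congr fun k => ?_
  ring

theorem ei_sum_of {f : ℕ → ℂ} {M : ℝ} (h0 : 0 ≤ M) (h1 : M < 1)
    (hf : ∀ n : ℕ, ‖f n‖ ≤ (((n : ℝ) + 1) * (n + 2)) * M ^ n) : Summable f :=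
  Summable.of_norm_bounded (ei_sum2 h0 h1) hf

/-! ### The pointwise identity -/

theorem ei_ub {x : ℝ} (hx : |x| ≤ 2) (k : ℕ) : ‖(Uu x k : ℂ)‖ ≤ (k : ℝ) + 1 := by
  rw [Complex.norm_real, Real.norm_eq_abs]
  exact MEX_le hx k

theorem ei_id {A B : ℂ} {M : ℝ} (hM : M < 1) (hA : ‖A‖ ≤ M) (hB : ‖B‖ ≤ M) {x : ℝ}
    (hx : |x| ≤ 2) :
    Summable (fun n : ℕ => ei_h A B n * (Uu x n : ℂ)) ∧
    (∑' n : ℕ, ei_h A B n * (Uu x n : ℂ)) * (1 - A * x + A ^ 2) =
      (∑' n : ℕ, B ^ n * (Uu x n : ℂ)) * (1 - A * B) := by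
  have hM0 : 0 ≤ M := (norm_nonneg A).trans hA
  have hBn : ∀ n : ℕ, ‖B ^ n‖ ≤ M ^ n := fun n => by
    rw [norm_pow]
    exact pow_le_pow_left₀ (norm_nonneg _) hB _
  have s1 : Summable (fun n : ℕ => ei_h A B n * (Uu x n : ℂ)) := by
    refine ei_sum_of hM0 hM fun n => ?_
    rw [norm_mul]
    calc ‖ei_h A B n‖ * ‖(Uu x n : ℂ)‖ ≤ (((n : ℝ) + 1) * M ^ n) * ((n : ℝ) + 1) :=
          mul_le_mul (ei_hb hA hB n) (ei_ub hx n) (norm_nonneg _) (by positivity)
      _ ≤ (((n : ℝ) + 1) * M ^ n) * ((n : ℝ) + 2) := by gcongr; norm_num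
      _ = _ := by ring
  have s2 : Summable (fun n : ℕ => B ^ n * (Uu x n : ℂ)) := by
    refine ei_sum_of hM0 hM fun n => ?_
    rw [norm_mul]
    calc ‖B ^ n‖ * ‖(Uu x n : ℂ)‖ ≤ M ^ n * ((n : ℝ) + 1) :=
          mul_le_mul (hBn n) (ei_ub hx n) (norm_nonneg _) (by positivity)
      _ ≤ (((n : ℝ) + 1) * (n + 2)) * M ^ n := by
          have h3 : (0 : ℝ) ≤ n := Nat.cast_nonneg n
          have h4 : (0 : ℝ) ≤ M ^ n := by positivity
          nlinarith [mul_nonneg h3 h4, mul_nonneg h3 (mul_nonneg h3 h4)]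
  have s3 : Summable (fun n : ℕ => ei_h A B n * (Uu x (n + 1) : ℂ)) := by
    refine ei_sum_of hM0 hM fun n => ?_
    rw [norm_mul]
    have h5 := ei_ub hx (n + 1)
    push_cast at h5
    calc ‖ei_h A B n‖ * ‖(Uu x (n + 1) : ℂ)‖ ≤ (((n : ℝ) + 1) * M ^ n) * ((n : ℝ) + 1 + 1) :=
          mul_le_mul (ei_hb hA hB n) h5 (norm_nonneg _) (by positivity)
      _ = _ := by ring
  refine ⟨s1, ?_⟩
  set F : ℂ := ∑' n : ℕ, ei_h A B n * (Uu x n : ℂ) with hF
  set E : ℂ := ∑' n : ℕ, B ^ n * (Uu x n : ℂ) with hE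
  set F1 : ℂ := ∑' n : ℕ, ei_h A B n * (Uu x (n + 1) : ℂ) with hF1
  have f1 : HasSum (fun n : ℕ => ei_h A B n * (Uu x n : ℂ)) F := s1.hasSum
  have f2 : HasSum (fun n : ℕ => B ^ n * (Uu x n : ℂ)) E := s2.hasSum
  have f3 : HasSum (fun n : ℕ => ei_h A B n * (Uu x (n + 1) : ℂ)) F1 := s3.hasSum
  have f1' : HasSum (fun n : ℕ => ei_h A B (n + 1) * (Uu x (n + 1) : ℂ)) (F - 1) := by
    have h := (hasSum_nat_add_iff' 1).mpr f1
    simpa [ei_h, Uu] using h
  have f2' : HasSum (fun n : ℕ => B ^ (n + 1) * (Uu x (n + 1) : ℂ)) (E - 1) := by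
    have h := (hasSum_nat_add_iff' 1).mpr f2
    simpa [Uu] using h
  -- F - 1 = A F1 + (E - 1)
  have e1 : F - 1 = A * F1 + (E - 1) := by
    refine f1'.unique ?_
    refine ((f3.mul_left A).add f2').congr_fun ?_
    intro n
    show ei_h A B (n + 1) * (Uu x (n + 1) : ℂ) = _
    simp only [ei_h]
    ring
  -- the shifted sum
  have f4 : HasSum (fun n : ℕ => ei_h A B (n + 1) * (Uu x n : ℂ)) (A * F + B * E) := by
    refine ((f1.mul_left A).add (f2.mul_left B)).congr_fun ?_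
    intro n
    simp only [ei_h]
    ring
  have f3' : HasSum (fun n : ℕ => ei_h A B (n + 1) * (Uu x (n + 2) : ℂ)) (F1 - x) := by
    have h := (hasSum_nat_add_iff' 1).mpr f3
    simpa [ei_h, Uu] using h
  have e2 : F1 - x = x * (F - 1) - (A * F + B * E) := by
    refine f3'.unique ?_
    refine ((f1'.mul_left (x : ℂ)).sub f4).congr_fun ?_
    intro n
    simp only [Uu]
    push_cast
    ring
  linear_combination e1 + A * e2

theorem ei_norm_lt {p : ℕ} (hp : p.Prime) {a : ℂ} (ha : ‖a‖ < Real.sqrt p) :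
    ‖a / (Real.sqrt p : ℂ)‖ < 1 := by
  have hp0 : (0 : ℝ) < p := by exact_mod_cast hp.pos
  have hs : 0 < Real.sqrt p := Real.sqrt_pos.mpr hp0
  rw [norm_div, Complex.norm_real, Real.norm_eq_abs, abs_of_pos hs, div_lt_one hs]
  exact ha

theorem ei_el {p : ℕ} (hp : p.Prime) (a : ℂ) (x : ℝ) :
    el p a x = (1 - (a / (Real.sqrt p : ℂ)) * x + (a / (Real.sqrt p : ℂ)) ^ 2)⁻¹ := by
  unfold el
  have hp0 : (0 : ℝ) ≤ p := by positivity
  have hs : ((Real.sqrt p : ℝ) : ℂ) ^ 2 = (p : ℂ) := by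
    rw [← Complex.ofReal_pow, Real.sq_sqrt hp0]
    simp
  rw [div_pow, hs]
  congr 1
  ring

theorem ei_ser {p : ℕ} (hp : p.Prime) {a b : ℂ} (ha : ‖a‖ < Real.sqrt p)
    (hb : ‖b‖ < Real.sqrt p) {x : ℝ} (hx : |x| ≤ 2) :
    HasSum (fun n : ℕ => ei_h (a / (Real.sqrt p : ℂ)) (b / (Real.sqrt p : ℂ)) n * (Uu x n : ℂ))
      ((1 - (a / (Real.sqrt p : ℂ)) * (b / (Real.sqrt p : ℂ))) * (el p a x * el p b x)) := by
  have hA := ei_norm_lt hp ha
  have hB := ei_norm_lt hp hb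
  have ea := (el_ser_pr hp ha hx).1
  have eb := (el_ser_pr hp hb hx).1
  have hea := ei_el hp a x
  set A : ℂ := a / (Real.sqrt p : ℂ) with hAd
  set B : ℂ := b / (Real.sqrt p : ℂ) with hBd
  obtain ⟨s, h⟩ := ei_id (max_lt hA hB) (le_max_left ‖A‖ ‖B‖) (le_max_right ‖A‖ ‖B‖) hx
  obtain ⟨-, h0⟩ := ei_id (A := A) (B := 0) hA le_rfl (by simp) hx
  have hne : 1 - A * x + A ^ 2 ≠ 0 := by
    intro hz
    rw [hz, mul_zero, mul_zero, sub_zero, mul_one] at h0
    have h1 : (∑' n : ℕ, (0 : ℂ) ^ n * (Uu x n : ℂ)) = 1 := by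
      rw [tsum_eq_single 0 (fun n hn => by rw [zero_pow hn, zero_mul])]
      simp [Uu]
    rw [h1] at h0
    exact one_ne_zero h0.symm
  rw [eb.tsum_eq] at h
  have h2 : (∑' n : ℕ, ei_h A B n * (Uu x n : ℂ)) = (1 - A * B) * (el p a x * el p b x) := by
    rw [hea]
    field_simp
    linear_combination h
  rw [← h2]
  exact s.hasSum

/-! ### The integral against a bounded function -/

theorem ei_int {I : Finset ℕ} {P : Measure (ℕ → ℝ)} (hP : IsST I P) {p : ℕ} (hp : p ∈ I)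
    (hpp : p.Prime) {a b : ℂ} (ha : ‖a‖ < Real.sqrt p) (hb : ‖b‖ < Real.sqrt p)
    {g : (ℕ → ℝ) → ℂ} (hg : AEStronglyMeasurable g P) {C : ℝ} (hC : ∀ᵐ x ∂P, ‖g x‖ ≤ C) :
    HasSum (fun n : ℕ => ei_h (a / (Real.sqrt p : ℂ)) (b / (Real.sqrt p : ℂ)) n *
        ∫ x, (Uu (x p) n : ℂ) * g x ∂P)
      ((1 - (a / (Real.sqrt p : ℂ)) * (b / (Real.sqrt p : ℂ))) *
        ∫ x, el p a (x p) * el p b (x p) * g x ∂P) := by
  have := hP.prob
  have hA := ei_norm_lt hpp ha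
  have hB := ei_norm_lt hpp hb
  have hser : ∀ {x : ℝ}, |x| ≤ 2 → _ := fun {x} hx => ei_ser hpp ha hb hx
  set A : ℂ := a / (Real.sqrt p : ℂ) with hAd
  set B : ℂ := b / (Real.sqrt p : ℂ) with hBd
  set M : ℝ := max ‖A‖ ‖B‖ with hM
  have hM1 : M < 1 := max_lt hA hB
  have hM0 : 0 ≤ M := (norm_nonneg A).trans (le_max_left _ _)
  have hF : ∀ k : ℕ, Integrable (fun x : ℕ → ℝ => ei_h A B k * ((Uu (x p) k : ℂ) * g x)) P :=
    fun k => (ELM_int hP hp k hg hC).const_mul _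
  have hC0 : 0 ≤ C := by
    obtain ⟨x, hx⟩ := hC.exists
    exact (norm_nonneg _).trans hx
  have hS : Summable fun k : ℕ => ∫ x, ‖ei_h A B k * ((Uu (x p) k : ℂ) * g x)‖ ∂P := by
    refine Summable.of_nonneg_of_le (fun k => integral_nonneg fun x => norm_nonneg _)
      (fun k => ?_) ((ei_sum2 hM0 hM1).mul_right C)
    have h1 : ∫ x, ‖ei_h A B k * ((Uu (x p) k : ℂ) * g x)‖ ∂P ≤
        ∫ x : ℕ → ℝ, (((k : ℝ) + 1) * (k + 2)) * M ^ k * C ∂P := by
      refine integral_mono_ae (hF k).norm (integrable_const _) ?_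
      filter_upwards [hP.bdd, hC] with x hx hx2
      rw [norm_mul, norm_mul]
      calc ‖ei_h A B k‖ * (‖(Uu (x p) k : ℂ)‖ * ‖g x‖)
          ≤ (((k : ℝ) + 1) * M ^ k) * (((k : ℝ) + 1) * C) := by
            refine mul_le_mul (ei_hb (le_max_left _ _) (le_max_right _ _) k)
              (mul_le_mul (ei_ub (hx p hp) k) hx2 (norm_nonneg _) (by positivity))
              (by positivity) (by positivity)
        _ ≤ (((k : ℝ) + 1) * M ^ k) * (((k : ℝ) + 2) * C) := by gcongr; norm_num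
        _ = _ := by ring
    refine h1.trans ?_
    rw [integral_const]
    simp
  have h := hasSum_integral_of_summable_integral_norm hF hS
  have e : ∫ x, ∑' k, ei_h A B k * ((Uu (x p) k : ℂ) * g x) ∂P =
      (1 - A * B) * ∫ x, el p a (x p) * el p b (x p) * g x ∂P := by
    rw [← integral_const_mul]
    refine integral_congr_ae ?_
    filter_upwards [hP.bdd] with x hx
    have h1 := (ei_ser hpp ha hb (hx p hp)).mul_right (g x)
    rw [← hAd, ← hBd] at h1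
    have h2 : (1 - A * B) * (el p a (x p) * el p b (x p) * g x) =
        (1 - A * B) * (el p a (x p) * el p b (x p)) * g x := by ring
    rw [h2, ← h1.tsum_eq]
    refine tsum_congr fun k => ?_
    ring
  rw [e] at h
  simpa only [integral_const_mul] using h

theorem ei_nz {A B : ℂ} (hA : ‖A‖ < 1) (hB : ‖B‖ < 1) : 1 - A * B ≠ 0 := by
  intro h
  have h1 : A * B = 1 := by linear_combination -h
  have h2 : ‖A‖ * ‖B‖ = 1 := by rw [← norm_mul, h1, norm_one]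
  have h3 := norm_nonneg A
  have h4 := norm_nonneg B
  nlinarith

/-- the projection of two factors -/
theorem ei_proj {I : Finset ℕ} {P : Measure (ℕ → ℝ)} (hP : IsST I P) {p : ℕ} (hp : p ∈ I)
    (hpp : p.Prime) {c d : ℂ} (hc : ‖c‖ < Real.sqrt p) (hd : ‖d‖ < Real.sqrt p) (j : ℕ) :
    ∫ x, (Uu (x p) j : ℂ) * (el p c (x p) * el p d (x p)) ∂P =
      ei_h (c / (Real.sqrt p : ℂ)) (d / (Real.sqrt p : ℂ)) j /
        (1 - (c / (Real.sqrt p : ℂ)) * (d / (Real.sqrt p : ℂ))) := by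
  have h := ei_int hP hp hpp hc hd (g := fun x => (Uu (x p) j : ℂ))
    (ELM_meas p j).aestronglyMeasurable (C := (j : ℝ) + 1) (by
      filter_upwards [hP.bdd] with x hx
      exact ei_ub (hx p hp) j)
  have hn := ei_nz (ei_norm_lt hpp hc) (ei_norm_lt hpp hd)
  have h1 : ∀ k : ℕ, ∫ x, (Uu (x p) k : ℂ) * (Uu (x p) j : ℂ) ∂P = if k = j then 1 else 0 := by
    intro k
    have h2 : ∀ x : ℕ → ℝ, (Uu (x p) k : ℂ) * (Uu (x p) j : ℂ) =
        ((Uu (x p) k * Uu (x p) j : ℝ) : ℂ) := fun x => by push_cast; rfl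
    simp_rw [h2]
    rw [integral_complex_ofReal, ELM_orth hP hp k j]
    split_ifs <;> simp
  simp_rw [h1] at h
  have h3 : HasSum (fun k : ℕ => ei_h (c / (Real.sqrt p : ℂ)) (d / (Real.sqrt p : ℂ)) k *
      (if k = j then (1 : ℂ) else 0))
      (ei_h (c / (Real.sqrt p : ℂ)) (d / (Real.sqrt p : ℂ)) j *
        (if j = j then (1 : ℂ) else 0)) :=
    hasSum_single j fun k hk => by simp [hk]
  have h4 := h.unique h3
  rw [if_pos rfl, mul_one] at h4
  rw [eq_div_iff hn, ← h4, mul_comm]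
  congr 1
  refine integral_congr_ae (Eventually.of_forall fun x => ?_)
  show (Uu (x p) j : ℂ) * (el p c (x p) * el p d (x p)) = _
  ring

/-! ### The algebraic sum -/

theorem ei_h_geo {A B D : ℂ} (hA : ‖A‖ < 1) (hB : ‖B‖ < 1) (hD : ‖D‖ < 1) :
    HasSum (fun n : ℕ => ei_h A B n * D ^ n) (1 / ((1 - A * D) * (1 - B * D))) := by
  have hM1 : max ‖A‖ ‖B‖ < 1 := max_lt hA hB
  have hM0 : 0 ≤ max ‖A‖ ‖B‖ := (norm_nonneg A).trans (le_max_left _ _)
  have s : Summable (fun n : ℕ => ei_h A B n * D ^ n) := by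
    refine ei_sum_of hM0 hM1 fun n => ?_
    have h1 : ‖D ^ n‖ ≤ 1 := by
      rw [norm_pow]
      exact pow_le_one₀ (norm_nonneg _) hD.le
    have h2 : (0 : ℝ) ≤ (max ‖A‖ ‖B‖) ^ n := by positivity
    have h3 : (0 : ℝ) ≤ n := Nat.cast_nonneg n
    calc ‖ei_h A B n * D ^ n‖ = ‖ei_h A B n‖ * ‖D ^ n‖ := norm_mul _ _
      _ ≤ (((n : ℝ) + 1) * (max ‖A‖ ‖B‖) ^ n) * 1 :=
          mul_le_mul (ei_hb (le_max_left _ _) (le_max_right _ _) n) h1 (norm_nonneg _)
            (by positivity)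
      _ ≤ (((n : ℝ) + 1) * (max ‖A‖ ‖B‖) ^ n) * (n + 2) := by gcongr; linarith
      _ = _ := by ring
  obtain ⟨T, hT⟩ := s
  have hBD : ‖B * D‖ < 1 := by
    rw [norm_mul]
    have h3 := norm_nonneg B
    have h4 := norm_nonneg D
    nlinarith
  have hg := (hasSum_geometric_of_norm_lt_one hBD).mul_left (B * D)
  have hT' : HasSum (fun n : ℕ => ei_h A B (n + 1) * D ^ (n + 1)) (T - 1) := by
    have h := (hasSum_nat_add_iff' 1).mpr hT
    simpa [ei_h] using h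
  have e : T - 1 = (A * D) * T + (B * D) * (1 - B * D)⁻¹ := by
    refine hT'.unique ?_
    refine ((hT.mul_left (A * D)).add hg).congr_fun ?_
    intro n
    simp only [ei_h]
    ring
  have n1 := ei_nz hA hD
  have n2 := ei_nz hB hD
  have hTv : T = 1 / ((1 - A * D) * (1 - B * D)) := by
    rw [eq_div_iff (mul_ne_zero n1 n2)]
    have h5 : (1 - B * D) * (1 - B * D)⁻¹ = 1 := mul_inv_cancel₀ n2
    linear_combination (1 - B * D) * e + B * D * h5
  rw [← hTv]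
  exact hT

theorem ei_hh {A B C D : ℂ} (hA : ‖A‖ < 1) (hB : ‖B‖ < 1) (hC : ‖C‖ < 1) (hD : ‖D‖ < 1)
    {S : ℂ} (hS : HasSum (fun n : ℕ => ei_h A B n * ei_h C D n) S) :
    S * ((1 - A * C) * (1 - A * D) * (1 - B * C) * (1 - B * D)) = 1 - A * B * C * D := by
  have g1 := (ei_h_geo hA hB hD).mul_left (A * D)
  have g2 := (ei_h_geo hC hD hB).mul_left (B * C)
  have hBD : ‖B * D‖ < 1 := by
    rw [norm_mul]
    have h3 := norm_nonneg B
    have h4 := norm_nonneg D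
    nlinarith
  have g3 := (hasSum_geometric_of_norm_lt_one hBD).mul_left (B * D)
  have hS' : HasSum (fun n : ℕ => ei_h A B (n + 1) * ei_h C D (n + 1)) (S - 1) := by
    have h := (hasSum_nat_add_iff' 1).mpr hS
    simpa [ei_h] using h
  have e : S - 1 = A * C * S + A * D * (1 / ((1 - A * D) * (1 - B * D))) +
      B * C * (1 / ((1 - C * B) * (1 - D * B))) + B * D * (1 - B * D)⁻¹ := by
    refine hS'.unique ?_
    refine ((((hS.mul_left (A * C)).add g1).add g2).add g3).congr_fun ?_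
    intro n
    simp only [ei_h]
    ring
  have n1 := ei_nz hA hD
  have n2 := ei_nz hB hD
  have n3 := ei_nz hB hC
  have n4 : (1 - C * B) ≠ 0 := by rw [mul_comm]; exact n3
  have n5 : (1 - D * B) ≠ 0 := by rw [mul_comm]; exact n2
  have i1 : (1 - A * D) * (1 - B * D) * (1 / ((1 - A * D) * (1 - B * D))) = 1 :=
    mul_one_div_cancel (mul_ne_zero n1 n2)
  have i2 : (1 - C * B) * (1 - D * B) * (1 / ((1 - C * B) * (1 - D * B))) = 1 :=
    mul_one_div_cancel (mul_ne_zero n4 n5)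
  have i3 : (1 - B * D) * (1 - B * D)⁻¹ = 1 := mul_inv_cancel₀ n2
  linear_combination ((1 - A * D) * (1 - B * C) * (1 - B * D)) * e +
    (A * D * (1 - B * C)) * i1 + (B * C * (1 - A * D)) * i2 +
    (B * D * (1 - A * D) * (1 - B * C)) * i3

theorem el_four_pr {I : Finset ℕ} {P : Measure (ℕ → ℝ)} (hP : IsST I P) {p : ℕ} (hp : p ∈ I)
    (hpp : p.Prime) {a b c d : ℂ} (ha : ‖a‖ < Real.sqrt p) (hb : ‖b‖ < Real.sqrt p)
    (hc : ‖c‖ < Real.sqrt p) (hd : ‖d‖ < Real.sqrt p) :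
    ∫ x, el p a (x p) * el p b (x p) * (el p c (x p) * el p d (x p)) ∂P =
      (1 - a * b * c * d / (p : ℂ) ^ 2) / ((1 - a * b / p) * (1 - a * c / p) * (1 - a * d / p) *
        (1 - b * c / p) * (1 - b * d / p) * (1 - c * d / p)) := by
  have hA := ei_norm_lt hpp ha
  have hB := ei_norm_lt hpp hb
  have hC := ei_norm_lt hpp hc
  have hD := ei_norm_lt hpp hd
  have hm : Measurable (fun x : ℕ → ℝ => el p c (x p) * el p d (x p)) :=
    ((el_meas p c).comp (measurable_pi_apply p)).mul ((el_meas p d).comp (measurable_pi_apply p))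
  have h := ei_int hP hp hpp ha hb (g := fun x => el p c (x p) * el p d (x p))
    hm.aestronglyMeasurable (C := (1 / (1 - ‖c‖ / Real.sqrt p) ^ 2) *
      (1 / (1 - ‖d‖ / Real.sqrt p) ^ 2)) (by
      filter_upwards [hP.bdd] with x hx
      rw [norm_mul]
      exact mul_le_mul (el_ser_pr hpp hc (hx p hp)).2 (el_ser_pr hpp hd (hx p hp)).2 (norm_nonneg _)
        (by positivity))
  simp_rw [ei_proj hP hp hpp hc hd] at h
  have hp0 : (0 : ℝ) ≤ p := by positivity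
  have hs : ((Real.sqrt p : ℝ) : ℂ) * ((Real.sqrt p : ℝ) : ℂ) = (p : ℂ) := by
    rw [← Complex.ofReal_mul, Real.mul_self_sqrt hp0]
    simp
  have hpr : ∀ u v : ℂ, u * v / (p : ℂ) = (u / (Real.sqrt p : ℂ)) * (v / (Real.sqrt p : ℂ)) := by
    intro u v
    rw [div_mul_div_comm, hs]
  have hpr4 : a * b * c * d / (p : ℂ) ^ 2 = (a / (Real.sqrt p : ℂ)) * (b / (Real.sqrt p : ℂ)) *
      (c / (Real.sqrt p : ℂ)) * (d / (Real.sqrt p : ℂ)) := by
    rw [← hs]
    ring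
  rw [hpr a b, hpr a c, hpr a d, hpr b c, hpr b d, hpr c d, hpr4]
  set A : ℂ := a / (Real.sqrt p : ℂ) with hAd
  set B : ℂ := b / (Real.sqrt p : ℂ) with hBd
  set C : ℂ := c / (Real.sqrt p : ℂ) with hCd
  set D : ℂ := d / (Real.sqrt p : ℂ) with hDd
  set J : ℂ := ∫ x, el p a (x p) * el p b (x p) * (el p c (x p) * el p d (x p)) ∂P with hJ
  have n0 := ei_nz hC hD
  have n1 := ei_nz hA hB
  have n2 := ei_nz hA hC
  have n3 := ei_nz hA hD
  have n4 := ei_nz hB hC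
  have n5 := ei_nz hB hD
  have h2 : HasSum (fun n : ℕ => ei_h A B n * ei_h C D n) ((1 - A * B) * J * (1 - C * D)) := by
    refine (h.mul_right (1 - C * D)).congr_fun ?_
    intro n
    field_simp
  have h3 := ei_hh hA hB hC hD h2
  rw [eq_div_iff (by
    refine mul_ne_zero (mul_ne_zero (mul_ne_zero (mul_ne_zero (mul_ne_zero n1 n2) n3) n4) n5) n0)]
  linear_combination h3

end Pool.Agent.LE
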