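import Pool.Agent.Lib_helper53.LE.Defs
import Pool.Agent.Lib_helper53.LEF.EH
import Pool.Agent.Lib_helper53.LEF.EI

/-! LSP3, part E, block EQ: size of the local weights. -/

set_option autoImplicit false

namespace Pool.Agent.LE

open Complex MeasureTheory ProbabilityTheory
open Pool.Agent.LSP (tau MX CC CB sg1 wX)
open Pool.Agent.KSL (WW)
open Pool.Agent.LEV (Uu Um)
open Pool.Agent.LVB (IsST el)
open Pool.Agent.LK (Qe V PQ MW)

theorem eq_root {x y : ℝ} {m n : ℕ} (hm : m ≠ 0) (hx : x = 2 ^ (-((n : ℝ) / m))) (hy : 0 ≤ y)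
    (h : (1 / 2) ^ n ≤ y ^ m) : x ≤ y := by
  have hx0 : 0 < x := by
    rw [hx]
    exact Real.rpow_pos_of_pos two_pos _
  have h1 : x ^ m = (1 / 2) ^ n := by
    rw [hx, ← Real.rpow_natCast, ← Real.rpow_mul two_pos.le]
    have hm' : (m : ℝ) ≠ 0 := by exact_mod_cast hm
    have h2 : -((n : ℝ) / m) * (m : ℝ) = -(n : ℝ) := by
      field_simp
    rw [h2, Real.rpow_neg two_pos.le, Real.rpow_natCast, one_div, inv_pow]
  rw [← h1] at h
  exact le_of_pow_le_pow_left₀ hm hy h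

theorem eq_pow {p : ℕ} (hp : p.Prime) {t T : ℝ} (ht : t ≤ T) (hT : T ≤ 1 / 2) :
    (p : ℝ) ^ t / Real.sqrt p ≤ 2 ^ (T - 1 / 2) := by
  have hp2 : (2 : ℝ) ≤ p := by exact_mod_cast hp.two_le
  have hp0 : (0 : ℝ) < p := by linarith
  rw [Real.sqrt_eq_rpow, ← Real.rpow_sub hp0]
  calc (p : ℝ) ^ (t - 1 / 2) ≤ (p : ℝ) ^ (T - 1 / 2) :=
        Real.rpow_le_rpow_of_exponent_le (by linarith) (by linarith)
    _ ≤ 2 ^ (T - 1 / 2) := Real.rpow_le_rpow_of_nonpos two_pos hp2 (by linarith)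

theorem eq_pow1 {p : ℕ} (hp : p.Prime) {t : ℝ} (ht : t ≤ 1 / 7) :
    (p : ℝ) ^ t / Real.sqrt p ≤ 781 / 1000 := by
  refine (eq_pow hp ht (by norm_num)).trans ?_
  refine eq_root (m := 14) (n := 5) (by norm_num) ?_ (by norm_num) (by norm_num)
  congr 1
  norm_num

theorem eq_pow2 {p : ℕ} (hp : p.Prime) {t : ℝ} (ht : t ≤ 3 / 10) :
    (p : ℝ) ^ t / Real.sqrt p ≤ 871 / 1000 := by
  refine (eq_pow hp ht (by norm_num)).trans ?_
  refine eq_root (m := 5) (n := 1) (by norm_num) ?_ (by norm_num) (by norm_num)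
  congr 1
  norm_num

theorem eq_cpow {p : ℕ} (hp : p.Prime) (z : ℂ) : ‖(p : ℂ) ^ (-z)‖ = (p : ℝ) ^ (-z.re) := by
  have hp0 : (0 : ℝ) < p := by exact_mod_cast hp.pos
  have h := Complex.norm_cpow_eq_rpow_re_of_pos hp0 (-z)
  rw [Complex.ofReal_natCast, Complex.neg_re] at h
  exact h

theorem eq_meas (p : ℕ) (a : ℂ) : Measurable (el p a) := by
  unfold el
  fun_prop

theorem eq_sqrt {p : ℕ} (hp : p.Prime) : 0 < Real.sqrt p :=
  Real.sqrt_pos.2 (by exact_mod_cast hp.pos)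

/-- bound for one factor -/
theorem eq_el {p : ℕ} (hp : p.Prime) {a : ℂ} {α : ℝ} (ha : ‖a‖ / Real.sqrt p ≤ α) (hα : α < 1)
    {x : ℝ} (hx : |x| ≤ 2) : ‖el p a x‖ ≤ 1 / (1 - α) ^ 2 := by
  have hs := eq_sqrt hp
  have h1 : ‖a‖ < Real.sqrt p := by
    have h2 : ‖a‖ ≤ α * Real.sqrt p := (div_le_iff₀ hs).1 ha
    nlinarith
  refine (el_ser_pr hp h1 hx).2.trans ?_
  apply one_div_le_one_div_of_le
  · have : 0 < 1 - α := by linarith
    positivity
  · apply pow_le_pow_left₀ (by linarith)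
    linarith

theorem eq_lt {p : ℕ} (hp : p.Prime) {a : ℂ} {α : ℝ} (ha : ‖a‖ / Real.sqrt p ≤ α) (hα : α < 1) :
    ‖a‖ < Real.sqrt p := by
  have hs := eq_sqrt hp
  have h2 : ‖a‖ ≤ α * Real.sqrt p := (div_le_iff₀ hs).1 ha
  nlinarith

/-- the product of two factors over `p` -/
theorem eq_prod {p : ℕ} (hp : p.Prime) {a b : ℂ} {α β : ℝ} (ha : ‖a‖ / Real.sqrt p ≤ α)
    (hb : ‖b‖ / Real.sqrt p ≤ β) : ‖a * b / (p : ℂ)‖ ≤ α * β := by
  have hs := eq_sqrt hp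
  have hp0 : (0 : ℝ) ≤ p := Nat.cast_nonneg p
  have h1 : ‖a * b / (p : ℂ)‖ = (‖a‖ / Real.sqrt p) * (‖b‖ / Real.sqrt p) := by
    rw [norm_div, norm_mul, Complex.norm_natCast, div_mul_div_comm, Real.mul_self_sqrt hp0]
  rw [h1]
  have h2 : 0 ≤ ‖a‖ / Real.sqrt p := by positivity
  have h3 : 0 ≤ ‖b‖ / Real.sqrt p := by positivity
  exact mul_le_mul ha hb h3 (h2.trans ha)

theorem eq_one_sub {u : ℂ} {M : ℝ} (h : ‖u‖ ≤ M) : ‖1 - u‖ ≤ 1 + M := by
  refine (norm_sub_le _ _).trans ?_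
  rw [norm_one]
  linarith

variable {q : ℕ} [NeZero q]

theorem eq_chi (χ : DirichletCharacter ℂ q) {p : ℕ} (hp : p.Prime) {z : ℂ} {α : ℝ}
    (h : (p : ℝ) ^ (-z.re) / Real.sqrt p ≤ α) :
    ‖χ p * (p : ℂ) ^ (-z)‖ / Real.sqrt p ≤ α := by
  have hs := eq_sqrt hp
  refine le_trans ?_ h
  apply div_le_div_of_nonneg_right _ hs.le
  rw [norm_mul, eq_cpow hp]
  have h1 := DirichletCharacter.norm_le_one χ (p : ZMod q)
  have h2 : 0 ≤ (p : ℝ) ^ (-z.re) := Real.rpow_nonneg (Nat.cast_nonneg p) _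
  exact mul_le_of_le_one_left h2 h1

/-- block EQ (uses el_ser_pr, el_four_pr): the local weights of the quadratic form -/
theorem w2_facts_pr (χ : DirichletCharacter ℂ q) {p : ℕ} (hpp : p.Prime) {r s z : ℂ}
    (hr : ‖r‖ ≤ 1 / 7) (hs : ‖s‖ ≤ 1 / 7) (hz : -(3 / 10) ≤ z.re) :
    Measurable (w2 χ r s z p) ∧ (∀ x : ℝ, |x| ≤ 2 → ‖w2 χ r s z p x‖ ≤ 10 ^ 6) ∧
      ∀ (I : Finset ℕ) (P : Measure (ℕ → ℝ)), IsST I P → p ∈ I →
        1 / 50 ≤ ‖∫ x, w2 χ r s z p (x p) ∂P‖ := by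
  have hr1 : -r.re ≤ 1 / 7 := ((neg_le_abs _).trans (Complex.abs_re_le_norm r)).trans hr
  have hs1 : -s.re ≤ 1 / 7 := ((neg_le_abs _).trans (Complex.abs_re_le_norm s)).trans hs
  have hz1 : -z.re ≤ 3 / 10 := by linarith
  have ha : ‖(p : ℂ) ^ (-r)‖ / Real.sqrt p ≤ 781 / 1000 := by
    rw [eq_cpow hpp]
    exact eq_pow1 hpp hr1
  have hb : ‖χ p * (p : ℂ) ^ (-s)‖ / Real.sqrt p ≤ 781 / 1000 := eq_chi χ hpp (eq_pow1 hpp hs1)
  have hc : ‖χ p * (p : ℂ) ^ (-z)‖ / Real.sqrt p ≤ 871 / 1000 := eq_chi χ hpp (eq_pow2 hpp hz1)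
  set a : ℂ := (p : ℂ) ^ (-r) with hadef
  set b : ℂ := χ p * (p : ℂ) ^ (-s) with hbdef
  set c : ℂ := χ p * (p : ℂ) ^ (-z) with hcdef
  have hw : ∀ x, w2 χ r s z p x = el p a x * el p a x * (el p b x * el p c x) := by
    intro x
    unfold w2 wQ
    rw [← hadef, ← hbdef, ← hcdef]
    ring
  have h781 : (781 / 1000 : ℝ) < 1 := by norm_num
  have h871 : (871 / 1000 : ℝ) < 1 := by norm_num
  refine ⟨?_, ?_, ?_⟩
  · have h1 : w2 χ r s z p = fun x => el p a x * el p a x * (el p b x * el p c x) := funext hw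
    rw [h1]
    exact ((eq_meas p a).mul (eq_meas p a)).mul ((eq_meas p b).mul (eq_meas p c))
  · intro x hx
    rw [hw, norm_mul, norm_mul, norm_mul]
    have e1 := eq_el hpp ha h781 hx
    have e2 := eq_el hpp hb h781 hx
    have e3 := eq_el hpp hc h871 hx
    have f1 : ‖el p a x‖ ≤ 21 := e1.trans (by norm_num)
    have f2 : ‖el p b x‖ ≤ 21 := e2.trans (by norm_num)
    have f3 : ‖el p c x‖ ≤ 61 := e3.trans (by norm_num)
    calc ‖el p a x‖ * ‖el p a x‖ * (‖el p b x‖ * ‖el p c x‖) ≤ 21 * 21 * (21 * 61) := by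
          gcongr
      _ ≤ 10 ^ 6 := by norm_num
  · intro I P hP hpI
    simp only [hw]
    rw [el_four_pr hP hpI hpp (eq_lt hpp ha h781) (eq_lt hpp ha h781) (eq_lt hpp hb h781)
      (eq_lt hpp hc h871)]
    have g1 := eq_one_sub (eq_prod hpp ha ha)
    have g2 := eq_one_sub (eq_prod hpp ha hb)
    have g3 := eq_one_sub (eq_prod hpp ha hc)
    have g4 := eq_one_sub (eq_prod hpp hb hc)
    have g5 : ‖a * a * b * c / (p : ℂ) ^ 2‖ ≤ (781 / 1000 * (781 / 1000)) *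
        (781 / 1000 * (871 / 1000)) := by
      have h1 : a * a * b * c / (p : ℂ) ^ 2 = (a * a / p) * (b * c / p) := by
        have hp0 : (p : ℂ) ≠ 0 := by exact_mod_cast hpp.ne_zero
        field_simp
      rw [h1, norm_mul]
      exact mul_le_mul (eq_prod hpp ha ha) (eq_prod hpp hb hc) (norm_nonneg _) (by norm_num)
    have g6 : 58 / 100 ≤ ‖1 - a * a * b * c / (p : ℂ) ^ 2‖ := by
      have h1 := norm_sub_norm_le (1 : ℂ) (a * a * b * c / (p : ℂ) ^ 2)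
      rw [norm_one] at h1
      have h2 : (1 : ℝ) - (781 / 1000 * (781 / 1000)) * (781 / 1000 * (871 / 1000)) ≥
          58 / 100 := by norm_num
      linarith
    rw [norm_div, norm_mul, norm_mul, norm_mul, norm_mul, norm_mul]
    -- the denominators do not vanish
    have k0 : ∀ {u v : ℂ} {α β : ℝ}, ‖u‖ / Real.sqrt p ≤ α → ‖v‖ / Real.sqrt p ≤ β →
        α * β < 1 → 0 < ‖1 - u * v / (p : ℂ)‖ := by
      intro u v α β hu hv h
      have h1 := eq_prod hpp hu hv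
      have h2 := norm_sub_norm_le (1 : ℂ) (u * v / (p : ℂ))
      rw [norm_one] at h2
      linarith
    have k1 := k0 ha ha (by norm_num)
    have k2 := k0 ha hb (by norm_num)
    have k3 := k0 ha hc (by norm_num)
    have k4 := k0 hb hc (by norm_num)
    rw [le_div_iff₀ (by positivity)]
    have g7 : ‖1 - a * a / (p : ℂ)‖ * ‖1 - a * b / (p : ℂ)‖ * ‖1 - a * c / (p : ℂ)‖ *
        ‖1 - a * b / (p : ℂ)‖ * ‖1 - a * c / (p : ℂ)‖ * ‖1 - b * c / (p : ℂ)‖ ≤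
        (1 + 781 / 1000 * (781 / 1000)) * (1 + 781 / 1000 * (781 / 1000)) *
        (1 + 781 / 1000 * (871 / 1000)) * (1 + 781 / 1000 * (781 / 1000)) *
        (1 + 781 / 1000 * (871 / 1000)) * (1 + 781 / 1000 * (871 / 1000)) := by
      gcongr
    have g8 : (1 + 781 / 1000 * (781 / 1000) : ℝ) * (1 + 781 / 1000 * (781 / 1000)) *
        (1 + 781 / 1000 * (871 / 1000)) * (1 + 781 / 1000 * (781 / 1000)) *
        (1 + 781 / 1000 * (871 / 1000)) * (1 + 781 / 1000 * (871 / 1000)) ≤ 20 := by norm_num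
    linarith

/-- block EQ (uses el_ser_pr, el_two_pr): the local weights of the linear functional -/
theorem w1_facts_pr (χ : DirichletCharacter ℂ q) {p : ℕ} (hpp : p.Prime) {z : ℂ}
    (hz : -(3 / 10) ≤ z.re) :
    Measurable (w1 χ z p) ∧ (∀ x : ℝ, |x| ≤ 2 → ‖w1 χ z p x‖ ≤ 10 ^ 6) ∧
      ∀ (I : Finset ℕ) (P : Measure (ℕ → ℝ)), IsST I P → p ∈ I →
        1 / 50 ≤ ‖∫ x, w1 χ z p (x p) ∂P‖ := by
  have hz1 : -z.re ≤ 3 / 10 := by linarith
  have ha : ‖(1 : ℂ)‖ / Real.sqrt p ≤ 781 / 1000 := by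
    have h1 := eq_pow1 hpp (t := 0) (by norm_num)
    rwa [Real.rpow_zero, ← norm_one (α := ℂ)] at h1
  have hc : ‖χ p * (p : ℂ) ^ (-z)‖ / Real.sqrt p ≤ 871 / 1000 := eq_chi χ hpp (eq_pow2 hpp hz1)
  set c : ℂ := χ p * (p : ℂ) ^ (-z) with hcdef
  have hw : ∀ x, w1 χ z p x = el p 1 x * el p c x := fun x => rfl
  have h781 : (781 / 1000 : ℝ) < 1 := by norm_num
  have h871 : (871 / 1000 : ℝ) < 1 := by norm_num
  refine ⟨?_, ?_, ?_⟩
  · exact (eq_meas p 1).mul (eq_meas p c)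
  · intro x hx
    rw [hw, norm_mul]
    have e1 := eq_el hpp ha h781 hx
    have e3 := eq_el hpp hc h871 hx
    have f1 : ‖el p 1 x‖ ≤ 21 := e1.trans (by norm_num)
    have f3 : ‖el p c x‖ ≤ 61 := e3.trans (by norm_num)
    calc ‖el p 1 x‖ * ‖el p c x‖ ≤ 21 * 61 := by gcongr
      _ ≤ 10 ^ 6 := by norm_num
  · intro I P hP hpI
    simp only [hw]
    rw [el_two_pr hP hpI hpp (eq_lt hpp ha h781) (eq_lt hpp hc h871)]
    have g3 := eq_one_sub (eq_prod hpp ha hc)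
    have k3 : 0 < ‖1 - 1 * c / (p : ℂ)‖ := by
      have h1 := eq_prod hpp ha hc
      have h2 := norm_sub_norm_le (1 : ℂ) (1 * c / (p : ℂ))
      rw [norm_one] at h2
      have h3 : (781 / 1000 : ℝ) * (871 / 1000) < 1 := by norm_num
      linarith
    rw [norm_div, norm_one, le_div_iff₀ k3]
    have h3 : (1 : ℝ) + (781 / 1000) * (871 / 1000) ≤ 50 := by norm_num
    linarith

end Pool.Agent.LE
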