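import Pool.Agent.Lib_helper53.LE.Defs
import Pool.Agent.Lib_helper68.LEV.MEX
import Pool.Agent.Lib_helper53.LEF.EQ

/-! LSP3, part E, block ES: the expectation is holomorphic in the parameters. -/

set_option autoImplicit false

namespace Pool.Agent.LE

open Complex MeasureTheory ProbabilityTheory Filter Topology
open Pool.Agent.LSP (tau MX CC CB sg1 wX)
open Pool.Agent.KSL (WW)
open Pool.Agent.LEV (Uu Um MEX_cont MEX_le)
open Pool.Agent.LVB (IsST el)
open Pool.Agent.LK (Qe V PQ MW)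

/-- parametric integrals of bounded holomorphic functions -/
theorem es_param {X : Type*} [MeasurableSpace X] {P : Measure X} [IsFiniteMeasure P]
    {U : Set (ℂ × ℂ × ℂ)} (hU : IsOpen U) {F : ℂ × ℂ × ℂ → X → ℂ}
    (hm : ∀ u, AEStronglyMeasurable (F u) P) {C : ℝ}
    (hb : ∀ᵐ x ∂P, ∀ u ∈ U, ‖F u x‖ ≤ C)
    (hd : ∀ᵐ x ∂P, DifferentiableOn ℂ (fun u => F u x) U) :
    DifferentiableOn ℂ (fun u => ∫ x, F u x ∂P) U := by
  intro u₀ hu₀
  obtain ⟨ε, hε, hεU⟩ := Metric.isOpen_iff.mp hU u₀ hu₀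
  have hev : ∀ᶠ u in 𝓝 u₀, AEStronglyMeasurable (F u) P := Eventually.of_forall hm
  have hint : Integrable (F u₀) P := by
    refine Integrable.of_bound (hm u₀) C ?_
    filter_upwards [hb] with x hx
    exact hx u₀ hu₀
  have hev1 : ∀ v : ℂ × ℂ × ℂ, AEStronglyMeasurable
      (fun x => (fderiv ℂ (fun u => F u x) u₀) v) P := by
    intro v
    refine aestronglyMeasurable_of_tendsto_ae (u := atTop) (f := fun n : ℕ => fun x =>
      ((n : ℂ)) • (F (u₀ + ((n : ℂ))⁻¹ • v) x - F u₀ x)) (fun n => ?_) ?_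
    · exact AEStronglyMeasurable.const_smul (f := fun x => F (u₀ + ((n : ℂ))⁻¹ • v) x - F u₀ x)
        ((hm _).sub (hm _)) (n : ℂ)
    · filter_upwards [hd] with x hx
      have h1 : HasFDerivAt (fun u => F u x) (fderiv ℂ (fun u => F u x) u₀) u₀ :=
        ((hx u₀ hu₀).differentiableAt (hU.mem_nhds hu₀)).hasFDerivAt
      refine h1.lim v ?_
      simp only [Complex.norm_natCast]
      exact tendsto_natCast_atTop_atTop
  have hF' : AEStronglyMeasurable (fun x => fderiv ℂ (fun u => F u x) u₀) P := by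
    have h2 : (fun x => fderiv ℂ (fun u => F u x) u₀) = fun x =>
        ((fderiv ℂ (fun u => F u x) u₀) (1, 0, 0)) • ContinuousLinearMap.fst ℂ ℂ (ℂ × ℂ) +
        (((fderiv ℂ (fun u => F u x) u₀) (0, 1, 0)) •
          ((ContinuousLinearMap.fst ℂ ℂ ℂ).comp (ContinuousLinearMap.snd ℂ ℂ (ℂ × ℂ))) +
        ((fderiv ℂ (fun u => F u x) u₀) (0, 0, 1)) •
          ((ContinuousLinearMap.snd ℂ ℂ ℂ).comp (ContinuousLinearMap.snd ℂ ℂ (ℂ × ℂ)))) := by
      funext x
      apply ContinuousLinearMap.ext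
      rintro ⟨a, b, c⟩
      have h3 : ((a, b, c) : ℂ × ℂ × ℂ) = a • (1, 0, 0) + (b • (0, 1, 0) + c • (0, 0, 1)) := by
        simp
      conv_lhs => rw [h3, map_add, map_add, map_smul, map_smul, map_smul]
      simp
      ring
    rw [h2]
    exact ((hev1 _).smul_const _).add (((hev1 _).smul_const _).add ((hev1 _).smul_const _))
  have hs : Metric.ball u₀ (ε / 2) ∈ 𝓝 u₀ := Metric.ball_mem_nhds _ (by positivity)
  refine (hasFDerivAt_integral_of_dominated_of_fderiv_le (𝕜 := ℂ) (s := Metric.ball u₀ (ε / 2))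
    (F' := fun u x => fderiv ℂ (fun u => F u x) u) (bound := fun _ => 2 * C / (ε / 2)) hs hev hint
    hF' ?_ (integrable_const _) ?_).differentiableAt.differentiableWithinAt
  · filter_upwards [hb, hd] with x hx1 hx2 u hu
    have hsub : Metric.ball u (ε / 2) ⊆ U := by
      refine subset_trans (fun y hy => ?_) hεU
      rw [Metric.mem_ball] at hy hu ⊢
      calc dist y u₀ ≤ dist y u + dist u u₀ := dist_triangle _ _ _
        _ < ε := by linarith
    have huU : u ∈ U := hsub (Metric.mem_ball_self (by positivity))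
    refine Complex.norm_fderiv_le_div_of_mapsTo_ball (hx2.mono hsub) (fun y hy => ?_)
      (by positivity)
    rw [Metric.mem_closedBall, dist_eq_norm]
    calc ‖F y x - F u x‖ ≤ ‖F y x‖ + ‖F u x‖ := norm_sub_le _ _
      _ ≤ C + C := add_le_add (hx1 y (hsub hy)) (hx1 u huU)
      _ = 2 * C := by ring
  · filter_upwards [hd] with x hx u hu
    have huU : u ∈ U := by
      apply hεU
      rw [Metric.mem_ball] at hu ⊢
      linarith
    exact ((hx u huU).differentiableAt (hU.mem_nhds huU)).hasFDerivAt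

theorem es_ne {p : ℕ} {a : ℂ} (ha : ‖a‖ < Real.sqrt p) {y : ℝ} (hy : |y| ≤ 2) :
    1 - a * (y : ℂ) / (Real.sqrt p : ℂ) + a ^ 2 / (p : ℂ) ≠ 0 := by
  have hsp : 0 < Real.sqrt p := (norm_nonneg a).trans_lt ha
  set α : ℂ := a / (Real.sqrt p : ℂ) with hα
  have hα1 : ‖α‖ < 1 := by
    rw [hα, norm_div, Complex.norm_real, Real.norm_eq_abs, abs_of_pos hsp, div_lt_one hsp]
    exact ha
  have hp : ((Real.sqrt p : ℝ) : ℂ) ^ 2 = (p : ℂ) := by
    rw [← Complex.ofReal_pow, Real.sq_sqrt (Nat.cast_nonneg p)]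
    simp
  have h1 : 1 - a * (y : ℂ) / (Real.sqrt p : ℂ) + a ^ 2 / (p : ℂ) = 1 - α * y + α ^ 2 := by
    rw [hα, ← hp, div_pow]
    ring
  rw [h1]
  rw [abs_le] at hy
  set t : ℝ := Real.sqrt (1 - (y / 2) ^ 2) with ht
  have ht2 : t ^ 2 = 1 - (y / 2) ^ 2 := by
    rw [ht, Real.sq_sqrt]
    nlinarith [hy.1, hy.2]
  have hI : Complex.I ^ 2 = -1 := Complex.I_sq
  have ht2' : (t : ℂ) ^ 2 = 1 - ((y : ℂ) / 2) ^ 2 := by exact_mod_cast ht2
  have h2 : 1 - α * y + α ^ 2 = (1 - α * ((y / 2 : ℝ) + (t : ℝ) * Complex.I)) *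
      (1 - α * ((y / 2 : ℝ) + ((-t : ℝ) : ℂ) * Complex.I)) := by
    push_cast
    linear_combination (-α ^ 2) * ht2' + α ^ 2 * (t : ℂ) ^ 2 * hI
  have hn : ∀ t' : ℝ, t' ^ 2 = 1 - (y / 2) ^ 2 →
      ‖(((y / 2 : ℝ) : ℂ) + (t' : ℝ) * Complex.I)‖ = 1 := by
    intro t' ht'
    rw [Complex.norm_add_mul_I, ht']
    norm_num
  have hf : ∀ t' : ℝ, t' ^ 2 = 1 - (y / 2) ^ 2 →
      1 - α * (((y / 2 : ℝ) : ℂ) + (t' : ℝ) * Complex.I) ≠ 0 := by
    intro t' ht' h0
    have h3 : ‖α * (((y / 2 : ℝ) : ℂ) + (t' : ℝ) * Complex.I)‖ = 1 := by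
      rw [← sub_eq_zero.mp h0, norm_one]
    rw [norm_mul, hn t' ht', mul_one] at h3
    exact hα1.ne h3
  rw [h2]
  exact mul_ne_zero (hf t ht2) (hf (-t) (by rw [neg_sq]; exact ht2))

theorem es_el {p : ℕ} {y : ℝ} (hy : |y| ≤ 2) {U : Set (ℂ × ℂ × ℂ)} {a : ℂ × ℂ × ℂ → ℂ}
    (ha : DifferentiableOn ℂ a U) (hb : ∀ u ∈ U, ‖a u‖ < Real.sqrt p) :
    DifferentiableOn ℂ (fun u => el p (a u) y) U := by
  unfold el
  refine DifferentiableOn.inv ?_ (fun u hu => es_ne (hb u hu) hy)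
  simp only [div_eq_mul_inv]
  exact (((differentiableOn_const _).sub ((ha.mul_const _).mul_const _))).add
    ((ha.pow 2).mul_const _)

theorem es_cpow {p : ℕ} (hp : p.Prime) {a : ℂ} (ha : -(3 / 10) ≤ a.re) :
    ‖(p : ℂ) ^ (-a)‖ < Real.sqrt p := by
  have hp1 : (1 : ℝ) < p := by exact_mod_cast hp.one_lt
  rw [Complex.norm_natCast_cpow_of_pos hp.pos, Complex.neg_re, Real.sqrt_eq_rpow]
  exact Real.rpow_lt_rpow_of_exponent_lt hp1 (by linarith)

variable {q : ℕ} [NeZero q]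

omit [NeZero q] in
theorem es_chi (χ : DirichletCharacter ℂ q) {p : ℕ} (hp : p.Prime) {a : ℂ}
    (ha : -(3 / 10) ≤ a.re) : ‖χ p * (p : ℂ) ^ (-a)‖ < Real.sqrt p := by
  rw [norm_mul]
  calc ‖χ p‖ * ‖(p : ℂ) ^ (-a)‖ ≤ 1 * ‖(p : ℂ) ^ (-a)‖ :=
        mul_le_mul_of_nonneg_right (DirichletCharacter.norm_le_one χ _) (norm_nonneg _)
    _ < Real.sqrt p := by rw [one_mul]; exact es_cpow hp ha

omit [NeZero q] in
theorem es_prod {ι : Type*} {S : Finset ι} {f : ι → ℂ × ℂ × ℂ → ℂ} {U : Set (ℂ × ℂ × ℂ)}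
    (h : ∀ i ∈ S, DifferentiableOn ℂ (f i) U) : DifferentiableOn ℂ (fun u => ∏ i ∈ S, f i u) U := by
  classical
  induction S using Finset.induction_on with
  | empty => simp
  | insert i S hi ih =>
    simp only [Finset.prod_insert hi]
    exact (h i (Finset.mem_insert_self _ _)).mul
      (ih fun j hj => h j (Finset.mem_insert_of_mem hj))

theorem es_el_meas (p : ℕ) (a : ℂ) : Measurable (el p a) := by
  unfold el
  refine Measurable.inv ?_
  fun_prop

theorem es_mx_meas (K : ℕ) (B : ℕ → ℝ) : Measurable (fun x : ℕ → ℝ => MX K B x) := by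
  unfold MX
  refine Finset.measurable_sum _ fun e _ => ?_
  refine Measurable.const_mul ?_ _
  unfold Um
  refine Finset.measurable_prod _ fun p _ => ?_
  exact (MEX_cont _).measurable.comp (measurable_pi_apply p)

theorem es_mx_bdd {I : Finset ℕ} {P : Measure (ℕ → ℝ)} (hP : IsST I P) {K : ℕ}
    (hKI : ∀ p : ℕ, p.Prime → p ≤ K → p ∈ I) (B : ℕ → ℝ) :
    ∃ C : ℝ, 0 ≤ C ∧ ∀ᵐ x ∂P, ‖(MX K B x : ℂ)‖ ≤ C := by
  refine ⟨∑ e ∈ Finset.Icc 1 K, |B e / Real.sqrt e| *
    ∏ p ∈ e.primeFactors, ((e.factorization p : ℝ) + 1), ?_, ?_⟩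
  · exact Finset.sum_nonneg fun e _ => mul_nonneg (abs_nonneg _)
      (Finset.prod_nonneg fun p _ => by positivity)
  · filter_upwards [hP.bdd] with x hx
    rw [Complex.norm_real, Real.norm_eq_abs]
    unfold MX
    refine (Finset.abs_sum_le_sum_abs _ _).trans (Finset.sum_le_sum fun e he => ?_)
    rw [abs_mul]
    refine mul_le_mul_of_nonneg_left ?_ (abs_nonneg _)
    unfold Um
    rw [Finset.abs_prod]
    refine Finset.prod_le_prod (fun _ _ => abs_nonneg _) fun p hp => ?_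
    have hpI : p ∈ I := by
      refine hKI p (Nat.prime_of_mem_primeFactors hp) ?_
      exact (Nat.le_of_dvd (Finset.mem_Icc.mp he).1 (Nat.dvd_of_mem_primeFactors hp)).trans
        (Finset.mem_Icc.mp he).2
    exact MEX_le (hx p hpI) _

/-- the general statement -/
theorem es_gen {I : Finset ℕ} {P : Measure (ℕ → ℝ)} (hP : IsST I P) {K : ℕ}
    (hKI : ∀ p : ℕ, p.Prime → p ≤ K → p ∈ I) (B : ℕ → ℝ) {U : Set (ℂ × ℂ × ℂ)} (hU : IsOpen U)
    {w : ℂ × ℂ × ℂ → ℕ → ℝ → ℂ} (hm : ∀ u, ∀ p ∈ I, Measurable (w u p))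
    (hb : ∀ u ∈ U, ∀ p ∈ I, ∀ y : ℝ, |y| ≤ 2 → ‖w u p y‖ ≤ 10 ^ 6)
    (hn : ∀ u ∈ U, ∀ p ∈ I, 1 / 50 ≤ ‖∫ x, w u p (x p) ∂P‖)
    (hd : ∀ p ∈ I, ∀ y : ℝ, |y| ≤ 2 → DifferentiableOn ℂ (fun u => w u p y) U) :
    DifferentiableOn ℂ (fun u => EW P I (w u) (MX K B)) U := by
  have := hP.prob
  obtain ⟨CM, hCM0, hCM⟩ := es_mx_bdd hP hKI B
  unfold EW
  simp only [div_eq_mul_inv]
  refine DifferentiableOn.mul ?_ (DifferentiableOn.inv ?_ ?_)
  · refine es_param (C := CM * (10 ^ 6) ^ I.card) hU (fun u => ?_) ?_ ?_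
    · refine Measurable.aestronglyMeasurable ?_
      refine (Complex.measurable_ofReal.comp (es_mx_meas K B)).mul ?_
      refine Finset.measurable_prod _ fun p hp => ?_
      exact (hm u p hp).comp (measurable_pi_apply p)
    · filter_upwards [hCM, hP.bdd] with x hx1 hx2 u hu
      rw [norm_mul, norm_prod]
      refine mul_le_mul hx1 ?_ (Finset.prod_nonneg fun _ _ => norm_nonneg _) hCM0
      rw [← Finset.prod_const]
      exact Finset.prod_le_prod (fun _ _ => norm_nonneg _) fun p hp =>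
        hb u hu p hp _ (hx2 p hp)
    · filter_upwards [hP.bdd] with x hx2
      refine DifferentiableOn.const_mul ?_ _
      exact es_prod fun p hp => hd p hp _ (hx2 p hp)
  · refine es_prod fun p hp => ?_
    refine es_param (C := 10 ^ 6) hU (fun u => ?_) ?_ ?_
    · exact ((hm u p hp).comp (measurable_pi_apply p)).aestronglyMeasurable
    · filter_upwards [hP.bdd] with x hx2 u hu
      exact hb u hu p hp _ (hx2 p hp)
    · filter_upwards [hP.bdd] with x hx2
      exact hd p hp _ (hx2 p hp)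
  · intro u hu
    refine Finset.prod_ne_zero_iff.mpr fun p hp h0 => ?_
    have := hn u hu p hp
    rw [h0, norm_zero] at this
    norm_num at this

/-- block ES: the expectation is holomorphic in the parameters -/
theorem ew_diff_pr (χ : DirichletCharacter ℂ q) {I : Finset ℕ} {P : Measure (ℕ → ℝ)}
    (hI : ∀ p ∈ I, p.Prime) (hP : IsST I P) {K : ℕ} (hKI : ∀ p : ℕ, p.Prime → p ≤ K → p ∈ I)
    {B : ℕ → ℝ} (hB : SuppIn K B) :
    DifferentiableOn ℂ (fun u : ℂ × ℂ × ℂ => EW P I (w2 χ u.1 u.2.1 u.2.2) (MX K B))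
      {u | ‖u.1‖ < 1 / 7 ∧ ‖u.2.1‖ < 1 / 7 ∧ -(3 / 10) < u.2.2.re} ∧
    DifferentiableOn ℂ (fun z : ℂ => EW P I (w1 χ z) (MX K B)) {z | -(3 / 10) < z.re} := by
  have hcpow : ∀ p ∈ I, ∀ f : ℂ × ℂ × ℂ → ℂ, Differentiable ℂ f →
      Differentiable ℂ (fun u => (p : ℂ) ^ (-(f u))) := by
    intro p hp f hf
    have hp0 : (p : ℂ) ≠ 0 := by exact_mod_cast (hI p hp).ne_zero
    intro u
    exact (hf u).neg.const_cpow (Or.inl hp0)
  have d1 : Differentiable ℂ (fun u : ℂ × ℂ × ℂ => u.1) := differentiable_fst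
  have d2 : Differentiable ℂ (fun u : ℂ × ℂ × ℂ => u.2.1) := differentiable_fst.comp differentiable_snd
  have d3 : Differentiable ℂ (fun u : ℂ × ℂ × ℂ => u.2.2) := differentiable_snd.comp differentiable_snd
  constructor
  · refine es_gen hP hKI B ?_ (w := fun u => w2 χ u.1 u.2.1 u.2.2) ?_ ?_ ?_ ?_
    · have c1 : Continuous (fun u : ℂ × ℂ × ℂ => ‖u.1‖) := continuous_fst.norm
      have c2 : Continuous (fun u : ℂ × ℂ × ℂ => ‖u.2.1‖) :=
        (continuous_fst.comp continuous_snd).norm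
      have c3 : Continuous (fun u : ℂ × ℂ × ℂ => u.2.2.re) :=
        Complex.continuous_re.comp (continuous_snd.comp continuous_snd)
      exact (isOpen_lt c1 continuous_const).inter
        ((isOpen_lt c2 continuous_const).inter (isOpen_lt continuous_const c3))
    · intro u p _
      show Measurable (fun y => w2 χ u.1 u.2.1 u.2.2 p y)
      unfold w2 wQ
      exact (((es_el_meas p _).pow_const 2).mul (es_el_meas p _)).mul (es_el_meas p _)
    · rintro u ⟨h1, h2, h3⟩ p hp y hy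
      exact (w2_facts_pr χ (hI p hp) h1.le h2.le h3.le).2.1 y hy
    · rintro u ⟨h1, h2, h3⟩ p hp
      exact (w2_facts_pr χ (hI p hp) h1.le h2.le h3.le).2.2 I P hP hp
    · intro p hp y hy
      have hr : ∀ a : ℂ, ‖a‖ < 1 / 7 → -(3 / 10) ≤ a.re := by
        intro a ha
        have := (abs_le.mp (Complex.abs_re_le_norm a)).1
        linarith
      show DifferentiableOn ℂ (fun u : ℂ × ℂ × ℂ => el p ((p : ℂ) ^ (-u.1)) y ^ 2 *
        el p (χ p * (p : ℂ) ^ (-u.2.1)) y * el p (χ p * (p : ℂ) ^ (-u.2.2)) y) _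
      refine (((es_el hy (hcpow p hp _ d1).differentiableOn ?_).pow 2).mul
        (es_el hy ((hcpow p hp _ d2).const_mul (χ p)).differentiableOn ?_)).mul
        (es_el hy ((hcpow p hp _ d3).const_mul (χ p)).differentiableOn ?_)
      · rintro u ⟨h1, h2, h3⟩
        exact es_cpow (hI p hp) (hr _ h1)
      · rintro u ⟨h1, h2, h3⟩
        exact es_chi χ (hI p hp) (hr _ h2)
      · rintro u ⟨h1, h2, h3⟩
        exact es_chi χ (hI p hp) h3.le
  · have h1 : DifferentiableOn ℂ (fun u : ℂ × ℂ × ℂ => EW P I (w1 χ u.2.2) (MX K B))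
        {u | -(3 / 10) < u.2.2.re} := by
      refine es_gen hP hKI B ?_ (w := fun u => w1 χ u.2.2) ?_ ?_ ?_ ?_
      · have c3 : Continuous (fun u : ℂ × ℂ × ℂ => u.2.2.re) :=
          Complex.continuous_re.comp (continuous_snd.comp continuous_snd)
        exact isOpen_lt continuous_const c3
      · intro u p _
        show Measurable (fun y => w1 χ u.2.2 p y)
        unfold w1
        exact (es_el_meas p _).mul (es_el_meas p _)
      · intro u h3 p hp y hy
        exact (w1_facts_pr χ (hI p hp) (le_of_lt h3)).2.1 y hy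
      · intro u h3 p hp
        exact (w1_facts_pr χ (hI p hp) (le_of_lt h3)).2.2 I P hP hp
      · intro p hp y hy
        show DifferentiableOn ℂ (fun u : ℂ × ℂ × ℂ => el p 1 y *
          el p (χ p * (p : ℂ) ^ (-u.2.2)) y) _
        refine (differentiableOn_const _).mul
          (es_el hy ((hcpow p hp _ d3).const_mul (χ p)).differentiableOn ?_)
        intro u h3
        exact es_chi χ (hI p hp) (le_of_lt h3)
    have h2 : DifferentiableOn ℂ (fun z : ℂ => ((0 : ℂ), (0 : ℂ), z)) {z | -(3 / 10) < z.re} :=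
      ((differentiable_const _).prodMk ((differentiable_const _).prodMk
        differentiable_id)).differentiableOn
    have h3 : (fun z : ℂ => EW P I (w1 χ z) (MX K B)) =
        (fun u : ℂ × ℂ × ℂ => EW P I (w1 χ u.2.2) (MX K B)) ∘
          (fun z : ℂ => ((0 : ℂ), (0 : ℂ), z)) := rfl
    rw [h3]
    have h4 : Set.MapsTo (fun z : ℂ => ((0 : ℂ), (0 : ℂ), z)) {z : ℂ | -(3 / 10) < z.re}
        {u : ℂ × ℂ × ℂ | -(3 / 10) < u.2.2.re} := fun z hz => hz
    exact DifferentiableOn.comp h1 h2 h4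

end Pool.Agent.LE
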