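import Pool.Agent.Lib_helper53.LE.Defs

/-! LSP3, part E, block EB: elementary properties of the product of Hecke vectors. -/

set_option autoImplicit false

namespace Pool.Agent.LE

open Complex MeasureTheory ProbabilityTheory
open Pool.Agent.LSP (tau MX CC CB sg1 wX)
open Pool.Agent.KSL (WW)
open Pool.Agent.LEV (Uu Um)
open Pool.Agent.LVB (IsST el)
open Pool.Agent.LK (Qe V PQ MW)

theorem hp_supp_pr {E₁ E₂ E : ℕ} {x y : ℕ → ℝ} (hx : SuppIn E₁ x) (hy : SuppIn E₂ y) :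
    SuppIn (E₁ * E₂) (HP E x y) := by
  intro n hn
  unfold HP at hn
  obtain ⟨j, hj, hne⟩ := Finset.exists_ne_zero_of_sum_ne_zero hn
  have hne2 := right_ne_zero_of_mul hne
  obtain ⟨p, hp, hne3⟩ := Finset.exists_ne_zero_of_sum_ne_zero hne2
  have hj1 := (Finset.mem_Icc.1 hj).1
  have h1 := hx _ (left_ne_zero_of_mul hne3)
  have h2 := hy _ (right_ne_zero_of_mul hne3)
  rw [Nat.mem_divisorsAntidiagonal] at hp
  refine ⟨Nat.one_le_iff_ne_zero.2 hp.2, ?_⟩
  rw [← hp.1]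
  exact Nat.mul_le_mul ((Nat.le_mul_of_pos_left _ hj1).trans h1.2)
    ((Nat.le_mul_of_pos_left _ hj1).trans h2.2)

theorem eb_ext {E₁ E : ℕ} {x y : ℕ → ℝ} (hx : SuppIn E₁ x) (hE : E₁ ≤ E) (n : ℕ) :
    HP E x y n = HP E₁ x y n := by
  unfold HP
  symm
  refine Finset.sum_subset (Finset.Icc_subset_Icc_right hE) fun j hj hj2 => ?_
  have hj1 := (Finset.mem_Icc.1 hj).1
  have hj3 : E₁ < j := by
    by_contra h
    exact hj2 (Finset.mem_Icc.2 ⟨hj1, by omega⟩)
  rw [Finset.sum_eq_zero, mul_zero]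
  intro p hp
  have hx0 : x (j * p.1) = 0 := by
    by_contra h
    have h1 := hx _ h
    have h2 : p.1 ≠ 0 := by
      intro h0
      rw [h0, mul_zero] at h1
      omega
    have h3 : j ≤ j * p.1 := Nat.le_mul_of_pos_right _ (Nat.pos_of_ne_zero h2)
    omega
  rw [hx0, zero_mul]

theorem hp_indep_pr {E₁ E E' : ℕ} {x y : ℕ → ℝ} (hx : SuppIn E₁ x) (hE : E₁ ≤ E) (hE' : E₁ ≤ E') :
    HP E x y = HP E' x y := by
  funext n
  rw [eb_ext hx hE, eb_ext hx hE']

theorem hp_comm_pr (E : ℕ) (x y : ℕ → ℝ) : HP E x y = HP E y x := by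
  funext n
  unfold HP
  refine Finset.sum_congr rfl fun j _ => ?_
  congr 1
  refine Finset.sum_nbij' Prod.swap Prod.swap ?_ ?_ ?_ ?_ ?_
  · intro p hp; exact Nat.swap_mem_divisorsAntidiagonal.2 hp
  · intro p hp; exact Nat.swap_mem_divisorsAntidiagonal.2 hp
  · intro p _; exact Prod.swap_swap p
  · intro p _; exact Prod.swap_swap p
  · intro p _; exact mul_comm _ _

theorem cb_hp_pr (E : ℕ) (x y : ℕ → ℝ) (n : ℕ) : CB E x y n = HP E x y n / n := by
  unfold CB HP
  rw [Finset.sum_div]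
  refine Finset.sum_congr rfl fun j _ => ?_
  rw [mul_div_assoc, Finset.sum_div]

theorem hp_add_pr (E : ℕ) (a b : ℝ) (x y z : ℕ → ℝ) :
    HP E (fun e => a * x e + b * y e) z = fun n => a * HP E x z n + b * HP E y z n := by
  funext n
  unfold HP
  rw [Finset.mul_sum, Finset.mul_sum, ← Finset.sum_add_distrib]
  refine Finset.sum_congr rfl fun j _ => ?_
  rw [Finset.mul_sum, Finset.mul_sum, Finset.mul_sum, Finset.mul_sum, Finset.mul_sum,
    ← Finset.sum_add_distrib]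
  exact Finset.sum_congr rfl fun p _ => by ring

theorem hp_abs_pr {E₁ E₂ E : ℕ} {x y : ℕ → ℝ} {a b : ℝ} (hx : SuppIn E₁ x) (hy : SuppIn E₂ y)
    (ha : ∀ e, |x e| ≤ a) (hb : ∀ e, |y e| ≤ b) (n : ℕ) : |HP E x y n| ≤ a * b * E₂ ^ 2 := by
  classical
  have ha0 : 0 ≤ a := (abs_nonneg _).trans (ha 0)
  have hb0 : 0 ≤ b := (abs_nonneg _).trans (hb 0)
  set S : Finset (ℕ × (ℕ × ℕ)) := (Finset.Icc 1 E ×ˢ n.divisorsAntidiagonal).filter
    (fun t => y (t.1 * t.2.2) ≠ 0) with hS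
  have h1 : |HP E x y n| ≤ ∑ t ∈ Finset.Icc 1 E ×ˢ n.divisorsAntidiagonal,
      |(1 / (t.1 : ℝ)) * (x (t.1 * t.2.1) * y (t.1 * t.2.2))| := by
    unfold HP
    rw [Finset.sum_product]
    refine (Finset.abs_sum_le_sum_abs _ _).trans (Finset.sum_le_sum fun j _ => ?_)
    rw [Finset.mul_sum]
    exact Finset.abs_sum_le_sum_abs _ _
  have h2 : ∑ t ∈ Finset.Icc 1 E ×ˢ n.divisorsAntidiagonal,
      |(1 / (t.1 : ℝ)) * (x (t.1 * t.2.1) * y (t.1 * t.2.2))| ≤ ∑ t ∈ S, a * b := by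
    rw [hS, Finset.sum_filter]
    refine Finset.sum_le_sum fun t ht => ?_
    have ht1 := (Finset.mem_Icc.1 (Finset.mem_product.1 ht).1).1
    split_ifs with h
    · rw [abs_mul, abs_mul]
      have h3 : |1 / (t.1 : ℝ)| ≤ 1 := by
        rw [abs_of_nonneg (by positivity)]
        exact div_le_one_of_le₀ (by exact_mod_cast ht1) (by positivity)
      calc |1 / (t.1 : ℝ)| * (|x (t.1 * t.2.1)| * |y (t.1 * t.2.2)|)
          ≤ 1 * (a * b) := mul_le_mul h3 (mul_le_mul (ha _) (hb _) (abs_nonneg _) ha0)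
            (by positivity) (by norm_num)
        _ = a * b := one_mul _
    · push Not at h
      rw [h]; simp
  have h3 : S.card ≤ E₂ ^ 2 := by
    have h4 : S.card ≤ (Finset.Icc 1 E₂ ×ˢ Finset.Icc 1 E₂).card := by
      refine Finset.card_le_card_of_injOn (fun t => (t.1, t.2.2)) ?_ ?_
      · intro t ht
        rw [Finset.mem_coe, hS, Finset.mem_filter, Finset.mem_product, Finset.mem_Icc] at ht
        have h5 := hy _ ht.2
        have h6 : t.2.2 ≠ 0 := by
          intro h0; rw [h0, mul_zero] at h5; omega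
        have h7 : t.1 ≤ t.1 * t.2.2 := Nat.le_mul_of_pos_right _ (Nat.pos_of_ne_zero h6)
        have h8 : t.2.2 ≤ t.1 * t.2.2 := Nat.le_mul_of_pos_left _ ht.1.1.1
        rw [Finset.mem_coe, Finset.mem_product, Finset.mem_Icc, Finset.mem_Icc]
        exact ⟨⟨ht.1.1.1, h7.trans h5.2⟩, ⟨Nat.one_le_iff_ne_zero.2 h6, h8.trans h5.2⟩⟩
      · intro t ht s hs hts
        rw [Finset.mem_coe, hS, Finset.mem_filter, Finset.mem_product,
          Nat.mem_divisorsAntidiagonal] at ht hs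
        simp only [Prod.mk.injEq] at hts
        have h5 : t.2.1 * t.2.2 = s.2.1 * s.2.2 := ht.1.2.1.trans hs.1.2.1.symm
        have h6 : t.2.2 ≠ 0 := by
          intro h0
          have := ht.1.2.1
          rw [h0, mul_zero] at this
          exact ht.1.2.2 this.symm
        rw [← hts.2] at h5
        have h7 := Nat.eq_of_mul_eq_mul_right (Nat.pos_of_ne_zero h6) h5
        exact Prod.ext hts.1 (Prod.ext h7 hts.2)
    rw [Finset.card_product, Nat.card_Icc] at h4
    rw [sq]; simpa using h4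
  refine h1.trans (h2.trans ?_)
  rw [Finset.sum_const, nsmul_eq_mul, mul_comm]
  refine mul_le_mul_of_nonneg_left ?_ (by positivity)
  exact_mod_cast h3

end Pool.Agent.LE
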