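import Pool.Agent.Lib_helper53.LE.Defs
import Pool.Agent.Lib_helper31.LK.HB

/-! LSP3, block EC (from helper31's `hb_prod`). -/

set_option autoImplicit false

namespace Pool.Agent.LE

open Complex MeasureTheory ProbabilityTheory
open Pool.Agent.LSP (tau MX CC CB sg1 wX)

/-- block EC -/
theorem mx_hp_pr {E₁ E₂ E E' : ℕ} {x y : ℕ → ℝ} (hx : SuppIn E₁ x) (hy : SuppIn E₂ y)
    (hE : E₁ ≤ E) (hE' : E₁ * E₂ ≤ E') (la : ℕ → ℝ) :
    MX E' (HP E x y) la = MX E₁ x la * MX E₂ y la :=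
  (LK.hb_prod hE' hE hx hy la).symm

end Pool.Agent.LE
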