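import Pool.Agent.Lib_helper53.LE.Defs
import Pool.Agent.Lib_helper41.LVBF.STE
import Pool.Agent.Lib_helper41.LVBF.STO
import Pool.Agent.Lib_helper53.LEF.EB
import Pool.Agent.Lib_helper53.LEF.EC

/-! LSP3, part E, block ED: linear independence, associativity. -/

set_option autoImplicit false

namespace Pool.Agent.LE

open Complex MeasureTheory ProbabilityTheory
open Pool.Agent.LSP (tau MX CC CB sg1 wX)
open Pool.Agent.KSL (WW)
open Pool.Agent.LEV (Uu Um)
open Pool.Agent.LVB (IsST el)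
open Pool.Agent.LK (Qe V PQ MW)

theorem ed_zero {x : ℕ → ℝ} (hx : SuppIn 0 x) (n : ℕ) : x n = 0 := by
  by_contra h
  have := hx n h
  omega

/-- block ED: linear independence (Sato-Tate model) -/
theorem mx_inj_pr {E : ℕ} {x y : ℕ → ℝ} (hx : SuppIn E x) (hy : SuppIn E y)
    (h : ∀ la, MX E x la = MX E y la) : x = y := by
  classical
  set I : Finset ℕ := (Finset.Icc 1 E).filter Nat.Prime with hI
  have hIp : ∀ p ∈ I, p.Prime := fun p hp => (Finset.mem_filter.mp hp).2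
  obtain ⟨P, hP⟩ := Pool.Agent.LVB.st_exists_pr I hIp
  set c : ℕ → ℝ := fun m => (x m - y m) / Real.sqrt m with hc
  have hsup : ∀ m, c m ≠ 0 → 1 ≤ m ∧ m ≤ E ∧ m.primeFactors ⊆ I := by
    intro m hm
    have h1 : x m - y m ≠ 0 := by
      intro h0
      exact hm (by simp only [hc, h0, zero_div])
    have h2 : 1 ≤ m ∧ m ≤ E := by
      by_cases hxm : x m = 0
      · have hym : y m ≠ 0 := by
          intro h0
          exact h1 (by rw [hxm, h0, sub_zero])
        exact hy m hym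
      · exact hx m hxm
    refine ⟨h2.1, h2.2, ?_⟩
    intro p hp
    rw [hI, Finset.mem_filter, Finset.mem_Icc]
    have hpp := Nat.prime_of_mem_primeFactors hp
    have hle : p ≤ m := Nat.le_of_dvd h2.1 (Nat.dvd_of_mem_primeFactors hp)
    exact ⟨⟨hpp.one_lt.le, hle.trans h2.2⟩, hpp⟩
  have hsq := Pool.Agent.LVB.st_sq_pr (X := E) hIp hP hsup
  have hz : ∀ la : ℕ → ℝ, ∑ m ∈ Finset.Icc 1 E, c m * Um m la = 0 := by
    intro la
    have h1 : ∑ m ∈ Finset.Icc 1 E, c m * Um m la = MX E x la - MX E y la := by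
      unfold MX
      rw [← Finset.sum_sub_distrib]
      refine Finset.sum_congr rfl fun m _ => ?_
      simp only [hc]
      ring
    rw [h1, h la, sub_self]
  simp_rw [hz] at hsq
  rw [show (fun _ : ℕ → ℝ => (0 : ℝ) ^ 2) = fun _ => 0 by
    funext
    norm_num, integral_zero] at hsq
  have hc0 : ∀ m ∈ Finset.Icc 1 E, c m = 0 := by
    intro m hm
    have := (Finset.sum_eq_zero_iff_of_nonneg (fun m _ => sq_nonneg (c m))).mp hsq.symm m hm
    exact pow_eq_zero_iff (two_ne_zero) |>.mp this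
  funext m
  by_contra hne
  have hcm : c m ≠ 0 := by
    have h1 : x m - y m ≠ 0 := sub_ne_zero.mpr hne
    have hm1 : 1 ≤ m := by
      by_cases hxm : x m = 0
      · have hym : y m ≠ 0 := by
          intro h0
          exact hne (by rw [hxm, h0])
        exact (hy m hym).1
      · exact (hx m hxm).1
    have h2 : Real.sqrt m ≠ 0 := by
      rw [Real.sqrt_ne_zero']
      exact_mod_cast hm1
    exact div_ne_zero h1 h2
  have := hsup m hcm
  exact hcm (hc0 m (Finset.mem_Icc.mpr ⟨this.1, this.2.1⟩))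

/-- block ED (uses mx_hp_pr, mx_inj, hp_supp_pr) -/
theorem hp_assoc_pr {E₁ E₂ E₃ E : ℕ} {x y z : ℕ → ℝ} (hx : SuppIn E₁ x) (hy : SuppIn E₂ y)
    (hz : SuppIn E₃ z) (hE : E₁ * E₂ * E₃ ≤ E) :
    HP E (HP E x y) z = HP E x (HP E y z) := by
  have hl : SuppIn (E₁ * E₂ * E₃) (HP E (HP E x y) z) := hp_supp_pr (hp_supp_pr hx hy) hz
  have hr : SuppIn (E₁ * E₂ * E₃) (HP E x (HP E y z)) := by
    rw [mul_assoc]
    exact hp_supp_pr hx (hp_supp_pr hy hz)
  rcases Nat.eq_zero_or_pos (E₁ * E₂ * E₃) with h0 | h0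
  · rw [h0] at hl hr
    funext n
    rw [ed_zero hl, ed_zero hr]
  · have h3 : 0 < E₃ := Nat.pos_of_mul_pos_left h0
    have h12 : 0 < E₁ * E₂ := Nat.pos_of_mul_pos_right h0
    have h2 : 0 < E₂ := Nat.pos_of_mul_pos_left h12
    have h1 : 0 < E₁ := Nat.pos_of_mul_pos_right h12
    have hE12 : E₁ * E₂ ≤ E := (Nat.le_mul_of_pos_right _ h3).trans hE
    have hE1 : E₁ ≤ E := (Nat.le_mul_of_pos_right _ h2).trans hE12
    have hE2 : E₂ ≤ E := (Nat.le_mul_of_pos_left _ h1).trans hE12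
    refine mx_inj_pr hl hr fun la => ?_
    rw [mx_hp_pr (hp_supp_pr hx hy) hz hE12 le_rfl, mx_hp_pr hx hy hE1 le_rfl,
      mx_hp_pr hx (hp_supp_pr hy hz) hE1 (by rw [mul_assoc]), mx_hp_pr hy hz hE2 le_rfl, mul_assoc]

theorem ed_four {E₁ K E : ℕ} {x y b : ℕ → ℝ} (hx : SuppIn E₁ x) (hy : SuppIn E₁ y)
    (hb : SuppIn K b) (hE : (E₁ * K) ^ 2 ≤ E) :
    HP E (HP E x b) (HP E y b) = HP E x (HP E y (HP E b b)) := by
  rw [hp_assoc_pr hx hb (hp_supp_pr (E := E) hy hb) (by rw [← sq]; exact hE), hp_comm_pr E b (HP E y b),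
    hp_assoc_pr hy hb hb ?_]
  refine le_trans ?_ hE
  rcases Nat.eq_zero_or_pos E₁ with h0 | h0
  · simp [h0]
  · calc E₁ * K * K = E₁ * K * (1 * K) := by rw [one_mul]
      _ ≤ E₁ * K * (E₁ * K) := Nat.mul_le_mul_left _ (Nat.mul_le_mul_right _ h0)
      _ = (E₁ * K) ^ 2 := (sq _).symm

/-- block ED (uses hp_assoc, hp_comm_pr, hp_add_pr) -/
theorem hp_sq_pr {E₁ K E : ℕ} {x y b : ℕ → ℝ} (hx : SuppIn E₁ x) (hy : SuppIn E₁ y)
    (hb : SuppIn K b) (hE : (E₁ * K) ^ 2 ≤ E) (a c : ℝ) (n : ℕ) :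
    HP E (fun e => a * HP E x b e + c * HP E y b e) (fun e => a * HP E x b e + c * HP E y b e) n =
      a ^ 2 * HP E x (HP E x (HP E b b)) n + 2 * a * c * HP E x (HP E y (HP E b b)) n +
        c ^ 2 * HP E y (HP E y (HP E b b)) n := by
  have h1 : ∀ z : ℕ → ℝ, HP E (fun e => a * HP E x b e + c * HP E y b e) z =
      fun n => a * HP E (HP E x b) z n + c * HP E (HP E y b) z n := fun z => hp_add_pr E a c _ _ z
  have h2 : ∀ z : ℕ → ℝ, HP E z (fun e => a * HP E x b e + c * HP E y b e) =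
      fun n => a * HP E (HP E x b) z n + c * HP E (HP E y b) z n := fun z => by
    rw [hp_comm_pr, h1]
  rw [h1, h2, h2]
  simp only
  rw [ed_four hx hx hb hE, ed_four hy hy hb hE, hp_comm_pr E (HP E y b) (HP E x b),
    ed_four hx hy hb hE]
  ring

end Pool.Agent.LE
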