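import Pool.Agent.Lib_helper53.LE.Defs

/-! LSP3, part E, block EF: a functional on a product. -/

set_option autoImplicit false

namespace Pool.Agent.LE

open Complex MeasureTheory ProbabilityTheory
open Pool.Agent.LSP (tau MX CC CB sg1 wX)
open Pool.Agent.KSL (WW)
open Pool.Agent.LEV (Uu Um)
open Pool.Agent.LVB (IsST el)
open Pool.Agent.LK (Qe V PQ MW)

theorem ef_one {M d : ℕ} (hd : 1 ≤ d) (g : ℕ → ℂ) (hg : ∀ e, M < e → g e = 0) :
    ∑ e ∈ Finset.Icc 1 M, (if d ∣ e then g e else 0) = ∑ a ∈ Finset.Icc 1 M, g (d * a) := by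
  have h2 : ∑ a ∈ Finset.Icc 1 M, g (d * a) =
      ∑ a ∈ (Finset.Icc 1 M).filter (fun a => d * a ≤ M), g (d * a) := by
    symm
    refine Finset.sum_subset (Finset.filter_subset _ _) fun a ha hna => ?_
    apply hg
    by_contra hcon
    exact hna (Finset.mem_filter.2 ⟨ha, not_lt.1 hcon⟩)
  rw [h2, ← Finset.sum_filter]
  refine Finset.sum_nbij' (fun e => e / d) (fun a => d * a) ?_ ?_ ?_ ?_ ?_
  · intro e he
    rw [Finset.mem_filter, Finset.mem_Icc] at he
    obtain ⟨⟨h1, h3⟩, k, rfl⟩ := he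
    have hk : d * k / d = k := Nat.mul_div_cancel_left k (by omega)
    rw [Finset.mem_filter, Finset.mem_Icc, hk]
    refine ⟨⟨?_, ?_⟩, h3⟩
    · rcases Nat.eq_zero_or_pos k with h | h
      · subst h; omega
      · exact h
    · exact (Nat.le_mul_of_pos_left k (by omega)).trans h3
  · intro a ha
    rw [Finset.mem_filter, Finset.mem_Icc] at ha
    rw [Finset.mem_filter, Finset.mem_Icc]
    exact ⟨⟨Nat.mul_pos (by omega) (by omega), ha.2⟩, Dvd.intro a rfl⟩
  · intro e he
    rw [Finset.mem_filter] at he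
    exact Nat.mul_div_cancel' he.2
  · intro a _
    exact Nat.mul_div_cancel_left a (by omega)
  · intro e he
    rw [Finset.mem_filter] at he
    rw [Nat.mul_div_cancel' he.2]

theorem ef_two {A B E' : ℕ} (F : ℕ → ℕ → ℂ) (hF : ∀ a b, F a b ≠ 0 → a ≤ A ∧ b ≤ B)
    (hE' : A * B ≤ E') :
    ∑ n ∈ Finset.Icc 1 E', ∑ p ∈ n.divisorsAntidiagonal, F p.1 p.2 =
      ∑ a ∈ Finset.Icc 1 A, ∑ b ∈ Finset.Icc 1 B, F a b := by
  rw [← Finset.sum_product',
    ← Finset.sum_fiberwise_of_maps_to (s := Finset.Icc 1 A ×ˢ Finset.Icc 1 B)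
      (t := Finset.Icc 1 E') (g := fun p => p.1 * p.2)]
  · refine Finset.sum_congr rfl fun n hn => ?_
    rw [Finset.mem_Icc] at hn
    symm
    refine Finset.sum_subset ?_ ?_
    · intro p hp
      rw [Finset.mem_filter] at hp
      rw [Nat.mem_divisorsAntidiagonal]
      exact ⟨hp.2, by omega⟩
    · intro p hp hnp
      by_contra hcon
      obtain ⟨h1, h2⟩ := hF _ _ hcon
      rw [Nat.mem_divisorsAntidiagonal] at hp
      apply hnp
      rw [Finset.mem_filter, Finset.mem_product, Finset.mem_Icc, Finset.mem_Icc]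
      have h3 : p.1 ≠ 0 := by
        intro h
        rw [h, zero_mul] at hp
        exact hp.2 hp.1.symm
      have h4 : p.2 ≠ 0 := by
        intro h
        rw [h, mul_zero] at hp
        exact hp.2 hp.1.symm
      exact ⟨⟨⟨by omega, h1⟩, by omega, h2⟩, hp.1⟩
  · intro p hp
    rw [Finset.mem_product, Finset.mem_Icc, Finset.mem_Icc] at hp
    rw [Finset.mem_Icc]
    exact ⟨Nat.mul_pos (by omega) (by omega), (Nat.mul_le_mul hp.1.2 hp.2.2).trans hE'⟩

/-- block EF -/
theorem lin_twist_pr {E₁ K E E' : ℕ} {x B : ℕ → ℝ} (hx : SuppIn E₁ x) (hB : SuppIn K B)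
    (hE : E₁ ≤ E) (hE' : E₁ * K ≤ E') (q : ℕ → ℂ) :
    ∑ e ∈ Finset.Icc 1 E', (HP E x B e : ℂ) * q e =
      ∑ k ∈ Finset.Icc 1 K, (B k : ℂ) * ∑ e ∈ Finset.Icc 1 E₁, (x e : ℂ) * TK q k e := by
  -- the common value
  have hL : ∑ e ∈ Finset.Icc 1 E', (HP E x B e : ℂ) * q e =
      ∑ j ∈ Finset.Icc 1 E, (1 / (j : ℂ)) * ∑ a ∈ Finset.Icc 1 E₁, ∑ b ∈ Finset.Icc 1 K,
        (x (j * a) : ℂ) * (B (j * b) : ℂ) * q (a * b) := by
    have h1 : ∀ e ∈ Finset.Icc 1 E', (HP E x B e : ℂ) * q e = ∑ j ∈ Finset.Icc 1 E,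
        (1 / (j : ℂ)) * ∑ p ∈ e.divisorsAntidiagonal,
          (x (j * p.1) : ℂ) * (B (j * p.2) : ℂ) * q (p.1 * p.2) := by
      intro e _
      unfold HP
      push_cast
      rw [Finset.sum_mul]
      refine Finset.sum_congr rfl fun j _ => ?_
      rw [mul_assoc, Finset.sum_mul]
      congr 1
      refine Finset.sum_congr rfl fun p hp => ?_
      rw [(Nat.mem_divisorsAntidiagonal.1 hp).1]
    rw [Finset.sum_congr rfl h1, Finset.sum_comm]
    refine Finset.sum_congr rfl fun j hj => ?_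
    rw [Finset.mem_Icc] at hj
    rw [← Finset.mul_sum]
    congr 1
    refine ef_two (fun a b => (x (j * a) : ℂ) * (B (j * b) : ℂ) * q (a * b)) ?_ hE'
    intro a b hab
    have h2 : x (j * a) ≠ 0 := by
      intro h
      apply hab
      simp [h]
    have h3 : B (j * b) ≠ 0 := by
      intro h
      apply hab
      simp [h]
    exact ⟨(Nat.le_mul_of_pos_left a (by omega)).trans (hx _ h2).2,
      (Nat.le_mul_of_pos_left b (by omega)).trans (hB _ h3).2⟩
  have hR : ∑ k ∈ Finset.Icc 1 K, (B k : ℂ) * ∑ e ∈ Finset.Icc 1 E₁, (x e : ℂ) * TK q k e =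
      ∑ j ∈ Finset.Icc 1 E, (1 / (j : ℂ)) * ∑ a ∈ Finset.Icc 1 E₁, ∑ b ∈ Finset.Icc 1 K,
        (x (j * a) : ℂ) * (B (j * b) : ℂ) * q (a * b) := by
    have h1 : ∀ k ∈ Finset.Icc 1 K, ∀ e ∈ Finset.Icc 1 E₁, TK q k e =
        ∑ j ∈ Finset.Icc 1 E, (1 / (j : ℂ)) *
          (if j ∣ e then (if j ∣ k then q (e / j * (k / j)) else 0) else 0) := by
      intro k hk e he
      rw [Finset.mem_Icc] at hk he
      unfold TK
      have hsub : (Nat.gcd e k).divisors ⊆ Finset.Icc 1 E := by
        intro d hd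
        rw [Nat.mem_divisors] at hd
        rw [Finset.mem_Icc]
        have h4 : d ∣ e := hd.1.trans (Nat.gcd_dvd_left e k)
        exact ⟨Nat.pos_of_dvd_of_pos h4 (by omega), (Nat.le_of_dvd (by omega) h4).trans
          (he.2.trans hE)⟩
      rw [← Finset.sum_subset hsub]
      · refine Finset.sum_congr rfl fun d hd => ?_
        rw [Nat.mem_divisors] at hd
        have h4 : d ∣ e := hd.1.trans (Nat.gcd_dvd_left e k)
        have h5 : d ∣ k := hd.1.trans (Nat.gcd_dvd_right e k)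
        rw [if_pos h4, if_pos h5, sq, Nat.mul_div_mul_comm h4 h5]
      · intro d _ hd
        rw [Nat.mem_divisors] at hd
        have h6 : Nat.gcd e k ≠ 0 := by
          intro h
          rw [Nat.gcd_eq_zero_iff] at h
          omega
        by_cases h4 : d ∣ e
        · by_cases h5 : d ∣ k
          · exact absurd ⟨Nat.dvd_gcd h4 h5, h6⟩ hd
          · rw [if_pos h4, if_neg h5, mul_zero]
        · rw [if_neg h4, mul_zero]
    have h2 : ∀ k ∈ Finset.Icc 1 K, (B k : ℂ) * ∑ e ∈ Finset.Icc 1 E₁, (x e : ℂ) * TK q k e =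
        ∑ j ∈ Finset.Icc 1 E, (1 / (j : ℂ)) * ∑ e ∈ Finset.Icc 1 E₁,
          (if j ∣ e then (x e : ℂ) * (if j ∣ k then (B k : ℂ) * q (e / j * (k / j)) else 0)
            else 0) := by
      intro k hk
      have h3 : ∀ e ∈ Finset.Icc 1 E₁, (x e : ℂ) * TK q k e = ∑ j ∈ Finset.Icc 1 E, (x e : ℂ) *
        ((1 / (j : ℂ)) *
          (if j ∣ e then (if j ∣ k then q (e / j * (k / j)) else 0) else 0)) := by
        intro e he
        rw [h1 k hk e he, Finset.mul_sum]
      rw [Finset.sum_congr rfl h3, Finset.sum_comm, Finset.mul_sum]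
      refine Finset.sum_congr rfl fun j _ => ?_
      rw [Finset.mul_sum, Finset.mul_sum]
      refine Finset.sum_congr rfl fun e _ => ?_
      split_ifs <;> ring
    rw [Finset.sum_congr rfl h2, Finset.sum_comm]
    refine Finset.sum_congr rfl fun j hj => ?_
    rw [Finset.mem_Icc] at hj
    rw [← Finset.mul_sum]
    congr 1
    have hj0 : 0 < j := by omega
    have h4 : ∀ k ∈ Finset.Icc 1 K, ∑ e ∈ Finset.Icc 1 E₁,
          (if j ∣ e then (x e : ℂ) * (if j ∣ k then (B k : ℂ) * q (e / j * (k / j)) else 0)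
            else 0) = (if j ∣ k then (B k : ℂ) * ∑ a ∈ Finset.Icc 1 E₁,
              (x (j * a) : ℂ) * q (a * (k / j)) else 0) := by
      intro k _
      rw [ef_one hj.1 (fun e => (x e : ℂ) * (if j ∣ k then (B k : ℂ) * q (e / j * (k / j))
        else 0))]
      · by_cases h5 : j ∣ k
        · simp only [if_pos h5, Nat.mul_div_cancel_left _ hj0]
          rw [Finset.mul_sum]
          refine Finset.sum_congr rfl fun a _ => ?_
          ring
        · simp only [if_neg h5, mul_zero, Finset.sum_const_zero]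
      · intro e he
        have h5 : x e = 0 := by
          by_contra hcon
          have := (hx e hcon).2
          omega
        simp [h5]
    rw [Finset.sum_congr rfl h4, ef_one hj.1 (fun k => (B k : ℂ) * ∑ a ∈ Finset.Icc 1 E₁,
              (x (j * a) : ℂ) * q (a * (k / j)))]
    · rw [Finset.sum_comm]
      refine Finset.sum_congr rfl fun b _ => ?_
      rw [Nat.mul_div_cancel_left _ hj0, Finset.mul_sum]
      refine Finset.sum_congr rfl fun a _ => ?_
      ring
    · intro k hk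
      have h5 : B k = 0 := by
        by_contra hcon
        have := (hB k hcon).2
        omega
      simp [h5]
  rw [hL, hR]

end Pool.Agent.LE
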