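import Pool.Agent.Lib_helper53.LE.Defs
import Pool.Agent.Lib_helper41.LVBF.ELM
import Pool.Agent.Lib_helper53.LEF.EH
import Pool.Agent.Lib_helper53.LEF.EI

/-! LSP3, part E, block EJ: local representation of `Qe`. -/

set_option autoImplicit false

namespace Pool.Agent.LE

open Complex MeasureTheory ProbabilityTheory
open Pool.Agent.LSP (tau MX CC CB sg1 wX)
open Pool.Agent.KSL (WW)
open Pool.Agent.LEV (Uu Um)
open Pool.Agent.LVB (IsST el)
open Pool.Agent.LK (Qe V PQ MW)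

/-! ### power series -/

lemma ej_coef {c : ℕ → ℂ} (h : ∀ X : ℂ, ‖X‖ < 1 → HasSum (fun n => c n * X ^ n) 0) :
    ∀ n, c n = 0 := by
  intro n
  induction n using Nat.strong_induction_on with
  | _ n ih =>
    have h1 : ∀ X : ℂ, ‖X‖ < 1 → X ≠ 0 → HasSum (fun k => c (k + n) * X ^ k) 0 := by
      intro X hX hX0
      have h2 := (hasSum_nat_add_iff' n).2 (h X hX)
      have h3 : ∑ i ∈ Finset.range n, c i * X ^ i = 0 :=
        Finset.sum_eq_zero fun i hi => by rw [ih i (Finset.mem_range.1 hi), zero_mul]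
      rw [h3, sub_zero] at h2
      have h4 := h2.div_const (X ^ n)
      rw [zero_div] at h4
      refine h4.congr_fun ?_ |> fun h => h
      intro k
      rw [pow_add]
      have : X ^ n ≠ 0 := pow_ne_zero _ hX0
      field_simp
    have hhalf : ‖(1 / 2 : ℂ)‖ < 1 := by norm_num
    have hS : Summable (fun k => ‖c (k + n) * (1 / 2 : ℂ) ^ k‖) :=
      (h1 (1 / 2) hhalf (by norm_num)).summable.norm
    have hS1 := (summable_nat_add_iff 1).2 hS
    set M : ℝ := ∑' k : ℕ, ‖c (k + 1 + n) * (1 / 2 : ℂ) ^ (k + 1)‖ with hM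
    have hb : ∀ X : ℂ, ‖X‖ ≤ 1 / 2 → X ≠ 0 → ‖c n‖ ≤ ‖X‖ * (2 * M) := by
      intro X hX hX0
      have hX1 : ‖X‖ < 1 := by linarith
      have h2 := h1 X hX1 hX0
      have h3 := h2.summable.tsum_eq_zero_add
      rw [h2.tsum_eq, pow_zero, mul_one, zero_add] at h3
      have h4 : c n = -∑' k : ℕ, c (k + 1 + n) * X ^ (k + 1) := by
        linear_combination -h3
      rw [h4, norm_neg]
      have h5 : HasSum (fun k : ℕ => ‖X‖ * (2 * ‖c (k + 1 + n) * (1 / 2 : ℂ) ^ (k + 1)‖))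
          (‖X‖ * (2 * M)) := (hS1.hasSum.mul_left 2).mul_left ‖X‖
      refine tsum_of_norm_bounded h5 fun k => ?_
      rw [norm_mul, norm_mul, norm_pow, norm_pow]
      have h6 : ‖(1 / 2 : ℂ)‖ = 1 / 2 := by norm_num
      rw [h6, pow_succ, pow_succ]
      have h7 : ‖X‖ ^ k ≤ (1 / 2) ^ k := pow_le_pow_left₀ (norm_nonneg _) hX k
      have h8 : 0 ≤ ‖c (k + 1 + n)‖ * ‖X‖ := by positivity
      have h9 := mul_le_mul_of_nonneg_left h7 h8
      linarith
    by_contra hne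
    have hc0 : 0 < ‖c n‖ := norm_pos_iff.2 hne
    have hM0 : 0 ≤ M := tsum_nonneg fun _ => norm_nonneg _
    set δ : ℝ := min (1 / 2) (‖c n‖ / (2 * (2 * M + 1))) with hδ
    have hδ0 : 0 < δ := by
      rw [hδ]
      positivity
    have h2 := hb (δ : ℂ) (by
      rw [Complex.norm_real, Real.norm_of_nonneg hδ0.le]
      exact min_le_left _ _) (by exact_mod_cast hδ0.ne')
    rw [Complex.norm_real, Real.norm_of_nonneg hδ0.le] at h2
    have h3 : δ * (2 * M) ≤ ‖c n‖ / (2 * (2 * M + 1)) * (2 * M) :=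
      mul_le_mul_of_nonneg_right (min_le_right _ _) (by positivity)
    have h4 : ‖c n‖ / (2 * (2 * M + 1)) * (2 * M) ≤ ‖c n‖ / 2 := by
      rw [div_mul_eq_mul_div, div_le_div_iff₀ (by positivity) (by norm_num)]
      nlinarith
    linarith

/-! ### the values at prime powers -/

lemma ej_cpow (p : ℕ) (z : ℂ) (i : ℕ) : (((p ^ i : ℕ) : ℂ)) ^ z = ((p : ℂ) ^ z) ^ i := by
  induction i with
  | zero => simp
  | succ i ih =>
    rw [pow_succ, Nat.cast_mul, Complex.natCast_mul_natCast_cpow, ih, pow_succ]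

variable {q : ℕ} [NeZero q]

lemma ej_chi (χ : DirichletCharacter ℂ q) (p i : ℕ) : χ ((p ^ i : ℕ) : ZMod q) = χ (p : ZMod q) ^ i := by
  rw [Nat.cast_pow, map_pow]

lemma ej_tau {p : ℕ} (hp : p.Prime) (b : ℕ) : tau (p ^ b) = b + 1 := by
  unfold tau
  rw [Nat.divisors_prime_pow hp, Finset.card_map, Finset.card_range]
  push_cast
  ring

lemma ej_inner (χ : DirichletCharacter ℂ q) {p : ℕ} (hp : p.Prime) (z : ℂ) (b : ℕ) :
    ∑ h ∈ (p ^ b).divisors, (ArithmeticFunction.moebius h : ℂ) * χ h * (h : ℂ) ^ z *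
      (tau (p ^ b / h) : ℂ) = (b + 1) - χ p * (p : ℂ) ^ z * b := by
  rw [Nat.sum_divisors_prime_pow hp]
  have h0 : (ArithmeticFunction.moebius (p ^ 0) : ℂ) * χ ((p ^ 0 : ℕ) : ZMod q) *
      ((p ^ 0 : ℕ) : ℂ) ^ z * (tau (p ^ b / p ^ 0) : ℂ) = b + 1 := by
    rw [pow_zero, Nat.div_one, ej_tau hp]
    simp
  rcases b with _ | b
  · rw [zero_add, Finset.sum_range_one, h0]
    simp
  · rw [Finset.sum_range_succ', Finset.sum_range_succ', h0]
    have h1 : (ArithmeticFunction.moebius (p ^ (0 + 1)) : ℂ) * χ ((p ^ (0 + 1) : ℕ) : ZMod q) *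
        ((p ^ (0 + 1) : ℕ) : ℂ) ^ z * (tau (p ^ (b + 1) / p ^ (0 + 1)) : ℂ) =
        -(χ p * (p : ℂ) ^ z * (b + 1)) := by
      have e : p ^ (b + 1) / p ^ (0 + 1) = p ^ b := by
        rw [zero_add, pow_one, pow_succ, Nat.mul_div_cancel _ hp.pos]
      rw [e, ej_tau hp, zero_add, pow_one, ArithmeticFunction.moebius_apply_prime hp]
      push_cast
      ring
    have h2 : ∑ k ∈ Finset.range b, (ArithmeticFunction.moebius (p ^ (k + 1 + 1)) : ℂ) *
        χ ((p ^ (k + 1 + 1) : ℕ) : ZMod q) * ((p ^ (k + 1 + 1) : ℕ) : ℂ) ^ z *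
          (tau (p ^ (b + 1) / p ^ (k + 1 + 1)) : ℂ) = 0 := by
      refine Finset.sum_eq_zero fun k _ => ?_
      rw [ArithmeticFunction.moebius_apply_prime_pow hp (by omega), if_neg (by omega)]
      simp
    rw [h1, h2]
    push_cast
    ring

lemma ej_qe (χ : DirichletCharacter ℂ q) {p : ℕ} (hp : p.Prime) (r s : ℂ) (n : ℕ) :
    Qe χ (p ^ n) s r = ∑ i ∈ Finset.range (n + 1), (χ p * (p : ℂ) ^ (-1 - s)) ^ i *
      (((p : ℂ) ^ (-1 - r)) ^ (n - i) * (((n - i : ℕ) : ℂ) + 1 -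
        χ p * (p : ℂ) ^ (-1 - s - r) * ((n - i : ℕ) : ℂ))) := by
  unfold Qe
  rw [Nat.sum_divisorsAntidiagonal (fun a b => χ a * (a : ℂ) ^ (-1 - s) * (b : ℂ) ^ (-1 - r) *
    ∑ h ∈ b.divisors, (ArithmeticFunction.moebius h : ℂ) * χ h * (h : ℂ) ^ (-1 - s - r) *
      (tau (b / h) : ℂ)), Nat.sum_divisors_prime_pow hp]
  refine Finset.sum_congr rfl fun i hi => ?_
  have hin : i ≤ n := Nat.lt_succ_iff.1 (Finset.mem_range.1 hi)
  have e : p ^ n / p ^ i = p ^ (n - i) := Nat.pow_div hin hp.pos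
  rw [e, ej_inner χ hp, ej_chi, ej_cpow, ej_cpow, mul_pow]
  ring

lemma ej_gen {u v w : ℂ} (hu : ‖u‖ < 1) (hv : ‖v‖ < 1) :
    HasSum (fun n : ℕ => ∑ i ∈ Finset.range (n + 1), u ^ i *
      (v ^ (n - i) * (((n - i : ℕ) : ℂ) + 1 - w * ((n - i : ℕ) : ℂ))))
      ((1 - w * v) / ((1 - u) * (1 - v) ^ 2)) := by
  have h1 := hasSum_geometric_of_norm_lt_one hu
  have h2 := hasSum_geometric_of_norm_lt_one hv
  have h3 := hasSum_coe_mul_geometric_of_norm_lt_one hv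
  have h4 : HasSum (fun b : ℕ => v ^ b * ((b : ℂ) + 1 - w * b))
      ((1 - w) * (v / (1 - v) ^ 2) + (1 - v)⁻¹) := by
    have := (h3.mul_left (1 - w)).add h2
    refine this.congr_fun ?_ |> fun h => h
    intro b
    ring
  have s1 : Summable (fun i : ℕ => ‖u ^ i‖) := h1.summable.norm
  have s4 : Summable (fun b : ℕ => ‖v ^ b * ((b : ℂ) + 1 - w * b)‖) := h4.summable.norm
  have h5 := hasSum_sum_range_mul_of_summable_norm s1 s4
  rw [h1.tsum_eq, h4.tsum_eq] at h5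
  have e : (1 - u)⁻¹ * ((1 - w) * (v / (1 - v) ^ 2) + (1 - v)⁻¹) =
      (1 - w * v) / ((1 - u) * (1 - v) ^ 2) := by
    have f1 : 1 - u ≠ 0 := by
      intro h
      rw [sub_eq_zero] at h
      rw [← h, norm_one] at hu
      exact lt_irrefl _ hu
    have f2 : 1 - v ≠ 0 := by
      intro h
      rw [sub_eq_zero] at h
      rw [← h, norm_one] at hv
      exact lt_irrefl _ hv
    field_simp
    ring
  rw [e] at h5
  exact h5

/-! ### the integral -/

lemma ej_norm {p : ℕ} (hpp : p.Prime) {t : ℝ} (ht : t ≤ 1 / 8) : (p : ℝ) ^ t < Real.sqrt p := by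
  have hp1 : (1 : ℝ) < p := by exact_mod_cast hpp.one_lt
  rw [Real.sqrt_eq_rpow]
  exact Real.rpow_lt_rpow_of_exponent_lt hp1 (by linarith)

lemma ej_re {r : ℂ} (hr : ‖r‖ ≤ 1 / 8) : |r.re| ≤ 1 / 8 := (Complex.abs_re_le_norm r).trans hr

lemma ej_a {p : ℕ} (hpp : p.Prime) {r : ℂ} (hr : ‖r‖ ≤ 1 / 8) :
    ‖(p : ℂ) ^ (-r)‖ < Real.sqrt p := by
  rw [Complex.norm_natCast_cpow_of_pos hpp.pos, Complex.neg_re]
  exact ej_norm hpp (by linarith [(abs_le.1 (ej_re hr)).1])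

lemma ej_c (χ : DirichletCharacter ℂ q) {p : ℕ} (hpp : p.Prime) {s : ℂ} (hs : ‖s‖ ≤ 1 / 8) :
    ‖χ p * (p : ℂ) ^ (-s)‖ < Real.sqrt p := by
  rw [norm_mul]
  have h1 : ‖χ (p : ZMod q)‖ ≤ 1 := DirichletCharacter.norm_le_one χ _
  have h2 := ej_a hpp hs
  have h3 : 0 ≤ ‖(p : ℂ) ^ (-s)‖ := norm_nonneg _
  calc ‖χ (p : ZMod q)‖ * ‖(p : ℂ) ^ (-s)‖ ≤ 1 * ‖(p : ℂ) ^ (-s)‖ :=
        mul_le_mul_of_nonneg_right h1 h3
    _ < Real.sqrt p := by rw [one_mul]; exact h2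

lemma ej_int (χ : DirichletCharacter ℂ q) {I : Finset ℕ} {P : Measure (ℕ → ℝ)}
    (hP : IsST I P) {p : ℕ} (hp : p ∈ I) (hpp : p.Prime) {r s : ℂ} (hr : ‖r‖ ≤ 1 / 8)
    (hs : ‖s‖ ≤ 1 / 8) {X : ℂ} (hX : ‖X‖ < 1) :
    HasSum (fun n : ℕ => (1 / (Real.sqrt p : ℂ)) ^ n * (∫ x, (Uu (x p) n : ℂ) *
      wQ χ r s p (x p) ∂P) * X ^ n) (∫ x, el p ((p : ℂ) ^ (-r)) (x p) *
        el p ((p : ℂ) ^ (-r)) (x p) * (el p (χ p * (p : ℂ) ^ (-s)) (x p) * el p X (x p)) ∂P) := by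
  have := hP.prob
  have hp1 : (1 : ℝ) < p := by exact_mod_cast hpp.one_lt
  have hsq : (1 : ℝ) < Real.sqrt p := by
    rw [Real.lt_sqrt (by norm_num)]
    linarith
  have hsq0 : 0 < Real.sqrt p := by linarith
  have ha := ej_a hpp hr
  have hc := ej_c χ hpp hs
  have hXp : ‖X‖ < Real.sqrt p := by linarith
  set a : ℂ := (p : ℂ) ^ (-r) with hadef
  set c : ℂ := χ p * (p : ℂ) ^ (-s) with hcdef
  set W : ℝ := (1 / (1 - ‖a‖ / Real.sqrt p) ^ 2) ^ 2 * (1 / (1 - ‖c‖ / Real.sqrt p) ^ 2) with hW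
  have hWb : ∀ x : ℝ, |x| ≤ 2 → ‖wQ χ r s p x‖ ≤ W := by
    intro x hx
    unfold wQ
    rw [norm_mul, norm_pow]
    exact mul_le_mul (pow_le_pow_left₀ (norm_nonneg _) (el_ser_pr hpp ha hx).2 2)
      (el_ser_pr hpp hc hx).2 (norm_nonneg _) (by positivity)
  have hm : Measurable (fun x : ℝ => wQ χ r s p x) := by
    unfold wQ
    exact ((Pool.Agent.LVB.el_meas p _).pow_const 2).mul (Pool.Agent.LVB.el_meas p _)
  set ρ : ℝ := ‖X‖ / Real.sqrt p with hρ
  have hρ0 : 0 ≤ ρ := by positivity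
  have hρ1 : ρ < 1 := (div_lt_one hsq0).2 hXp
  have hsum := Pool.Agent.LVB.ELM_summ hρ0 hρ1 W
  have h1 : HasSum (fun n : ℕ => ∫ x, (X / (Real.sqrt p : ℂ)) ^ n * (Uu (x p) n : ℂ) *
      wQ χ r s p (x p) ∂P) (∫ x, el p X (x p) * wQ χ r s p (x p) ∂P) := by
    refine hasSum_integral_of_dominated_convergence
      (fun n _ => ρ ^ n * (((n : ℝ) + 1) * W)) (fun n => ?_) (fun n => ?_) ?_ ?_ ?_
    · exact ((measurable_const.mul (Pool.Agent.LVB.ELM_meas p n)).mul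
        (hm.comp (measurable_pi_apply p))).aestronglyMeasurable
    · filter_upwards [hP.bdd] with x hx
      have hx2 := hx p hp
      rw [norm_mul, norm_mul, norm_pow, norm_div, Complex.norm_real, Complex.norm_real,
        Real.norm_of_nonneg hsq0.le, Real.norm_eq_abs, mul_assoc]
      exact mul_le_mul_of_nonneg_left (mul_le_mul (Pool.Agent.LVB.uu_le hx2 n) (hWb _ hx2)
        (norm_nonneg _) (by positivity)) (by positivity)
    · exact Filter.Eventually.of_forall fun _ => hsum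
    · exact integrable_const _
    · filter_upwards [hP.bdd] with x hx
      exact (el_ser_pr hpp hXp (hx p hp)).1.mul_right _
  have e1 : ∫ x, el p X (x p) * wQ χ r s p (x p) ∂P = ∫ x, el p a (x p) * el p a (x p) *
      (el p c (x p) * el p X (x p)) ∂P := by
    refine integral_congr_ae (Filter.Eventually.of_forall fun x => ?_)
    show el p X (x p) * wQ χ r s p (x p) = _
    unfold wQ
    ring
  rw [e1] at h1
  refine h1.congr_fun ?_ |> fun h => h
  intro n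
  have e2 : (fun x : ℕ → ℝ => (X / (Real.sqrt p : ℂ)) ^ n * (Uu (x p) n : ℂ) *
      wQ χ r s p (x p)) = fun x => (X / (Real.sqrt p : ℂ)) ^ n * ((Uu (x p) n : ℂ) *
      wQ χ r s p (x p)) := by
    funext x
    ring
  rw [e2, integral_const_mul, div_pow, div_pow, one_pow]
  ring

/-- block EJ (uses el_four_pr, el_ser_pr) -/
theorem qe_local_pr (χ : DirichletCharacter ℂ q) {I : Finset ℕ} {P : Measure (ℕ → ℝ)}
    (hP : IsST I P) {p : ℕ} (hp : p ∈ I) (hpp : p.Prime) {r s : ℂ} (hr : ‖r‖ ≤ 1 / 8)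
    (hs : ‖s‖ ≤ 1 / 8) (n : ℕ) :
    Qe χ (p ^ n) s r = (1 - χ p * (p : ℂ) ^ (-1 - r - s)) ^ 2 * (1 - (p : ℂ) ^ (-1 - 2 * r)) *
      (1 / (Real.sqrt p : ℂ)) ^ n * ∫ x, (Uu (x p) n : ℂ) * wQ χ r s p (x p) ∂P := by
  have hp1 : (1 : ℝ) < p := by exact_mod_cast hpp.one_lt
  have hsq : (1 : ℝ) < Real.sqrt p := by
    rw [Real.lt_sqrt (by norm_num)]
    linarith
  have hpc : (p : ℂ) ≠ 0 := by exact_mod_cast hpp.ne_zero
  have ha := ej_a hpp hr
  have hc := ej_c χ hpp hs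
  set a : ℂ := (p : ℂ) ^ (-r) with hadef
  set c : ℂ := χ p * (p : ℂ) ^ (-s) with hcdef
  -- the parameters
  have hv : (p : ℂ) ^ (-1 - r) = a / p := by
    rw [hadef, sub_eq_add_neg, Complex.cpow_add _ _ hpc, Complex.cpow_neg_one]
    ring
  have hu : χ p * (p : ℂ) ^ (-1 - s) = c / p := by
    rw [hcdef, sub_eq_add_neg, Complex.cpow_add _ _ hpc, Complex.cpow_neg_one]
    ring
  have hw : χ p * (p : ℂ) ^ (-1 - s - r) = a * c / p := by
    have e : (-1 - s - r : ℂ) = -1 + (-s) + (-r) := by ring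
    rw [hadef, hcdef, e, Complex.cpow_add _ _ hpc, Complex.cpow_add _ _ hpc, Complex.cpow_neg_one]
    ring
  have hw' : χ p * (p : ℂ) ^ (-1 - r - s) = a * c / p := by
    rw [← hw]
    congr 2
    ring
  have h2r : (p : ℂ) ^ (-1 - 2 * r) = a * a / p := by
    have e : (-1 - 2 * r : ℂ) = -1 + (-r) + (-r) := by ring
    rw [hadef, e, Complex.cpow_add _ _ hpc, Complex.cpow_add _ _ hpc, Complex.cpow_neg_one]
    ring
  have hnp : ‖(p : ℂ)‖ = Real.sqrt p * Real.sqrt p := by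
    rw [Real.mul_self_sqrt (by linarith), Complex.norm_natCast]
  have hdiv : ∀ {x y : ℂ}, ‖x‖ < Real.sqrt p → ‖y‖ < Real.sqrt p → ‖x * y / p‖ < 1 := by
    intro x y hx hy
    rw [norm_div, norm_mul, hnp, div_lt_one (by positivity)]
    exact mul_lt_mul'' hx hy (norm_nonneg _) (norm_nonneg _)
  have hne : ∀ {z : ℂ}, ‖z‖ < 1 → 1 - z ≠ 0 := by
    intro z hz h
    rw [sub_eq_zero] at h
    rw [← h, norm_one] at hz
    exact lt_irrefl _ hz
  have h1p : ‖(1 : ℂ)‖ < Real.sqrt p := by rw [norm_one]; exact hsq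
  -- the difference
  suffices h : ∀ n, (Qe χ (p ^ n) s r - (1 - χ p * (p : ℂ) ^ (-1 - r - s)) ^ 2 *
      (1 - (p : ℂ) ^ (-1 - 2 * r)) * (1 / (Real.sqrt p : ℂ)) ^ n *
        ∫ x, (Uu (x p) n : ℂ) * wQ χ r s p (x p) ∂P) = 0 from sub_eq_zero.1 (h n)
  refine ej_coef fun X hX => ?_
  have hXp : ‖X‖ < Real.sqrt p := by linarith
  have g1 : ‖c / p * X‖ < 1 := by
    have : c / p * X = c * X / p := by ring
    rw [this]
    exact hdiv hc hXp
  have g2 : ‖a / p * X‖ < 1 := by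
    have : a / p * X = a * X / p := by ring
    rw [this]
    exact hdiv ha hXp
  have s1 := ej_gen (w := a * c / p) g1 g2
  have s2 := (ej_int χ hP hp hpp hr hs hX).mul_left ((1 - a * c / p) ^ 2 * (1 - a * a / p))
  rw [el_four_pr hP hp hpp ha ha hc hXp] at s2
  have hval : (1 - a * c / p) ^ 2 * (1 - a * a / p) * ((1 - a * a * c * X / (p : ℂ) ^ 2) /
      ((1 - a * a / p) * (1 - a * c / p) * (1 - a * X / p) *
        (1 - a * c / p) * (1 - a * X / p) * (1 - c * X / p))) =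
      (1 - a * c / p * (a / p * X)) / ((1 - c / p * X) * (1 - a / p * X) ^ 2) := by
    have n1 := hne (hdiv ha ha)
    have n2 := hne (hdiv ha hc)
    have n3 := hne (hdiv ha hXp)
    have n4 := hne (hdiv hc hXp)
    have e1 : a / p * X = a * X / p := by ring
    have e2 : c / p * X = c * X / p := by ring
    have e3 : a * a * c * X / (p : ℂ) ^ 2 = a * c / p * (a * X / p) := by
      field_simp
    rw [e1, e2, e3]
    rw [mul_div_assoc', div_eq_div_iff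
      (mul_ne_zero (mul_ne_zero (mul_ne_zero (mul_ne_zero (mul_ne_zero n1 n2) n3) n2) n3) n4)
      (mul_ne_zero n4 (pow_ne_zero 2 n3))]
    ring
  rw [hval] at s2
  have s3 := s1.sub s2
  rw [sub_self] at s3
  refine s3.congr_fun ?_ |> fun h => h
  intro k
  rw [ej_qe χ hpp, hv, hu, hw, hw', h2r, sub_mul, Finset.sum_mul]
  congr 1
  · refine Finset.sum_congr rfl fun i hi => ?_
    have hik : i ≤ k := Nat.lt_succ_iff.1 (Finset.mem_range.1 hi)
    rw [mul_pow, mul_pow]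
    have : X ^ k = X ^ i * X ^ (k - i) := by rw [← pow_add, Nat.add_sub_cancel' hik]
    rw [this]
    ring
  · ring

end Pool.Agent.LE
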