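import Pool.Agent.Lib_helper53.LE.Defs
import Pool.Agent.Lib_helper15.LSPF.TAU

/-! LSP3, part E, block EK: `Qe` is multiplicative and bounded. -/

set_option autoImplicit false

namespace Pool.Agent.LE

open Complex MeasureTheory ProbabilityTheory
open Pool.Agent.LSP (tau MX CC CB sg1 wX)
open Pool.Agent.KSL (WW)
open Pool.Agent.LEV (Uu Um)
open Pool.Agent.LVB (IsST el)
open Pool.Agent.LK (Qe V PQ MW)

variable {q : ℕ}

/-- an arithmetic function with a given restriction to the positive integers -/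
noncomputable def ek_cm (ψ : ℕ → ℂ) : ArithmeticFunction ℂ :=
  ⟨fun n => if n = 0 then 0 else ψ n, by simp⟩

theorem ek_cm_apply (ψ : ℕ → ℂ) {n : ℕ} (hn : n ≠ 0) : ek_cm ψ n = ψ n := by
  unfold ek_cm
  simp [hn]

theorem ek_cm_mult {ψ : ℕ → ℂ} (h1 : ψ 1 = 1) (h2 : ∀ m n : ℕ, ψ (m * n) = ψ m * ψ n) :
    (ek_cm ψ).IsMultiplicative := by
  rw [ArithmeticFunction.IsMultiplicative.iff_ne_zero]
  refine ⟨by rw [ek_cm_apply _ one_ne_zero, h1], fun {m n} hm hn _ => ?_⟩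
  rw [ek_cm_apply _ hm, ek_cm_apply _ hn, ek_cm_apply _ (mul_ne_zero hm hn), h2]

/-- the Dirichlet convolution -/
noncomputable def ek_F (χ : DirichletCharacter ℂ q) (s r : ℂ) : ArithmeticFunction ℂ :=
  ek_cm (fun n => χ n * (n : ℂ) ^ (-1 - s)) *
    ArithmeticFunction.pmul (ek_cm (fun n => (n : ℂ) ^ (-1 - r)))
      (ArithmeticFunction.pmul ((ArithmeticFunction.moebius : ArithmeticFunction ℤ) :
          ArithmeticFunction ℂ) (ek_cm (fun n => χ n * (n : ℂ) ^ (-1 - s - r))) *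
        ((ArithmeticFunction.sigma 0 : ArithmeticFunction ℕ) : ArithmeticFunction ℂ))

theorem ek_F_mult (χ : DirichletCharacter ℂ q) (s r : ℂ) : (ek_F χ s r).IsMultiplicative := by
  have hp : ∀ z : ℂ, ∀ m n : ℕ, ((m * n : ℕ) : ℂ) ^ z = (m : ℂ) ^ z * (n : ℂ) ^ z := by
    intro z m n
    rw [Nat.cast_mul, Complex.natCast_mul_natCast_cpow]
  have h1 : ∀ z : ℂ, (ek_cm (fun n => χ n * (n : ℂ) ^ z)).IsMultiplicative := by
    intro z
    refine ek_cm_mult (by simp) (fun m n => ?_)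
    rw [hp, Nat.cast_mul, map_mul]
    ring
  have h2 : ∀ z : ℂ, (ek_cm (fun n => (n : ℂ) ^ z)).IsMultiplicative := by
    intro z
    exact ek_cm_mult (by simp) (fun m n => hp z m n)
  unfold ek_F
  refine (h1 _).mul ((h2 _).pmul (((ArithmeticFunction.isMultiplicative_moebius.intCast).pmul
    (h1 _)).mul (ArithmeticFunction.isMultiplicative_sigma.natCast)))

theorem ek_eq (χ : DirichletCharacter ℂ q) (s r : ℂ) (e : ℕ) : Qe χ e s r = ek_F χ s r e := by
  unfold Qe ek_F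
  rw [ArithmeticFunction.mul_apply]
  refine Finset.sum_congr rfl fun p hp => ?_
  rw [Nat.mem_divisorsAntidiagonal] at hp
  have hp1 : p.1 ≠ 0 := by
    intro h
    rw [h, zero_mul] at hp
    exact hp.2 hp.1.symm
  have hp2 : p.2 ≠ 0 := by
    intro h
    rw [h, mul_zero] at hp
    exact hp.2 hp.1.symm
  rw [ek_cm_apply _ hp1, ArithmeticFunction.pmul_apply, ek_cm_apply _ hp2,
    ArithmeticFunction.mul_apply, mul_assoc]
  congr 2
  rw [Nat.sum_divisorsAntidiagonal (fun i j => (ArithmeticFunction.pmul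
    ((ArithmeticFunction.moebius : ArithmeticFunction ℤ) : ArithmeticFunction ℂ)
    (ek_cm (fun n => χ n * (n : ℂ) ^ (-1 - s - r)))) i *
    ((ArithmeticFunction.sigma 0 : ArithmeticFunction ℕ) : ArithmeticFunction ℂ) j)]
  refine Finset.sum_congr rfl fun h hh => ?_
  have hh0 : h ≠ 0 := (Nat.pos_of_mem_divisors hh).ne'
  rw [ArithmeticFunction.pmul_apply, ek_cm_apply _ hh0, ArithmeticFunction.intCoe_apply,
    ArithmeticFunction.natCoe_apply, ArithmeticFunction.sigma_zero_apply]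
  unfold tau
  push_cast
  ring

theorem qe_mult_pr [NeZero q] (χ : DirichletCharacter ℂ q) (r s : ℂ) :
    Qe χ 1 s r = 1 ∧ ∀ m n : ℕ, m.Coprime n → Qe χ (m * n) s r = Qe χ m s r * Qe χ n s r := by
  refine ⟨?_, fun m n h => ?_⟩
  · rw [ek_eq, (ek_F_mult χ s r).map_one]
  · rw [ek_eq, ek_eq, ek_eq, (ek_F_mult χ s r).map_mul_of_coprime h]

theorem ek_tau_le {k h : ℕ} (hk : k ≠ 0) (hh : h ∣ k) : tau h ≤ tau k := by
  unfold tau
  exact_mod_cast Finset.card_le_card (Nat.divisors_subset_of_dvd hk hh)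

theorem ek_pow {h : ℕ} (hh : 0 < h) {z : ℂ} {c : ℝ} (hz : z.re ≤ c) :
    ‖(h : ℂ) ^ z‖ ≤ (h : ℝ) ^ c := by
  rw [Complex.norm_natCast_cpow_of_pos hh]
  exact Real.rpow_le_rpow_of_exponent_le (by exact_mod_cast hh) hz

theorem qe_bound_pr : ∃ C : ℝ, ∀ (q : ℕ) [NeZero q] (χ : DirichletCharacter ℂ q) (r s : ℂ),
    ‖r‖ ≤ 1 / 8 → ‖s‖ ≤ 1 / 8 → ∀ e : ℕ, ‖Qe χ e s r‖ ≤ C := by
  obtain ⟨C, hC1, hC⟩ := Pool.Agent.LSPP.tau_le_pr (ε := 1 / 4) (by norm_num)
  refine ⟨C ^ 3, fun q _ χ r s hr hs e => ?_⟩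
  have hC0 : 0 ≤ C := by linarith
  rcases Nat.eq_zero_or_pos e with rfl | he
  · unfold Qe
    simp only [Nat.divisorsAntidiagonal_zero, Finset.sum_empty, norm_zero]
    positivity
  have he0 : e ≠ 0 := he.ne'
  have heR : (1 : ℝ) ≤ e := by exact_mod_cast he
  have hsr : |s.re| ≤ 1 / 8 := (Complex.abs_re_le_norm s).trans hs
  have hrr : |r.re| ≤ 1 / 8 := (Complex.abs_re_le_norm r).trans hr
  have hs1 := abs_le.1 hsr
  have hr1 := abs_le.1 hrr
  have htau0 : ∀ n : ℕ, 0 ≤ tau n := fun n => by unfold tau; positivity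
  have hmu : ∀ h : ℕ, ‖(ArithmeticFunction.moebius h : ℂ)‖ ≤ 1 := by
    intro h
    have h1 : |(ArithmeticFunction.moebius h : ℤ)| ≤ 1 := ArithmeticFunction.abs_moebius_le_one
    rw [Complex.norm_intCast]
    exact_mod_cast h1
  have hterm : ∀ p ∈ e.divisorsAntidiagonal, ‖χ p.1 * (p.1 : ℂ) ^ (-1 - s) *
      (p.2 : ℂ) ^ (-1 - r) * ∑ h ∈ p.2.divisors, (ArithmeticFunction.moebius h : ℂ) * χ h *
        (h : ℂ) ^ (-1 - s - r) * (tau (p.2 / h) : ℂ)‖ ≤ (e : ℝ) ^ (-(7 / 8) : ℝ) * tau e ^ 2 := by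
    intro p hp
    rw [Nat.mem_divisorsAntidiagonal] at hp
    have hp1 : 0 < p.1 := Nat.pos_of_ne_zero (by
      intro h
      rw [h, zero_mul] at hp
      exact hp.2 hp.1.symm)
    have hp2 : 0 < p.2 := Nat.pos_of_ne_zero (by
      intro h
      rw [h, mul_zero] at hp
      exact hp.2 hp.1.symm)
    have hd2 : p.2 ∣ e := ⟨p.1, by rw [← hp.1, mul_comm]⟩
    have hin : ‖∑ h ∈ p.2.divisors, (ArithmeticFunction.moebius h : ℂ) * χ h *
        (h : ℂ) ^ (-1 - s - r) * (tau (p.2 / h) : ℂ)‖ ≤ tau e ^ 2 := by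
      refine (norm_sum_le _ _).trans ?_
      calc ∑ h ∈ p.2.divisors, ‖(ArithmeticFunction.moebius h : ℂ) * χ h *
            (h : ℂ) ^ (-1 - s - r) * (tau (p.2 / h) : ℂ)‖ ≤ ∑ h ∈ p.2.divisors, tau e := by
            refine Finset.sum_le_sum fun h hh => ?_
            have hd := Nat.dvd_of_mem_divisors hh
            have hpos := Nat.pos_of_mem_divisors hh
            have ht : ‖(tau (p.2 / h) : ℂ)‖ ≤ tau e := by
              rw [Complex.norm_real, Real.norm_of_nonneg (htau0 _)]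
              exact ek_tau_le he0 ((Nat.div_dvd_of_dvd hd).trans hd2)
            have hpw : ‖(h : ℂ) ^ (-1 - s - r)‖ ≤ 1 := by
              have h1 := ek_pow hpos (z := -1 - s - r) (c := 0) (by
                simp only [sub_re, neg_re, one_re]
                linarith)
              rwa [Real.rpow_zero] at h1
            rw [norm_mul, norm_mul, norm_mul]
            calc ‖(ArithmeticFunction.moebius h : ℂ)‖ * ‖χ h‖ * ‖(h : ℂ) ^ (-1 - s - r)‖ *
                  ‖(tau (p.2 / h) : ℂ)‖ ≤ 1 * 1 * 1 * tau e := by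
                  gcongr
                  · exact hmu h
                  · exact DirichletCharacter.norm_le_one _ _
              _ = tau e := by ring
        _ = tau p.2 * tau e := by
            rw [Finset.sum_const, nsmul_eq_mul]
            rfl
        _ ≤ tau e * tau e := mul_le_mul_of_nonneg_right (ek_tau_le he0 hd2) (htau0 _)
        _ = tau e ^ 2 := by ring
    have h1 : ‖(p.1 : ℂ) ^ (-1 - s)‖ ≤ (p.1 : ℝ) ^ (-(7 / 8) : ℝ) := ek_pow hp1 (by
      simp only [sub_re, neg_re, one_re]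
      linarith)
    have h2 : ‖(p.2 : ℂ) ^ (-1 - r)‖ ≤ (p.2 : ℝ) ^ (-(7 / 8) : ℝ) := ek_pow hp2 (by
      simp only [sub_re, neg_re, one_re]
      linarith)
    rw [norm_mul, norm_mul, norm_mul]
    calc ‖χ p.1‖ * ‖(p.1 : ℂ) ^ (-1 - s)‖ * ‖(p.2 : ℂ) ^ (-1 - r)‖ * _
        ≤ 1 * (p.1 : ℝ) ^ (-(7 / 8) : ℝ) * (p.2 : ℝ) ^ (-(7 / 8) : ℝ) * tau e ^ 2 := by
          gcongr
          exact DirichletCharacter.norm_le_one _ _
      _ = (e : ℝ) ^ (-(7 / 8) : ℝ) * tau e ^ 2 := by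
          rw [one_mul, ← Real.mul_rpow (Nat.cast_nonneg _) (Nat.cast_nonneg _), ← Nat.cast_mul,
            hp.1]
  unfold Qe
  refine (norm_sum_le _ _).trans ((Finset.sum_le_sum hterm).trans ?_)
  have hca : e.divisorsAntidiagonal.card = e.divisors.card := by
    have h := Nat.sum_divisorsAntidiagonal (M := ℕ) (fun _ _ => 1) (n := e)
    simpa using h
  rw [Finset.sum_const, nsmul_eq_mul, hca]
  have ht : tau e ≤ C * (e : ℝ) ^ (1 / 4 : ℝ) := hC e
  have hcard : ((e.divisors.card : ℕ) : ℝ) = tau e := rfl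
  rw [hcard]
  calc tau e * ((e : ℝ) ^ (-(7 / 8) : ℝ) * tau e ^ 2) = (e : ℝ) ^ (-(7 / 8) : ℝ) * tau e ^ 3 := by
        ring
    _ ≤ (e : ℝ) ^ (-(7 / 8) : ℝ) * (C * (e : ℝ) ^ (1 / 4 : ℝ)) ^ 3 := by
        gcongr
        exact htau0 e
    _ = C ^ 3 * ((e : ℝ) ^ (-(7 / 8) : ℝ) * (e : ℝ) ^ (3 / 4 : ℝ)) := by
        rw [mul_pow, ← Real.rpow_natCast ((e : ℝ) ^ (1 / 4 : ℝ)) 3, ← Real.rpow_mul (by positivity)]
        norm_num
        ring
    _ ≤ C ^ 3 * 1 := by
        gcongr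
        rw [← Real.rpow_add (by linarith)]
        exact Real.rpow_le_one_of_one_le_of_nonpos heR (by norm_num)
    _ = C ^ 3 := mul_one _

end Pool.Agent.LE
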