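import Pool.Agent.Lib_helper53.LE.Defs

/-! LSP3, part E, block EL: splitting off the powers of `p`. -/

set_option autoImplicit false

namespace Pool.Agent.LE

open Complex MeasureTheory ProbabilityTheory
open Pool.Agent.LSP (tau MX CC CB sg1 wX)
open Pool.Agent.KSL (WW)
open Pool.Agent.LEV (Uu Um)
open Pool.Agent.LVB (IsST el)
open Pool.Agent.LK (Qe V PQ MW)

lemma elb_sum_div {m n : ℕ} (h : m.Coprime n) (F : ℕ → ℂ) :
    ∑ d ∈ (m * n).divisors, F d = ∑ d₁ ∈ m.divisors, ∑ d₂ ∈ n.divisors, F (d₁ * d₂) := by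
  rw [Nat.divisors_mul, Finset.mul_def, Finset.sum_image h.mul_injOn_divisors,
    Finset.sum_product]

lemma elb_tk_le {Q : ℕ → ℂ} {C : ℝ} (hQb : ∀ e, ‖Q e‖ ≤ C) {k : ℕ} (hk : 1 ≤ k) (e : ℕ) :
    ‖TK Q k e‖ ≤ k * C := by
  have hC : 0 ≤ C := (norm_nonneg _).trans (hQb 0)
  unfold TK
  have h1 : ∀ d ∈ (Nat.gcd e k).divisors, ‖(1 / (d : ℂ)) * Q (e * k / d ^ 2)‖ ≤ C := by
    intro d hd
    have hd0 : 1 ≤ d := Nat.pos_of_mem_divisors hd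
    rw [norm_mul]
    have h2 : ‖1 / (d : ℂ)‖ ≤ 1 := by
      rw [norm_div, norm_one, Complex.norm_natCast]
      have : (1 : ℝ) ≤ d := by exact_mod_cast hd0
      rw [div_le_one (by linarith)]
      exact this
    calc ‖1 / (d : ℂ)‖ * ‖Q (e * k / d ^ 2)‖ ≤ 1 * C :=
          mul_le_mul h2 (hQb _) (norm_nonneg _) zero_le_one
      _ = C := one_mul C
  refine (norm_sum_le_of_le _ h1).trans ?_
  rw [Finset.sum_const, nsmul_eq_mul]
  refine mul_le_mul_of_nonneg_right ?_ hC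
  have h3 : (Nat.gcd e k).divisors.card ≤ k :=
    (Nat.card_divisors_le_self _).trans (Nat.gcd_le_right e hk)
  exact_mod_cast h3

lemma elb_tk_mul {Q : ℕ → ℂ} (hQ : ∀ m n : ℕ, m.Coprime n → Q (m * n) = Q m * Q n)
    {a b k l : ℕ} (hal : a.Coprime l) (hab : a.Coprime b) (hkb : k.Coprime b)
    (hkl : k.Coprime l) : TK Q (k * l) (a * b) = TK Q k a * TK Q l b := by
  have e1 : Nat.gcd (a * b) (k * l) = Nat.gcd a k * Nat.gcd b l := by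
    rw [Nat.Coprime.gcd_mul _ hkl, Nat.Coprime.gcd_mul_right_cancel a hkb.symm,
      Nat.Coprime.gcd_mul_left_cancel b hal]
  have e2 : (Nat.gcd a k).Coprime (Nat.gcd b l) :=
    (hab.coprime_dvd_left (Nat.gcd_dvd_left a k)).coprime_dvd_right (Nat.gcd_dvd_left b l)
  unfold TK
  rw [e1, elb_sum_div e2, Finset.sum_mul_sum]
  refine Finset.sum_congr rfl fun d₁ h₁ => Finset.sum_congr rfl fun d₂ h₂ => ?_
  have f1 : d₁ ^ 2 ∣ a * k := by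
    rw [pow_two]
    exact mul_dvd_mul ((Nat.dvd_of_mem_divisors h₁).trans (Nat.gcd_dvd_left a k))
      ((Nat.dvd_of_mem_divisors h₁).trans (Nat.gcd_dvd_right a k))
  have f2 : d₂ ^ 2 ∣ b * l := by
    rw [pow_two]
    exact mul_dvd_mul ((Nat.dvd_of_mem_divisors h₂).trans (Nat.gcd_dvd_left b l))
      ((Nat.dvd_of_mem_divisors h₂).trans (Nat.gcd_dvd_right b l))
  have f3 : a * b * (k * l) / (d₁ * d₂) ^ 2 = (a * k / d₁ ^ 2) * (b * l / d₂ ^ 2) := by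
    rw [mul_pow, Nat.div_mul_div_comm f1 f2]
    congr 1
    ring
  have f4 : (a * k).Coprime (b * l) :=
    Nat.Coprime.mul_left (Nat.Coprime.mul_right hab hal) (Nat.Coprime.mul_right hkb hkl)
  rw [f3, hQ _ _ ((f4.coprime_dvd_left (Nat.div_dvd_of_dvd f1)).coprime_dvd_right
    (Nat.div_dvd_of_dvd f2))]
  push_cast
  ring

lemma elb_pow {ξ : ℕ → ℂ} (hξ1 : ξ 1 = 1) (hξ : ∀ m n, ξ (m * n) = ξ m * ξ n) (p j : ℕ) :
    ξ (p ^ j) = ξ p ^ j := by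
  induction j with
  | zero => rw [pow_zero, pow_zero, hξ1]
  | succ j ih => rw [pow_succ, hξ, ih, pow_succ]

/-- the numbers prime to `p` -/
abbrev elb_R (p : ℕ) : Type := {f : ℕ // ¬ p ∣ f}

lemma elb_inj {p : ℕ} (hp : p.Prime) :
    Function.Injective (fun x : ℕ × elb_R p => p ^ x.1 * x.2.1) := by
  have key : ∀ (j j' : ℕ) (f f' : elb_R p), j ≤ j' → p ^ j * f.1 = p ^ j' * f'.1 → j = j' := by
    intro j j' f f' hjj h
    obtain ⟨i, rfl⟩ := Nat.exists_eq_add_of_le hjj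
    rw [pow_add, mul_assoc] at h
    have h2 : f.1 = p ^ i * f'.1 := Nat.eq_of_mul_eq_mul_left (pow_pos hp.pos j) h
    rcases Nat.eq_zero_or_pos i with hi | hi
    · omega
    · exfalso
      apply f.2
      rw [h2]
      exact (dvd_pow_self p hi.ne').mul_right _
  rintro ⟨j, f⟩ ⟨j', f'⟩ h
  have h' : p ^ j * f.1 = p ^ j' * f'.1 := h
  have h1 : j = j' := by
    rcases le_total j j' with hj | hj
    · exact key _ _ f f' hj h'
    · exact (key _ _ f' f hj h'.symm).symm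
  subst h1
  have h2 : f.1 = f'.1 := Nat.eq_of_mul_eq_mul_left (pow_pos hp.pos j) h'
  rw [Prod.mk.injEq]
  exact ⟨rfl, Subtype.ext h2⟩

lemma elb_main {ξ Q : ℕ → ℂ} {C : ℝ} (hξ0 : ξ 0 = 0) (hξ1 : ξ 1 = 1)
    (hξ : ∀ m n, ξ (m * n) = ξ m * ξ n) (hξb : ∀ e : ℕ, ‖ξ e‖ ≤ (e : ℝ) ^ (-(3 / 2) : ℝ))
    (hQ : ∀ m n : ℕ, m.Coprime n → Q (m * n) = Q m * Q n) (hQb : ∀ e, ‖Q e‖ ≤ C)
    {p : ℕ} (hp : p.Prime) {m : ℕ} (hm : 1 ≤ m) (hpm : ¬ p ∣ m) (c : ℕ) :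
    TS ξ Q (p ^ c * m) = (∑' j : ℕ, ξ p ^ j * TK Q (p ^ c) (p ^ j)) *
      ∑' f : elb_R p, ξ f.1 * TK Q m f.1 := by
  have hC : 0 ≤ C := (norm_nonneg _).trans (hQb 0)
  have hs : ∀ k : ℕ, 1 ≤ k → Summable (fun e : ℕ => ‖ξ e * TK Q k e‖) := by
    intro k hk
    have h1 : Summable (fun e : ℕ => (e : ℝ) ^ (-(3 / 2) : ℝ) * (k * C)) :=
      (Real.summable_nat_rpow.2 (by norm_num)).mul_right _
    refine Summable.of_nonneg_of_le (fun e => norm_nonneg _) (fun e => ?_) h1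
    rw [norm_mul]
    exact mul_le_mul (hξb e) (elb_tk_le hQb hk e) (norm_nonneg _)
      (Real.rpow_nonneg (Nat.cast_nonneg e) _)
  have hpc : 1 ≤ p ^ c := Nat.one_le_pow _ _ hp.pos
  have hA : Summable (fun j : ℕ => ‖ξ p ^ j * TK Q (p ^ c) (p ^ j)‖) := by
    have h1 := (hs (p ^ c) hpc).comp_injective (Nat.pow_right_injective hp.two_le)
    refine h1.congr fun j => ?_
    show ‖ξ (p ^ j) * TK Q (p ^ c) (p ^ j)‖ = _
    rw [elb_pow hξ1 hξ]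
  have hB : Summable (fun f : elb_R p => ‖ξ f.1 * TK Q m f.1‖) :=
    (hs m hm).comp_injective Subtype.val_injective
  rw [tsum_mul_tsum_of_summable_norm hA hB]
  unfold TS
  have hsupp : Function.support (fun e : ℕ => ξ e * TK Q (p ^ c * m) e) ⊆
      Set.range (fun x : ℕ × elb_R p => p ^ x.1 * x.2.1) := by
    intro e he
    have he0 : e ≠ 0 := by
      rintro rfl
      exact he (by simp only [hξ0, zero_mul])
    obtain ⟨j, f, hf, hef⟩ := Nat.exists_eq_pow_mul_and_not_dvd he0 p hp.ne_one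
    exact ⟨(j, ⟨f, hf⟩), hef.symm⟩
  rw [← (elb_inj hp).tsum_eq hsupp]
  refine tsum_congr fun x => ?_
  obtain ⟨j, f, hf⟩ := x
  have hpf : p.Coprime f := (Nat.Prime.coprime_iff_not_dvd hp).2 hf
  have hpm' : p.Coprime m := (Nat.Prime.coprime_iff_not_dvd hp).2 hpm
  show ξ (p ^ j * f) * TK Q (p ^ c * m) (p ^ j * f) =
    ξ p ^ j * TK Q (p ^ c) (p ^ j) * (ξ f * TK Q m f)
  rw [hξ, elb_pow hξ1 hξ, elb_tk_mul hQ (hpm'.pow_left j) (hpf.pow_left j) (hpf.pow_left c)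
    (hpm'.pow_left c)]
  ring

/-- block EL: splitting off the powers of `p` -/
theorem tw_rec_pr {ξ Q : ℕ → ℂ} {C : ℝ} (hξ0 : ξ 0 = 0) (hξ1 : ξ 1 = 1)
    (hξ : ∀ m n, ξ (m * n) = ξ m * ξ n) (hξb : ∀ e : ℕ, ‖ξ e‖ ≤ (e : ℝ) ^ (-(3 / 2) : ℝ))
    (hQ : ∀ m n : ℕ, m.Coprime n → Q (m * n) = Q m * Q n) (hQb : ∀ e, ‖Q e‖ ≤ C)
    {p : ℕ} (hp : p.Prime) {m : ℕ} (hm : 1 ≤ m) (hpm : ¬ p ∣ m) (c : ℕ) :
    TS ξ Q (p ^ c * m) * (∑' j : ℕ, ξ p ^ j * TK Q 1 (p ^ j)) =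
      (∑' j : ℕ, ξ p ^ j * TK Q (p ^ c) (p ^ j)) * TS ξ Q m := by
  have h1 := elb_main hξ0 hξ1 hξ hξb hQ hQb hp hm hpm c
  have h2 := elb_main hξ0 hξ1 hξ hξb hQ hQb hp hm hpm 0
  rw [pow_zero, one_mul] at h2
  rw [h1, h2]
  ring

end Pool.Agent.LE
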