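import Pool.Agent.Lib_helper53.LE.Defs
import Pool.Agent.Lib_helper41.LVBF.ELF
import Pool.Agent.Lib_helper68.LEV.EQS

/-! Block EM: the local twisted series. -/

set_option autoImplicit false

namespace Pool.Agent.LE

open Complex MeasureTheory ProbabilityTheory
open Pool.Agent.LSP (tau MX CC CB sg1 wX)
open Pool.Agent.KSL (WW)
open Pool.Agent.LEV (Uu Um)
open Pool.Agent.LVB (IsST el)
open Pool.Agent.LK (Qe V PQ MW)

/-- the product formula for the Chebyshev polynomials -/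
theorem em_uu (x : ℝ) (j : ℕ) : ∀ c : ℕ,
    ∑ i ∈ Finset.range (min j c + 1), Uu x (j + c - 2 * i) = Uu x j * Uu x c := by
  induction j with
  | zero =>
    intro c
    simp [Uu]
  | succ j ih =>
    intro c
    rcases c with _ | c
    · simp [Uu]
    · rw [Nat.succ_min_succ, Finset.sum_range_succ', Pool.Agent.LEV.EQS_uu, ← ih c]
      congr 1
      · refine Finset.sum_congr rfl fun i _ => ?_
        congr 1
        omega
      · congr 1
        omega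

theorem em_sq {p : ℕ} : (1 / (Real.sqrt p : ℂ)) ^ 2 = 1 / (p : ℂ) := by
  have hsq : ((Real.sqrt p : ℝ) : ℂ) ^ 2 = (p : ℂ) := by
    rw [← Complex.ofReal_pow, Real.sq_sqrt (Nat.cast_nonneg p)]
    simp
  rw [div_pow, hsq, one_pow]

section
variable {I : Finset ℕ} {P : Measure (ℕ → ℝ)}

theorem em_int (hP : IsST I P) {p : ℕ} (hp : p ∈ I) {φ : ℝ → ℂ} (hφ : Measurable φ) {C : ℝ}
    (hC : ∀ x : ℝ, |x| ≤ 2 → ‖φ x‖ ≤ C) : Integrable (fun x : ℕ → ℝ => φ (x p)) P := by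
  have := hP.prob
  refine Integrable.of_bound (hφ.comp (measurable_pi_apply p)).aestronglyMeasurable C ?_
  filter_upwards [hP.bdd] with x hx
  exact hC _ (hx p hp)

theorem em_meas (k : ℕ) : Measurable (fun x : ℝ => (Uu x k : ℂ)) :=
  Complex.measurable_ofReal.comp (Pool.Agent.LEV.EQS_ucont k).measurable

theorem em_tk (hP : IsST I P) {p : ℕ} (hp : p ∈ I)
    (hpp : p.Prime) {Q : ℕ → ℂ} {κ : ℂ} {G : ℝ → ℂ} (hG : Measurable G) {CG : ℝ}
    (hGb : ∀ x : ℝ, |x| ≤ 2 → ‖G x‖ ≤ CG)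
    (hQ : ∀ n, Q (p ^ n) = κ * (1 / (Real.sqrt p : ℂ)) ^ n * ∫ x, (Uu (x p) n : ℂ) * G (x p) ∂P)
    (c j : ℕ) : TK Q (p ^ c) (p ^ j) = κ * (1 / (Real.sqrt p : ℂ)) ^ (j + c) *
      ∫ x, (Uu (x p) j : ℂ) * ((Uu (x p) c : ℂ) * G (x p)) ∂P := by
  have hgcd : Nat.gcd (p ^ j) (p ^ c) = p ^ min j c := by
    rcases le_total j c with h | h
    · rw [min_eq_left h, Nat.gcd_eq_left (pow_dvd_pow p h)]
    · rw [min_eq_right h, Nat.gcd_eq_right (pow_dvd_pow p h)]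
  unfold TK
  rw [hgcd, Nat.sum_divisors_prime_pow hpp]
  have h1 : ∀ i ∈ Finset.range (min j c + 1),
      1 / ((p ^ i : ℕ) : ℂ) * Q (p ^ j * p ^ c / (p ^ i) ^ 2) =
      κ * (1 / (Real.sqrt p : ℂ)) ^ (j + c) * ∫ x, (Uu (x p) (j + c - 2 * i) : ℂ) * G (x p) ∂P := by
    intro i hi
    have hi' : 2 * i ≤ j + c := by
      have := Finset.mem_range.1 hi
      omega
    have e1 : p ^ j * p ^ c / (p ^ i) ^ 2 = p ^ (j + c - 2 * i) := by
      rw [← pow_add, ← pow_mul, mul_comm i 2, Nat.pow_div hi' hpp.pos]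
    have e2 : (1 / (Real.sqrt p : ℂ)) ^ (j + c) =
        1 / ((p ^ i : ℕ) : ℂ) * (1 / (Real.sqrt p : ℂ)) ^ (j + c - 2 * i) := by
      conv_lhs => rw [show j + c = 2 * i + (j + c - 2 * i) by omega]
      rw [pow_add, pow_mul, em_sq, div_pow, one_pow]
      push_cast
      rfl
    rw [e1, hQ, e2]
    ring
  rw [Finset.sum_congr rfl h1, ← Finset.mul_sum, ← integral_finsetSum]
  · congr 1
    refine integral_congr_ae (ae_of_all _ fun x => ?_)
    simp only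
    rw [← Finset.sum_mul, ← mul_assoc]
    congr 1
    have := em_uu (x p) j c
    exact_mod_cast this
  · intro i _
    refine em_int hP hp (φ := fun x => (Uu x (j + c - 2 * i) : ℂ) * G x)
      ((em_meas _).mul hG) (C := (((j + c - 2 * i : ℕ) : ℝ) + 1) * CG) fun x hx => ?_
    rw [norm_mul, Complex.norm_real, Real.norm_eq_abs]
    exact mul_le_mul (Pool.Agent.LVB.uu_le hx _) (hGb x hx) (norm_nonneg _) (by positivity)

end

theorem tw_loc_pr {I : Finset ℕ} {P : Measure (ℕ → ℝ)} (hP : IsST I P) {p : ℕ} (hp : p ∈ I)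
    (hpp : p.Prime) {Q : ℕ → ℂ} {κ ξ : ℂ} {G : ℝ → ℂ} (hG : Measurable G) {CG : ℝ}
    (hGb : ∀ x : ℝ, |x| ≤ 2 → ‖G x‖ ≤ CG)
    (hQ : ∀ n, Q (p ^ n) = κ * (1 / (Real.sqrt p : ℂ)) ^ n * ∫ x, (Uu (x p) n : ℂ) * G (x p) ∂P)
    (hξ : ‖ξ‖ ≤ 1) (c : ℕ) :
    ∑' j : ℕ, ξ ^ j * TK Q (p ^ c) (p ^ j) =
      κ * (1 / (Real.sqrt p : ℂ)) ^ c * ∫ x, (Uu (x p) c : ℂ) * (G (x p) * el p ξ (x p)) ∂P := by
  obtain ⟨hr0, hr1, -, -⟩ := Pool.Agent.LVB.ELF_r_facts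
  have := hP.prob
  have hCG : 0 ≤ CG := (norm_nonneg _).trans (hGb 0 (by simp))
  obtain ⟨F, hF⟩ : ∃ F : ℕ → (ℕ → ℝ) → ℂ, F = fun j x =>
      ((Uu (x p) j : ℂ) * (ξ / (Real.sqrt p : ℂ)) ^ j) * ((Uu (x p) c : ℂ) * G (x p)) := ⟨_, rfl⟩
  have hb : ∀ (j : ℕ) (y : ℝ), |y| ≤ 2 →
      ‖((Uu y j : ℂ) * (ξ / (Real.sqrt p : ℂ)) ^ j) * ((Uu y c : ℂ) * G y)‖ ≤
        (((j : ℝ) + 1) * Pool.Agent.LVB.ELF_r ^ j) * (((c : ℝ) + 1) * CG) := by
    intro j y hy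
    rw [norm_mul]
    refine mul_le_mul (Pool.Agent.LVB.ELF_bd hpp hξ hy j) ?_ (norm_nonneg _) (by positivity)
    rw [norm_mul, Complex.norm_real, Real.norm_eq_abs]
    exact mul_le_mul (Pool.Agent.LVB.uu_le hy _) (hGb y hy) (norm_nonneg _) (by positivity)
  have hFi : ∀ j, Integrable (F j) P := by
    intro j
    rw [hF]
    exact em_int hP hp (φ := fun y => ((Uu y j : ℂ) * (ξ / (Real.sqrt p : ℂ)) ^ j) *
      ((Uu y c : ℂ) * G y)) (((em_meas j).mul_const _).mul ((em_meas c).mul hG)) (hb j)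
  have hFn : ∀ j, ∫ x, ‖F j x‖ ∂P ≤
      (((j : ℝ) + 1) * Pool.Agent.LVB.ELF_r ^ j) * (((c : ℝ) + 1) * CG) := by
    intro j
    have h1 : ∫ x, ‖F j x‖ ∂P ≤ ∫ _, (((j : ℝ) + 1) * Pool.Agent.LVB.ELF_r ^ j) *
        (((c : ℝ) + 1) * CG) ∂P := by
      refine integral_mono_ae (hFi j).norm (integrable_const _) ?_
      filter_upwards [hP.bdd] with x hx
      rw [hF]
      exact hb j _ (hx p hp)
    refine h1.trans (le_of_eq ?_)
    simp
  have hsum : Summable (fun j => ∫ x, ‖F j x‖ ∂P) := by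
    refine Summable.of_nonneg_of_le (fun j => integral_nonneg fun _ => norm_nonneg _) hFn ?_
    exact (Pool.Agent.LVB.ELF_geo hr0.le hr1).summable.mul_right _
  have h2 := integral_tsum_of_summable_integral_norm hFi hsum
  have h3 : ∫ x, ∑' j, F j x ∂P = ∫ x, (Uu (x p) c : ℂ) * (G (x p) * el p ξ (x p)) ∂P := by
    refine integral_congr_ae ?_
    filter_upwards [hP.bdd] with x hx
    rw [hF]
    simp only
    rw [tsum_mul_right, (Pool.Agent.LVB.el_sum hpp hξ (hx p hp)).tsum_eq]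
    ring
  rw [← h3, ← h2, ← tsum_mul_left]
  refine tsum_congr fun j => ?_
  rw [em_tk hP hp hpp hG hGb hQ, hF]
  have h4 : ∫ x, ((Uu (x p) j : ℂ) * (ξ / (Real.sqrt p : ℂ)) ^ j) *
      ((Uu (x p) c : ℂ) * G (x p)) ∂P = (ξ / (Real.sqrt p : ℂ)) ^ j *
      ∫ x, (Uu (x p) j : ℂ) * ((Uu (x p) c : ℂ) * G (x p)) ∂P := by
    rw [← integral_const_mul]
    refine integral_congr_ae (ae_of_all _ fun x => ?_)
    simp only
    ring
  simp only
  rw [h4, pow_add, div_pow, div_pow, one_pow]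
  ring

end Pool.Agent.LE
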