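import Pool.Agent.Lib_helper53.LE.Defs
import Pool.Agent.Lib_helper41.LVBF.STO

/-! LSP3, part E, block EN: the expectation of `Um k` is a product. -/

set_option autoImplicit false

namespace Pool.Agent.LE

open Complex MeasureTheory ProbabilityTheory
open Pool.Agent.LSP (tau MX CC CB sg1 wX)
open Pool.Agent.KSL (WW)
open Pool.Agent.LEV (Uu Um)
open Pool.Agent.LVB (IsST el)
open Pool.Agent.LK (Qe V PQ MW)

theorem ew_um_pr {I : Finset ℕ} {P : Measure (ℕ → ℝ)} (hP : IsST I P) {w : ℕ → ℝ → ℂ}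
    (hw : ∀ p ∈ I, Measurable (w p)) (hw0 : ∀ p ∈ I, ∫ x, w p (x p) ∂P ≠ 0) {k : ℕ} (hk : 1 ≤ k)
    (hkI : k.primeFactors ⊆ I) : EW P I w (Um k) = ∏ p ∈ k.primeFactors,
      (∫ x, (Uu (x p) (k.factorization p) : ℂ) * w p (x p) ∂P) / ∫ x, w p (x p) ∂P := by
  have := hP.prob
  unfold EW
  have h1 : ∀ x : ℕ → ℝ, ((Um k x : ℝ) : ℂ) * ∏ p ∈ I, w p (x p) =
      ∏ p : I, (fun y : ℝ => ((Uu y (k.factorization p) : ℝ) : ℂ) * w p y) (x p) := by
    intro x
    rw [Pool.Agent.LVB.STO_um_sub hkI, Complex.ofReal_prod, ← Finset.prod_mul_distrib,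
      Finset.prod_coe_sort I (fun p => ((Uu (x p) (k.factorization p) : ℝ) : ℂ) * w p (x p))]
  simp_rw [h1]
  rw [hP.ind.integral_fun_prod_comp (f := fun p : I => fun y : ℝ =>
      ((Uu y (k.factorization p) : ℝ) : ℂ) * w p y)
    (fun p => (measurable_pi_apply (p : ℕ)).aemeasurable)
    (fun p => ((Complex.measurable_ofReal.comp
      (Pool.Agent.LEV.EQS_ucont _).measurable).mul (hw p p.2)).aestronglyMeasurable)]
  rw [Finset.prod_coe_sort I (fun p => ∫ x, ((Uu (x p) (k.factorization p) : ℝ) : ℂ) *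
    w p (x p) ∂P), ← Finset.prod_div_distrib]
  symm
  refine Finset.prod_subset hkI fun p hp hpk => ?_
  have h0 : k.factorization p = 0 := by
    rw [← Finsupp.notMem_support_iff, Nat.support_factorization]
    exact hpk
  rw [h0]
  have h2 : ∀ x : ℕ → ℝ, ((Uu (x p) 0 : ℝ) : ℂ) * w p (x p) = w p (x p) := by
    intro x
    have : Uu (x p) 0 = 1 := rfl
    rw [this, Complex.ofReal_one, one_mul]
  simp_rw [h2]
  exact div_self (hw0 p hp)

end Pool.Agent.LE
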