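import Pool.Agent.Lib_helper53.LE.Defs
import Pool.Agent.Lib_helper53.LEF.EL
import Pool.Agent.Lib_helper53.LEF.EM
import Pool.Agent.Lib_helper53.LEF.EN

/-! Block EO of LE (helper92): the twisted series is the untwisted series times an expectation -/

set_option autoImplicit false

namespace Pool.Agent.LE

open Complex MeasureTheory ProbabilityTheory
open Pool.Agent.LSP (tau MX CC CB sg1 wX)
open Pool.Agent.KSL (WW)
open Pool.Agent.LEV (Uu Um)
open Pool.Agent.LVB (IsST el)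
open Pool.Agent.LK (Qe V PQ MW)

theorem eo_el_meas (p : ℕ) (a : ℂ) : Measurable (el p a) := by
  unfold el
  fun_prop

theorem eo_sqrt (a b : ℕ) : (Real.sqrt ((a * b : ℕ) : ℝ) : ℂ) =
    (Real.sqrt (a : ℝ) : ℂ) * (Real.sqrt (b : ℝ) : ℂ) := by
  rw [Nat.cast_mul, Real.sqrt_mul (Nat.cast_nonneg a), Complex.ofReal_mul]

theorem eo_sqrt_pow (p c : ℕ) : (Real.sqrt ((p ^ c : ℕ) : ℝ) : ℂ) = (Real.sqrt (p : ℝ) : ℂ) ^ c := by
  induction c with
  | zero => simp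
  | succ c ih => rw [pow_succ, eo_sqrt, ih, pow_succ]

/-- block EO (uses tw_rec_pr, tw_loc_pr, ew_um_pr) -/
theorem tw_main_pr {I : Finset ℕ} {P : Measure (ℕ → ℝ)} (hI : ∀ p ∈ I, p.Prime) (hP : IsST I P)
    {ξ Q κ : ℕ → ℂ} {G : ℕ → ℝ → ℂ} {C : ℝ} (hξ0 : ξ 0 = 0) (hξ1 : ξ 1 = 1)
    (hξ : ∀ m n, ξ (m * n) = ξ m * ξ n) (hξb : ∀ e : ℕ, ‖ξ e‖ ≤ (e : ℝ) ^ (-(3 / 2) : ℝ))
    (hQ : ∀ m n : ℕ, m.Coprime n → Q (m * n) = Q m * Q n) (hQb : ∀ e, ‖Q e‖ ≤ C)
    (hG : ∀ p ∈ I, Measurable (G p)) (hGb : ∀ p ∈ I, ∃ CG : ℝ, ∀ x : ℝ, |x| ≤ 2 → ‖G p x‖ ≤ CG)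
    (hloc : ∀ p ∈ I, ∀ n, Q (p ^ n) =
      κ p * (1 / (Real.sqrt p : ℂ)) ^ n * ∫ x, (Uu (x p) n : ℂ) * G p (x p) ∂P)
    (hκ : ∀ p ∈ I, κ p ≠ 0) (h0 : ∀ p ∈ I, ∫ x, G p (x p) * el p (ξ p) (x p) ∂P ≠ 0)
    {k : ℕ} (hk : 1 ≤ k) (hkI : k.primeFactors ⊆ I) :
    TS ξ Q k = TS ξ Q 1 * (1 / (Real.sqrt k : ℂ)) *
      EW P I (fun p x => G p x * el p (ξ p) x) (Um k) := by
  have hwm : ∀ p ∈ I, Measurable ((fun p x => G p x * el p (ξ p) x : ℕ → ℝ → ℂ) p) :=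
    fun p hp => (hG p hp).mul (eo_el_meas p _)
  induction k using Nat.strong_induction_on with
  | _ k ih =>
  by_cases hk1 : k = 1
  · subst hk1
    rw [ew_um_pr hP hwm h0 le_rfl (by simp)]
    simp
  have hp := Nat.minFac_prime hk1
  obtain ⟨c, m, hpm, hkm⟩ := Nat.exists_eq_pow_mul_and_not_dvd (by omega : k ≠ 0) k.minFac hp.ne_one
  have hpk : k.minFac ∣ k := Nat.minFac_dvd k
  set p := k.minFac with hpdef
  clear_value p
  have hc : c ≠ 0 := by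
    rintro rfl
    rw [pow_zero, one_mul] at hkm
    exact hpm (hkm ▸ hpk)
  have hm1 : 1 ≤ m := by
    rcases Nat.eq_zero_or_pos m with h | h
    · subst h
      exact absurd (dvd_zero p) hpm
    · exact h
  have hpc : 2 ≤ p ^ c := le_trans hp.two_le (Nat.le_self_pow hc p)
  have hmk : m < k := by
    rw [hkm]
    nlinarith
  have hpf : k.primeFactors = insert p m.primeFactors := by
    rw [hkm, Nat.primeFactors_mul (by positivity) (by omega), Nat.primeFactors_prime_pow hc hp]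
    rfl
  have hpI : p ∈ I := hkI (by rw [hpf]; exact Finset.mem_insert_self _ _)
  have hmI : m.primeFactors ⊆ I := fun x hx => hkI (by rw [hpf]; exact Finset.mem_insert_of_mem hx)
  have hpnot : p ∉ m.primeFactors := fun h => hpm (Nat.dvd_of_mem_primeFactors h)
  have hfp : k.factorization p = c := by
    rw [hkm, Nat.factorization_mul (by positivity) (by omega), Finsupp.add_apply,
      hp.factorization_pow, Finsupp.single_eq_same, Nat.factorization_eq_zero_of_not_dvd hpm, add_zero]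
  have hfm : ∀ x ∈ m.primeFactors, k.factorization x = m.factorization x := by
    intro x hx
    have hne : p ≠ x := fun h => hpnot (h ▸ hx)
    rw [hkm, Nat.factorization_mul (by positivity) (by omega), Finsupp.add_apply,
      hp.factorization_pow, Finsupp.single_apply, if_neg hne, zero_add]
  -- the local factors
  have hξp : ‖ξ p‖ ≤ 1 := by
    refine (hξb p).trans (Real.rpow_le_one_of_one_le_of_nonpos ?_ (by norm_num))
    exact_mod_cast hp.one_lt.le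
  obtain ⟨CG, hCG⟩ := hGb p hpI
  have hloc' := fun c => tw_loc_pr hP hpI hp (hG p hpI) hCG (hloc p hpI) hξp c
  have hrec := tw_rec_pr hξ0 hξ1 hξ hξb hQ hQb hp hm1 hpm c
  have h00 := hloc' 0
  rw [pow_zero, pow_zero, mul_one] at h00
  simp only [show ∀ x : ℝ, Uu x 0 = 1 from fun x => rfl, Complex.ofReal_one, one_mul] at h00
  rw [h00, hloc' c, ← hkm, ih m hmk hm1 hmI, ew_um_pr hP hwm h0 hm1 hmI] at hrec
  rw [ew_um_pr hP hwm h0 hk hkI, hpf, Finset.prod_insert hpnot, hfp]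
  have hprod : ∏ x ∈ m.primeFactors,
      (∫ y, (Uu (y x) (k.factorization x) : ℂ) * (G x (y x) * el x (ξ x) (y x)) ∂P) /
        ∫ y, G x (y x) * el x (ξ x) (y x) ∂P =
      ∏ x ∈ m.primeFactors,
      (∫ y, (Uu (y x) (m.factorization x) : ℂ) * (G x (y x) * el x (ξ x) (y x)) ∂P) /
        ∫ y, G x (y x) * el x (ξ x) (y x) ∂P :=
    Finset.prod_congr rfl fun x hx => by rw [hfm x hx]
  rw [hprod]
  have hsk : (Real.sqrt (k : ℝ) : ℂ) = (Real.sqrt (p : ℝ) : ℂ) ^ c * (Real.sqrt (m : ℝ) : ℂ) := by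
    rw [hkm, eo_sqrt, eo_sqrt_pow]
  rw [hsk]
  have hκ0 := hκ p hpI
  have hI0 := h0 p hpI
  have hA : κ p * ∫ x, G p (x p) * el p (ξ p) (x p) ∂P ≠ 0 := mul_ne_zero hκ0 hI0
  apply mul_right_cancel₀ hA
  rw [hrec, one_div_pow]
  have hu : (Real.sqrt (p : ℝ) : ℂ) ^ c ≠ 0 := by
    apply pow_ne_zero
    rw [Complex.ofReal_ne_zero]
    exact (Real.sqrt_pos.2 (by exact_mod_cast hp.pos)).ne'
  have hsm : (Real.sqrt (m : ℝ) : ℂ) ≠ 0 := by
    rw [Complex.ofReal_ne_zero]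
    exact (Real.sqrt_pos.2 (by exact_mod_cast hm1)).ne'
  have key : ∀ (K A T s u Y J : ℂ), J ≠ 0 → s ≠ 0 → u ≠ 0 →
      K * (1 / u) * A * (T * (1 / s) * Y) = T * (1 / (u * s)) * (A / J * Y) * (K * J) := by
    intro K A T s u Y J hJ hs hu
    field_simp
  exact key _ _ _ _ _ _ _ hI0 hsm hu

end Pool.Agent.LE
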