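import Pool.Agent.Lib_helper53.LE.Defs

/-! LSP3, part E, block EP: the untwisted series. -/

set_option autoImplicit false

namespace Pool.Agent.LE

open Complex MeasureTheory ProbabilityTheory
open Pool.Agent.LSP (tau MX CC CB sg1 wX)
open Pool.Agent.KSL (WW)
open Pool.Agent.LEV (Uu Um)
open Pool.Agent.LVB (IsST el)
open Pool.Agent.LK (Qe V PQ MW)

theorem ep_tk (Q : ℕ → ℂ) (e : ℕ) : TK Q 1 e = Q e := by
  unfold TK
  rw [Nat.gcd_one_right, Nat.divisors_one, Finset.sum_singleton]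
  simp

theorem ep_shift (f : ℕ → ℂ) (w z : ℂ) :
    LSeries.term (fun n => f n * (n : ℂ) ^ (-w)) z = LSeries.term f (z + w) := by
  funext n
  rcases eq_or_ne n 0 with rfl | hn
  · simp
  · have hn' : (n : ℂ) ≠ 0 := by exact_mod_cast hn
    rw [LSeries.term_of_ne_zero hn, LSeries.term_of_ne_zero hn, Complex.cpow_add _ _ hn',
      Complex.cpow_neg]
    have h1 : (n : ℂ) ^ w ≠ 0 := by
      rw [Ne, Complex.cpow_eq_zero_iff]
      tauto
    have h2 : (n : ℂ) ^ z ≠ 0 := by
      rw [Ne, Complex.cpow_eq_zero_iff]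
      tauto
    field_simp

theorem ep_ls (f : ℕ → ℂ) (w z : ℂ) :
    LSeries (fun n => f n * (n : ℂ) ^ (-w)) z = LSeries f (z + w) := by
  unfold LSeries
  rw [ep_shift]

theorem ep_sum {f : ℕ → ℂ} {w z : ℂ} (h : LSeriesSummable f (z + w)) :
    LSeriesSummable (fun n => f n * (n : ℂ) ^ (-w)) z := by
  unfold LSeriesSummable
  rw [ep_shift]
  exact h

theorem ep_mul_cpow (m n : ℕ) (w : ℂ) : ((m * n : ℕ) : ℂ) ^ w = (m : ℂ) ^ w * (n : ℂ) ^ w := by
  rw [Nat.cast_mul, Complex.natCast_mul_natCast_cpow]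

variable {q : ℕ} [NeZero q]

omit [NeZero q] in
theorem ep_cc (χ : DirichletCharacter ℂ q) (r : ℂ) (m : ℕ) :
    LSeries.convolution (fun n => χ n * (n : ℂ) ^ (-(1 + r))) (fun n => χ n * (n : ℂ) ^ (-(1 + r))) m =
      (tau m : ℂ) * (χ m * (m : ℂ) ^ (-(1 + r))) := by
  rw [LSeries.convolution_def]
  show ∑ p ∈ m.divisorsAntidiagonal, χ p.1 * (p.1 : ℂ) ^ (-(1 + r)) *
    (χ p.2 * (p.2 : ℂ) ^ (-(1 + r))) = _
  have h : ∀ p ∈ m.divisorsAntidiagonal, χ p.1 * (p.1 : ℂ) ^ (-(1 + r)) *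
    (χ p.2 * (p.2 : ℂ) ^ (-(1 + r))) = χ m * (m : ℂ) ^ (-(1 + r)) := by
    intro p hp
    have h1 : p.1 * p.2 = m := (Nat.mem_divisorsAntidiagonal.mp hp).1
    rw [← h1, ep_mul_cpow, Nat.cast_mul, map_mul]
    ring
  rw [Finset.sum_congr rfl h, Finset.sum_const, nsmul_eq_mul]
  congr 1
  unfold tau
  rw [← Nat.map_div_right_divisors, Finset.card_map]
  simp

omit [NeZero q] in
theorem ep_inner {χ : DirichletCharacter ℂ q} (hsq : χ ^ 2 = 1) (r s : ℂ) (n : ℕ) :
    χ n * (n : ℂ) ^ (-1 - r) * ∑ h ∈ n.divisors, (ArithmeticFunction.moebius h : ℂ) * χ h *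
      (h : ℂ) ^ (-1 - s - r) * (tau (n / h) : ℂ) =
    LSeries.convolution (fun n => ((1 : DirichletCharacter ℂ q) n *
        (ArithmeticFunction.moebius n : ℂ)) * (n : ℂ) ^ (-(2 + s + 2 * r)))
      (LSeries.convolution (fun n => χ n * (n : ℂ) ^ (-(1 + r)))
        (fun n => χ n * (n : ℂ) ^ (-(1 + r)))) n := by
  rw [LSeries.convolution_def]
  show _ = ∑ p ∈ n.divisorsAntidiagonal, ((1 : DirichletCharacter ℂ q) p.1 *
        (ArithmeticFunction.moebius p.1 : ℂ)) * (p.1 : ℂ) ^ (-(2 + s + 2 * r)) *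
      LSeries.convolution (fun n => χ n * (n : ℂ) ^ (-(1 + r)))
        (fun n => χ n * (n : ℂ) ^ (-(1 + r))) p.2
  rw [← Nat.sum_divisorsAntidiagonal (f := fun h m => (ArithmeticFunction.moebius h : ℂ) * χ h *
      (h : ℂ) ^ (-1 - s - r) * (tau m : ℂ)), Finset.mul_sum]
  refine Finset.sum_congr rfl fun p hp => ?_
  obtain ⟨h1, hn⟩ := Nat.mem_divisorsAntidiagonal.mp hp
  rw [ep_cc, ← h1, ep_mul_cpow, Nat.cast_mul, map_mul]
  have hp1 : (p.1 : ℂ) ≠ 0 := by
    have : p.1 ≠ 0 := by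
      rintro h0
      rw [h0, zero_mul] at h1
      exact hn h1.symm
    exact_mod_cast this
  have h2 : (1 : DirichletCharacter ℂ q) p.1 = χ p.1 * χ p.1 := by
    rw [← hsq, pow_two, MulChar.mul_apply]
  have h3 : (p.1 : ℂ) ^ (-(2 + s + 2 * r)) = (p.1 : ℂ) ^ (-1 - r) * (p.1 : ℂ) ^ (-1 - s - r) := by
    rw [← Complex.cpow_add _ _ hp1]
    congr 1
    ring
  have h4 : (p.2 : ℂ) ^ (-(1 + r)) = (p.2 : ℂ) ^ (-1 - r) := by
    congr 1
    ring
  rw [h2, h3, h4]
  ring

theorem ep_qe {χ : DirichletCharacter ℂ q} (hsq : χ ^ 2 = 1) (r s : ℂ) (e : ℕ) :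
    χ e * Qe χ e s r =
    LSeries.convolution (fun n => (1 : DirichletCharacter ℂ q) n * (n : ℂ) ^ (-(1 + s)))
      (LSeries.convolution (fun n => ((1 : DirichletCharacter ℂ q) n *
        (ArithmeticFunction.moebius n : ℂ)) * (n : ℂ) ^ (-(2 + s + 2 * r)))
      (LSeries.convolution (fun n => χ n * (n : ℂ) ^ (-(1 + r)))
        (fun n => χ n * (n : ℂ) ^ (-(1 + r))))) e := by
  rw [LSeries.convolution_def]
  unfold Qe
  rw [Finset.mul_sum]
  refine Finset.sum_congr rfl fun p hp => ?_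
  obtain ⟨h1, hn⟩ := Nat.mem_divisorsAntidiagonal.mp hp
  show _ = (1 : DirichletCharacter ℂ q) p.1 * (p.1 : ℂ) ^ (-(1 + s)) * LSeries.convolution _ _ p.2
  rw [← ep_inner hsq, ← h1, Nat.cast_mul, map_mul]
  have h2 : (1 : DirichletCharacter ℂ q) p.1 = χ p.1 * χ p.1 := by
    rw [← hsq, pow_two, MulChar.mul_apply]
  have h4 : (p.1 : ℂ) ^ (-(1 + s)) = (p.1 : ℂ) ^ (-1 - s) := by
    congr 1
    ring
  rw [h2, h4]
  ring

theorem ep_zq {s : ℂ} (hs : 1 < s.re) :
    zq q s = LSeries (fun n => (1 : DirichletCharacter ℂ q) n) s := by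
  have h1 : s ≠ 1 := by
    rintro rfl
    simp at hs
  rw [← DirichletCharacter.LFunction_eq_LSeries _ hs]
  exact (DirichletCharacter.LFunctionTrivChar_eq_mul_riemannZeta h1).symm

/-- block EP: the untwisted series -/
theorem ts_one_pr {χ : DirichletCharacter ℂ q} (h : PQ χ) {r s z : ℂ} (hr : ‖r‖ ≤ 1 / 8)
    (hs : ‖s‖ ≤ 1 / 8) (hz : z.re = 3 / 2) :
    TS (xi χ z) (fun e => Qe χ e s r) 1 = DirichletCharacter.LFunction χ (1 + r + z) ^ 2 *
      zq q (1 + s + z) / zq q (2 + 2 * r + s + z) := by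
  have hr1 : |r.re| ≤ 1 / 8 := (Complex.abs_re_le_norm r).trans hr
  have hs1 : |s.re| ≤ 1 / 8 := (Complex.abs_re_le_norm s).trans hs
  rw [abs_le] at hr1 hs1
  have hz0 : z ≠ 0 := by
    rintro rfl
    norm_num at hz
  have h1 : TS (xi χ z) (fun e => Qe χ e s r) 1 = LSeries (fun e => χ e * Qe χ e s r) z := by
    unfold TS LSeries
    refine tsum_congr fun e => ?_
    rw [ep_tk]
    rcases eq_or_ne e 0 with rfl | he
    · rw [LSeries.term_zero]
      have h0 : ((0 : ℕ) : ℂ) ^ (-z) = 0 := by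
        rw [Nat.cast_zero, Complex.zero_cpow (neg_ne_zero.mpr hz0)]
      unfold xi
      rw [h0, mul_zero, zero_mul]
    · rw [LSeries.term_of_ne_zero he]
      unfold xi
      rw [Complex.cpow_neg]
      ring
  have ha : LSeriesSummable (fun n => (1 : DirichletCharacter ℂ q) n * (n : ℂ) ^ (-(1 + s))) z := by
    apply ep_sum
    apply DirichletCharacter.LSeriesSummable_of_one_lt_re
    simp only [Complex.add_re, Complex.one_re]
    linarith [hs1.1]
  have hw : 1 < (z + (2 + s + 2 * r)).re := by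
    simp only [Complex.add_re, Complex.mul_re, Complex.re_ofNat, Complex.im_ofNat]
    linarith [hs1.1, hr1.1]
  have hb : LSeriesSummable (fun n => ((1 : DirichletCharacter ℂ q) n *
        (ArithmeticFunction.moebius n : ℂ)) * (n : ℂ) ^ (-(2 + s + 2 * r))) z := by
    apply ep_sum
    exact DirichletCharacter.LSeriesSummable_mul 1
      (ArithmeticFunction.LSeriesSummable_moebius_iff.mpr hw)
  have hc : LSeriesSummable (fun n => χ n * (n : ℂ) ^ (-(1 + r))) z := by
    apply ep_sum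
    apply DirichletCharacter.LSeriesSummable_of_one_lt_re
    simp only [Complex.add_re, Complex.one_re]
    linarith [hr1.1]
  have h2 : (fun e : ℕ => χ e * Qe χ e s r) = LSeries.convolution
      (fun n => (1 : DirichletCharacter ℂ q) n * (n : ℂ) ^ (-(1 + s)))
      (LSeries.convolution (fun n => ((1 : DirichletCharacter ℂ q) n *
        (ArithmeticFunction.moebius n : ℂ)) * (n : ℂ) ^ (-(2 + s + 2 * r)))
      (LSeries.convolution (fun n => χ n * (n : ℂ) ^ (-(1 + r)))
        (fun n => χ n * (n : ℂ) ^ (-(1 + r))))) := by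
    funext e
    exact ep_qe h.sq r s e
  rw [h1, h2, LSeries_convolution' ha (hb.convolution (hc.convolution hc)),
    LSeries_convolution' hb (hc.convolution hc), LSeries_convolution' hc hc]
  rw [ep_ls, ep_ls, ep_ls]
  have h3 : LSeries (fun n => χ n) (z + (1 + r)) = DirichletCharacter.LFunction χ (1 + r + z) := by
    rw [DirichletCharacter.LFunction_eq_LSeries, add_comm]
    simp only [Complex.add_re, Complex.one_re]
    linarith [hr1.1]
  have h4 : LSeries (fun n => (1 : DirichletCharacter ℂ q) n) (z + (1 + s)) =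
      zq q (1 + s + z) := by
    rw [ep_zq, add_comm]
    simp only [Complex.add_re, Complex.one_re]
    linarith [hs1.1]
  have h5 : LSeries (fun n => (1 : DirichletCharacter ℂ q) n *
        (ArithmeticFunction.moebius n : ℂ)) (z + (2 + s + 2 * r)) =
      (zq q (2 + 2 * r + s + z))⁻¹ := by
    have h6 := DirichletCharacter.LSeries.mul_mu_eq_one (1 : DirichletCharacter ℂ q) hw
    have h7 : zq q (2 + 2 * r + s + z) =
        LSeries (fun n => (1 : DirichletCharacter ℂ q) n) (z + (2 + s + 2 * r)) := by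
      rw [← ep_zq hw]
      congr 1
      ring
    rw [h7]
    exact (eq_inv_of_mul_eq_one_right h6)
  rw [h3, h4, h5]
  ring

/-- block EP -/
theorem ts_one_lin_pr {χ : DirichletCharacter ℂ q} (hχ : χ ≠ 1) {z : ℂ} (hz : z.re = 3 / 2) :
    TS (xi χ z) (fun e => 1 / (e : ℂ)) 1 = DirichletCharacter.LFunction χ (1 + z) := by
  have hz0 : z ≠ 0 := by
    rintro rfl
    norm_num at hz
  rw [DirichletCharacter.LFunction_eq_LSeries]
  · unfold TS LSeries
    refine tsum_congr fun e => ?_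
    rw [ep_tk]
    rcases eq_or_ne e 0 with rfl | he
    · simp
    · have he' : (e : ℂ) ≠ 0 := by exact_mod_cast he
      rw [LSeries.term_of_ne_zero he]
      unfold xi
      rw [Complex.cpow_neg, Complex.cpow_add _ _ he', Complex.cpow_one]
      field_simp
  · simp only [Complex.add_re, Complex.one_re]
    linarith

end Pool.Agent.LE
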