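import Pool.Agent.Lib_helper53.LE.Defs

/-! LSP3, part E, block ET: Mellin transform of a smooth sum. -/

set_option autoImplicit false

namespace Pool.Agent.LE

open Complex MeasureTheory ProbabilityTheory
open Pool.Agent.LSP (tau MX CC CB sg1 wX)
open Pool.Agent.KSL (WW)
open Pool.Agent.LEV (Uu Um)
open Pool.Agent.LVB (IsST el)
open Pool.Agent.LK (Qe V PQ MW)

theorem et_int_exp : Integrable (fun u : ℝ => Real.exp (-|u|)) := by
  have h := exp_neg_integrableOn_Ioi 0 (b := 1) one_pos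
  rw [← integrableOn_univ, ← Set.Iic_union_Ioi (a := (0 : ℝ))]
  refine IntegrableOn.union ?_ ?_
  · refine (integrableOn_exp_Iic 0).congr_fun (fun u hu => ?_) measurableSet_Iic
    simp only [abs_of_nonpos (Set.mem_Iic.mp hu), neg_neg]
  · refine h.congr_fun (fun u hu => ?_) measurableSet_Ioi
    simp only [abs_of_pos (Set.mem_Ioi.mp hu)]
    congr 1
    ring

theorem mel_pr {w : ℝ → ℝ} {W : ℂ → ℂ} (hw : MW w W) {c : ℕ → ℂ} {C : ℝ} (hc0 : c 0 = 0)
    (hc : ∀ e, ‖c e‖ ≤ C) {Y : ℝ} (hY : 0 < Y) :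
    (Summable fun e : ℕ => ‖c e‖ * |w (e / Y)|) ∧
    ∑' e : ℕ, c e * (w (e / Y) : ℂ) = 1 / (2 * Real.pi) * ∫ t : ℝ, W (3 / 2 + t * I) *
      (Y : ℂ) ^ (3 / 2 + t * I : ℂ) * ∑' e : ℕ, c e * (e : ℂ) ^ (-(3 / 2 + t * I : ℂ)) := by
  have hre : ∀ t : ℝ, (3 / 2 + t * I : ℂ).re = 3 / 2 := fun t => by simp
  have him : ∀ t : ℝ, (3 / 2 + t * I : ℂ).im = t := fun t => by simp
  have hre' : ∀ t : ℝ, (-(3 / 2 + t * I : ℂ)).re = -(3 / 2) := fun t => by
    rw [Complex.neg_re, hre]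
  have hY0 : (Y : ℂ) ≠ 0 := by exact_mod_cast hY.ne'
  obtain ⟨C1, hC1⟩ := hw.bdd (3 / 2) (3 / 2) (by norm_num)
  have hWb : ∀ t : ℝ, ‖W (3 / 2 + t * I)‖ ≤ C1 * Real.exp (-|t|) := by
    intro t
    have := hC1 (3 / 2 + t * I) (hre t).ge (hre t).le
    rwa [him] at this
  have hWc : Continuous (fun t : ℝ => W (3 / 2 + t * I)) := by
    rw [continuous_iff_continuousAt]
    intro t
    have h1 : ContinuousAt W (3 / 2 + t * I) :=
      (hw.diff _ (by rw [hre]; norm_num)).continuousAt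
    have h2 : ContinuousAt (fun t : ℝ => (3 / 2 + t * I : ℂ)) t := by fun_prop
    exact ContinuousAt.comp (f := fun t : ℝ => (3 / 2 + t * I : ℂ)) (g := W) h1 h2
  have hWi : Integrable (fun t : ℝ => W (3 / 2 + t * I)) := by
    refine Integrable.mono' (et_int_exp.const_mul C1) hWc.aestronglyMeasurable ?_
    exact Filter.Eventually.of_forall hWb
  set F : ℕ → ℝ → ℂ := fun e t => W (3 / 2 + t * I) * (Y : ℂ) ^ (3 / 2 + t * I : ℂ) *
    (c e * (e : ℂ) ^ (-(3 / 2 + t * I : ℂ))) with hF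
  have hF0 : ∀ t, F 0 t = 0 := fun t => by simp [hF, hc0]
  have hFn : ∀ e : ℕ, 1 ≤ e → ∀ t, ‖F e t‖ =
      ‖c e‖ * (e : ℝ) ^ (-(3 / 2) : ℝ) * Y ^ (3 / 2 : ℝ) * ‖W (3 / 2 + t * I)‖ := by
    intro e he t
    simp only [hF]
    rw [norm_mul, norm_mul, norm_mul, Complex.norm_natCast_cpow_of_pos he,
      Complex.norm_cpow_eq_rpow_re_of_pos hY, hre, hre']
    ring
  have hFi : ∀ e, Integrable (F e) := by
    intro e
    rcases Nat.eq_zero_or_pos e with rfl | he
    · have : F 0 = fun _ => 0 := funext hF0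
      rw [this]; exact integrable_zero _ _ _
    · have hm : AEStronglyMeasurable (F e) := by
        have h1 : Continuous (fun t : ℝ => (Y : ℂ) ^ (3 / 2 + t * I : ℂ)) := by
          apply Continuous.const_cpow (by fun_prop)
          exact Or.inl hY0
        have h2 : Continuous (fun t : ℝ => (e : ℂ) ^ (-(3 / 2 + t * I : ℂ))) := by
          apply Continuous.const_cpow (by fun_prop)
          exact Or.inl (by exact_mod_cast he.ne')
        exact ((hWc.mul h1).mul (continuous_const.mul h2)).aestronglyMeasurable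
      refine Integrable.mono' (hWi.norm.const_mul
        (‖c e‖ * (e : ℝ) ^ (-(3 / 2) : ℝ) * Y ^ (3 / 2 : ℝ))) hm ?_
      exact Filter.Eventually.of_forall fun t => (hFn e he t).le
  set J : ℝ := ∫ t : ℝ, ‖W (3 / 2 + t * I)‖ with hJ
  have hJ0 : 0 ≤ J := integral_nonneg fun _ => norm_nonneg _
  have hIn : ∀ e : ℕ, 1 ≤ e → ∫ t, ‖F e t‖ =
      ‖c e‖ * (e : ℝ) ^ (-(3 / 2) : ℝ) * Y ^ (3 / 2 : ℝ) * J := by
    intro e he
    simp_rw [hFn e he]
    rw [integral_const_mul]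
  have hC0 : 0 ≤ C := (norm_nonneg _).trans (hc 0)
  have hs : Summable (fun e : ℕ => ∫ t, ‖F e t‖) := by
    have h1 : Summable (fun e : ℕ => (e : ℝ) ^ (-(3 / 2) : ℝ) * (C * Y ^ (3 / 2 : ℝ) * J)) :=
      (Real.summable_nat_rpow.2 (by norm_num)).mul_right _
    refine Summable.of_nonneg_of_le (fun e => integral_nonneg fun _ => norm_nonneg _) ?_ h1
    intro e
    rcases Nat.eq_zero_or_pos e with rfl | he
    · simp_rw [hF0]
      simp only [norm_zero, integral_zero]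
      positivity
    · rw [hIn e he]
      have h2 : 0 ≤ (e : ℝ) ^ (-(3 / 2) : ℝ) * (Y ^ (3 / 2 : ℝ) * J) := by positivity
      have h3 := mul_le_mul_of_nonneg_right (hc e) h2
      nlinarith
  have hsum := hasSum_integral_of_summable_integral_norm hFi hs
  -- the inversion formula
  have hterm : ∀ e : ℕ, c e * (w (e / Y) : ℂ) = 1 / (2 * Real.pi) * ∫ t, F e t := by
    intro e
    rcases Nat.eq_zero_or_pos e with rfl | he
    · simp_rw [hF0]
      simp [hc0]
    · have he0 : (0 : ℝ) < e := by exact_mod_cast he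
      have h1 := hw.inv (3 / 2) (by norm_num) (e / Y) (div_pos he0 hY)
      rw [h1, mul_left_comm, ← integral_const_mul]
      congr 1
      refine integral_congr_ae (Filter.Eventually.of_forall fun t => ?_)
      simp only [hF]
      have h2 : (((e : ℝ) / Y : ℝ) : ℂ) ^ (-((3 / 2 : ℝ) + t * I : ℂ)) =
          (Y : ℂ) ^ (3 / 2 + t * I : ℂ) * (e : ℂ) ^ (-(3 / 2 + t * I : ℂ)) := by
        have e1 : (-((3 / 2 : ℝ) + t * I : ℂ)) = -(3 / 2 + t * I : ℂ) := by push_cast; rfl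
        have e2 : (((e : ℝ) / Y : ℝ) : ℂ) = ((e : ℝ) : ℂ) * ((Y⁻¹ : ℝ) : ℂ) := by
          push_cast; rw [div_eq_mul_inv]
        rw [e1, e2, Complex.mul_cpow_ofReal_nonneg he0.le (inv_pos.2 hY).le]
        have e3 : ((Y⁻¹ : ℝ) : ℂ) ^ (-(3 / 2 + t * I : ℂ)) = (Y : ℂ) ^ (3 / 2 + t * I : ℂ) := by
          rw [Complex.ofReal_inv, Complex.inv_cpow _ _ (by
            rw [Complex.arg_ofReal_of_nonneg hY.le]; exact Real.pi_pos.ne), Complex.cpow_neg,
            inv_inv]
        rw [e3, Complex.ofReal_natCast, mul_comm]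
      have h3 : ((3 / 2 : ℝ) + t * I : ℂ) = (3 / 2 + t * I : ℂ) := by push_cast; rfl
      rw [h2, h3]
      ring
  constructor
  · have h1 : Summable (fun e : ℕ => 1 / (2 * Real.pi) * ∫ t, ‖F e t‖) := hs.mul_left _
    refine Summable.of_nonneg_of_le (fun e => by positivity) ?_ h1
    intro e
    have h2 : ‖c e‖ * |w (e / Y)| = ‖c e * (w (e / Y) : ℂ)‖ := by
      rw [norm_mul, Complex.norm_real, Real.norm_eq_abs]
    rw [h2, hterm e, norm_mul]
    have h3 : ‖(1 / (2 * Real.pi) : ℂ)‖ = 1 / (2 * Real.pi) := by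
      have : (1 / (2 * Real.pi) : ℂ) = ((1 / (2 * Real.pi) : ℝ) : ℂ) := by push_cast; rfl
      rw [this, Complex.norm_real, Real.norm_of_nonneg (by positivity)]
    rw [h3]
    exact mul_le_mul_of_nonneg_left (norm_integral_le_integral_norm _) (by positivity)
  · simp_rw [hterm]
    rw [tsum_mul_left, hsum.tsum_eq]
    congr 1
    refine integral_congr_ae (Filter.Eventually.of_forall fun t => ?_)
    simp only [hF]
    rw [tsum_mul_left]

end Pool.Agent.LE

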