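import Pool.Agent.Lib_helper53.LE.Defs
import Pool.Agent.Lib_helper19.H3.SH

/-! LSP3, part E, block EU: the residues at `0` and `-s`. -/

set_option autoImplicit false

namespace Pool.Agent.LE

open Complex MeasureTheory ProbabilityTheory
open Pool.Agent.LSP (tau MX CC CB sg1 wX)
open Pool.Agent.KSL (WW)
open Pool.Agent.LEV (Uu Um)
open Pool.Agent.LVB (IsST el)
open Pool.Agent.LK (Qe V PQ MW)
open Set Filter Topology

/-! ### the Gaussian -/

theorem eu_inner {c : ℝ} (x : ℝ) :
    ∫ t : ℝ, cexp ((c + t * I) ^ 2 - (c + t * I) * x) =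
      ((√Real.pi * Real.exp (-(1 / 4) * x ^ 2) : ℝ) : ℂ) := by
  have h1 := integral_cexp_quadratic (b := (-1 : ℂ)) (by simp) (I * (2 * c - x)) (c ^ 2 - c * x)
  have e1 : ∀ t : ℝ, cexp ((c + t * I) ^ 2 - (c + t * I) * x) =
      cexp ((-1 : ℂ) * (t : ℂ) ^ 2 + I * (2 * c - x) * t + (c ^ 2 - c * x)) := by
    intro t
    congr 1
    have : I ^ 2 = -1 := I_sq
    linear_combination (t : ℂ) ^ 2 * this
  simp only [e1]
  rw [h1]
  push_cast
  congr 1
  · rw [neg_neg, div_one, Real.sqrt_eq_rpow, ofReal_cpow Real.pi_pos.le]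
    norm_num
  · congr 1
    have : I ^ 2 = -1 := I_sq
    linear_combination (1 / 4 : ℂ) * (2 * c - x) ^ 2 * this

theorem eu_gauss {c : ℝ} (hc : 0 < c) :
    ∫ t : ℝ, cexp ((c + t * I) ^ 2) / (c + t * I) = (Real.pi : ℂ) := by
  have hre : ∀ t : ℝ, ((c : ℂ) + t * I).re = c := fun t => by simp
  have hne : ∀ t : ℝ, (c : ℂ) + t * I ≠ 0 := by
    intro t h
    have := congrArg Complex.re h
    rw [hre, zero_re] at this
    exact hc.ne' this
  have h1 : ∀ t : ℝ, cexp ((c + t * I) ^ 2) / (c + t * I) =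
      ∫ x in Ioi (0 : ℝ), cexp ((c + t * I) ^ 2 - (c + t * I) * x) := by
    intro t
    have h2 := integral_exp_mul_complex_Ioi (a := -((c : ℂ) + t * I)) (by
      rw [neg_re, hre]; linarith) 0
    have e : ∀ x : ℝ, cexp ((c + t * I) ^ 2 - (c + t * I) * x) =
        cexp ((c + t * I) ^ 2) * cexp (-((c : ℂ) + t * I) * x) := by
      intro x
      rw [← Complex.exp_add]
      congr 1
      ring
    simp only [e]
    rw [integral_const_mul, h2]
    have := hne t
    simp only [ofReal_zero, mul_zero, Complex.exp_zero]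
    field_simp
  simp only [h1]
  have hint : Integrable (Function.uncurry fun (t x : ℝ) =>
      cexp ((c + t * I) ^ 2 - (c + t * I) * x)) (volume.prod (volume.restrict (Ioi (0 : ℝ)))) := by
    have g1 : Integrable (fun t : ℝ => Real.exp (c ^ 2) * Real.exp (-(1 : ℝ) * t ^ 2)) :=
      (integrable_exp_neg_mul_sq one_pos).const_mul _
    have g2 : IntegrableOn (fun x : ℝ => Real.exp (-c * x)) (Ioi 0) := integrableOn_exp_mul_Ioi
      (by linarith) 0
    have g3 := Integrable.mul_prod g1 g2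
    refine Integrable.mono' g3 ?_ ?_
    · apply Continuous.aestronglyMeasurable
      unfold Function.uncurry
      fun_prop
    · refine Eventually.of_forall ?_
      rintro ⟨t, x⟩
      simp only [Function.uncurry]
      rw [Complex.norm_exp, ← Real.exp_add, ← Real.exp_add]
      apply Real.exp_le_exp.2
      apply le_of_eq
      simp only [sub_re, mul_re, add_re, ofReal_re, I_re, mul_zero, ofReal_im, I_im, mul_one,
        sub_self, add_zero, add_im, mul_im, zero_add, sq]
      ring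
  rw [integral_integral_swap hint]
  simp only [eu_inner]
  rw [integral_complex_ofReal, integral_const_mul, integral_gaussian_Ioi]
  congr 1
  have h3 : Real.pi / (1 / 4) = 2 ^ 2 * Real.pi := by ring
  rw [h3, Real.sqrt_mul (by norm_num), Real.sqrt_sq (by norm_num)]
  have h4 := Real.mul_self_sqrt Real.pi_pos.le
  linear_combination h4

theorem eu_gauss_neg {c : ℝ} (hc : 0 < c) :
    ∫ t : ℝ, cexp ((-(c : ℂ) + t * I) ^ 2) / (-(c : ℂ) + t * I) = -(Real.pi : ℂ) := by
  rw [← eu_gauss hc, ← integral_neg,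
    ← integral_neg_eq_self (fun t : ℝ => cexp ((-(c : ℂ) + t * I) ^ 2) / (-(c : ℂ) + t * I))]
  apply integral_congr_ae
  refine Eventually.of_forall (fun t => ?_)
  simp only
  push_cast
  have e1 : -(c : ℂ) + -(t : ℂ) * I = -(c + t * I) := by ring
  rw [e1, neg_sq, div_neg]

/-- the Gaussian with a pole at `a`, on the right -/
theorem eu_ga {c : ℝ} {a : ℂ} (h : a.re < c) :
    ∫ t : ℝ, cexp ((c + t * I - a) ^ 2) / (c + t * I - a) = (Real.pi : ℂ) := by
  have h1 := eu_gauss (c := c - a.re) (by linarith)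
  rw [← integral_sub_right_eq_self _ a.im] at h1
  rw [← h1]
  apply integral_congr_ae
  refine Eventually.of_forall (fun t => ?_)
  simp only
  have e1 : (c : ℂ) + t * I - a = ((c - a.re : ℝ) : ℂ) + ((t - a.im : ℝ) : ℂ) * I := by
    apply Complex.ext <;> simp
  rw [e1]

/-- the Gaussian with a pole at `a`, on the left -/
theorem eu_gb {c : ℝ} {a : ℂ} (h : c < a.re) :
    ∫ t : ℝ, cexp ((c + t * I - a) ^ 2) / (c + t * I - a) = -(Real.pi : ℂ) := by
  have h1 := eu_gauss_neg (c := a.re - c) (by linarith)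
  rw [← integral_sub_right_eq_self _ a.im] at h1
  rw [← h1]
  apply integral_congr_ae
  refine Eventually.of_forall (fun t => ?_)
  simp only
  have e1 : (c : ℂ) + t * I - a = -((a.re - c : ℝ) : ℂ) + ((t - a.im : ℝ) : ℂ) * I := by
    apply Complex.ext <;> simp
  rw [e1]

theorem eu_exp_bd {a s : ℂ} (ha : ‖a‖ < 1 / 4) (h1 : -(1 / 4) ≤ s.re) (h2 : s.re ≤ 3 / 2) :
    ‖cexp ((s - a) ^ 2)‖ ≤ Real.exp 5 * Real.exp (-(1 / 2 * |s.im|)) := by
  rw [Complex.norm_exp, ← Real.exp_add]
  apply Real.exp_le_exp.2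
  have e1 : ((s - a) ^ 2).re = (s.re - a.re) ^ 2 - (s.im - a.im) ^ 2 := by
    rw [sq, mul_re, sub_re, sub_im]; ring
  rw [e1]
  have a1 := abs_lt.1 ((abs_re_le_norm a).trans_lt ha)
  have a2 := (abs_im_le_norm a).trans_lt ha
  have h3 : (s.re - a.re) ^ 2 ≤ 4 := by nlinarith
  have h4 : |s.im| ≤ |s.im - a.im| + |a.im| := by
    calc |s.im| = |(s.im - a.im) + a.im| := by ring_nf
      _ ≤ _ := abs_add_le _ _
  nlinarith [sq_nonneg (|s.im - a.im| - 1 / 4), sq_abs (s.im - a.im)]

/-! ### one line -/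

theorem eu_line {H : ℂ → ℂ} {C : ℝ} (hd : ∀ z : ℂ, -(3 / 10) < z.re → z.re < 8 / 5 →
      DifferentiableAt ℂ H z)
    (hb : ∀ z : ℂ, -(3 / 10) < z.re → z.re < 8 / 5 → ‖H z‖ ≤ C * Real.exp (-|z.im| / 2))
    {c : ℝ} (h1 : -(3 / 10) < c) (h2 : c < 8 / 5) {g : ℂ → ℂ} {m : ℝ}
    (hg : ∀ z : ℂ, z.re = c → DifferentiableAt ℂ g z) (hgb : ∀ z : ℂ, z.re = c → ‖g z‖ ≤ m) :
    Integrable (fun t : ℝ => H (c + t * I) * g (c + t * I)) := by
  have hC : 0 ≤ C := by
    have := (norm_nonneg _).trans (hb 0 (by norm_num) (by norm_num))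
    simpa using this
  refine Pool.Agent.H3.sh_vert (f := fun s => H s * g s) (x := c) (C := C * m)
    (c := 1 / 2) (by norm_num) (fun s hs => (hd s (by rw [hs]; exact h1)
      (by rw [hs]; exact h2)).mul (hg s hs)) (fun s hs => ?_)
  rw [norm_mul]
  calc ‖H s‖ * ‖g s‖ ≤ (C * Real.exp (-|s.im| / 2)) * m :=
        mul_le_mul (hb s (by rw [hs]; exact h1) (by rw [hs]; exact h2)) (hgb s hs)
          (norm_nonneg _) (by positivity)
    _ = C * m * Real.exp (-(1 / 2 * |s.im|)) := by
        have : -|s.im| / 2 = -(1 / 2 * |s.im|) := by ring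
        rw [this]; ring

/-! ### one simple pole -/

theorem eu_pole {H : ℂ → ℂ} {C : ℝ} (hd : ∀ z : ℂ, -(3 / 10) < z.re → z.re < 8 / 5 →
      DifferentiableAt ℂ H z)
    (hb : ∀ z : ℂ, -(3 / 10) < z.re → z.re < 8 / 5 → ‖H z‖ ≤ C * Real.exp (-|z.im| / 2))
    {a : ℂ} (ha : ‖a‖ < 1 / 4) :
    (∫ t : ℝ, H (((3 / 2 : ℝ) : ℂ) + t * I) / (((3 / 2 : ℝ) : ℂ) + t * I - a)) -
      (∫ t : ℝ, H (((-(1 / 4) : ℝ) : ℂ) + t * I) / (((-(1 / 4) : ℝ) : ℂ) + t * I - a)) =
      2 * Real.pi * H a := by
  have are := abs_lt.1 ((abs_re_le_norm a).trans_lt ha)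
  have aim := (abs_im_le_norm a).trans_lt ha
  set f : ℂ → ℂ := fun s => H s - H a * cexp ((s - a) ^ 2) with hf
  have hfa : f a = 0 := by simp [hf]
  set U : Set ℂ := {s : ℂ | -(3 / 10) < s.re} ∩ {s : ℂ | s.re < 8 / 5} with hU
  have hopen : IsOpen U :=
    (isOpen_lt continuous_const continuous_re).inter (isOpen_lt continuous_re continuous_const)
  have hUm : ∀ s : ℂ, -(3 / 10) < s.re → s.re < 8 / 5 → s ∈ U := fun s h1 h2 => ⟨h1, h2⟩
  have hfd' : DifferentiableOn ℂ f U := fun s hs =>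
    ((hd s hs.1 hs.2).sub (by fun_prop)).differentiableWithinAt
  have haU : U ∈ 𝓝 a := hopen.mem_nhds (hUm a (by linarith) (by linarith))
  have hkd : DifferentiableOn ℂ (dslope f a) U := (Complex.differentiableOn_dslope haU).2 hfd'
  have hkd' : ∀ s : ℂ, -(3 / 10) < s.re → s.re < 8 / 5 → DifferentiableAt ℂ (dslope f a) s :=
    fun s h1 h2 => (hkd s (hUm s h1 h2)).differentiableAt (hopen.mem_nhds (hUm s h1 h2))
  have hC : 0 ≤ C := by
    have := (norm_nonneg _).trans (hb 0 (by norm_num) (by norm_num))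
    simpa using this
  set D : ℝ := C + ‖H a‖ * Real.exp 5 with hD
  have hD0 : 0 ≤ D := by positivity
  have hfb : ∀ s : ℂ, -(1 / 4) ≤ s.re → s.re ≤ 3 / 2 →
      ‖f s‖ ≤ D * Real.exp (-(1 / 2 * |s.im|)) := by
    intro s h1 h2
    have h3 := hb s (by linarith) (by linarith)
    have h4 := eu_exp_bd ha h1 h2
    have e : -|s.im| / 2 = -(1 / 2 * |s.im|) := by ring
    rw [e] at h3
    calc ‖f s‖ ≤ ‖H s‖ + ‖H a * cexp ((s - a) ^ 2)‖ := norm_sub_le _ _
      _ ≤ C * Real.exp (-(1 / 2 * |s.im|)) +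
          ‖H a‖ * (Real.exp 5 * Real.exp (-(1 / 2 * |s.im|))) := by
          rw [norm_mul]
          exact add_le_add h3 (mul_le_mul_of_nonneg_left h4 (norm_nonneg _))
      _ = D * Real.exp (-(1 / 2 * |s.im|)) := by rw [hD]; ring
  have hcpt : IsCompact (Icc (-(1 / 4) : ℝ) (3 / 2) ×ℂ Icc (-2 : ℝ) 2) :=
    isCompact_Icc.reProdIm isCompact_Icc
  have hcont : ContinuousOn (dslope f a) (Icc (-(1 / 4) : ℝ) (3 / 2) ×ℂ Icc (-2 : ℝ) 2) := by
    intro s hs
    rw [mem_reProdIm] at hs
    have h1 := hs.1.1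
    have h2 := hs.1.2
    exact (hkd' s (by linarith) (by linarith)).continuousAt.continuousWithinAt
  obtain ⟨K, hK⟩ := hcpt.exists_bound_of_continuousOn hcont
  have hK0 : 0 ≤ K := (norm_nonneg _).trans (hK 0 (by
    rw [mem_reProdIm]; constructor <;> constructor <;> norm_num))
  have hkb : ∀ s : ℂ, -(1 / 4) ≤ s.re → s.re ≤ 3 / 2 →
      ‖dslope f a s‖ ≤ (K * Real.exp 1 + D) * Real.exp (-(1 / 2 * |s.im|)) := by
    intro s h1 h2
    by_cases h3 : |s.im| ≤ 2
    · have h4 := hK s (by
        rw [mem_reProdIm]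
        exact ⟨⟨h1, h2⟩, abs_le.1 h3⟩)
      calc ‖dslope f a s‖ ≤ K * 1 := by rw [mul_one]; exact h4
        _ ≤ K * (Real.exp 1 * Real.exp (-(1 / 2 * |s.im|))) := by
            apply mul_le_mul_of_nonneg_left _ hK0
            rw [← Real.exp_add]
            apply Real.one_le_exp
            linarith
        _ ≤ (K * Real.exp 1 + D) * Real.exp (-(1 / 2 * |s.im|)) := by
            have := mul_nonneg hD0 (Real.exp_pos (-(1 / 2 * |s.im|))).le
            nlinarith
    · push Not at h3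
      have h4 : |s.im| ≤ |s.im - a.im| + |a.im| := by
        calc |s.im| = |(s.im - a.im) + a.im| := by ring_nf
          _ ≤ _ := abs_add_le _ _
      have h5 : (1 : ℝ) ≤ ‖s - a‖ := by
        have := abs_im_le_norm (s - a)
        rw [sub_im] at this
        linarith
      have hs0 : s ≠ a := by
        intro h0
        rw [h0, sub_self, norm_zero] at h5
        linarith
      rw [dslope_of_ne _ hs0, slope_def_field, hfa, sub_zero, norm_div]
      calc ‖f s‖ / ‖s - a‖ ≤ ‖f s‖ := div_le_self (norm_nonneg _) h5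
        _ ≤ D * Real.exp (-(1 / 2 * |s.im|)) := hfb s h1 h2
        _ ≤ (K * Real.exp 1 + D) * Real.exp (-(1 / 2 * |s.im|)) := by
            apply mul_le_mul_of_nonneg_right _ (Real.exp_pos _).le
            have := mul_nonneg hK0 (Real.exp_pos 1).le
            linarith
  obtain ⟨_, _, hshift⟩ := Pool.Agent.H3.vert_shift_pr (f := dslope f a) (a := -(1 / 4))
    (b := 3 / 2) (c := 1 / 2) (by norm_num) (by norm_num) (fun s h1 h2 =>
      hkd' s (by linarith) (by linarith)) hkb
  -- the two lines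
  have hline : ∀ c : ℝ, -(1 / 4) ≤ c → c ≤ 3 / 2 → c ≠ a.re → ∫ t : ℝ, dslope f a (c + t * I) =
      (∫ t : ℝ, H (c + t * I) / (c + t * I - a)) -
        H a * ∫ t : ℝ, cexp ((c + t * I - a) ^ 2) / (c + t * I - a) := by
    intro c hc1 hc2 hca
    have hne : ∀ z : ℂ, z.re = c → z - a ≠ 0 := by
      intro z hz h
      have := congrArg Complex.re h
      rw [sub_re, zero_re, hz] at this
      exact hca (by linarith)
    have hne' : ∀ t : ℝ, (c : ℂ) + t * I ≠ a := by
      intro t h
      exact hne (c + t * I) (by simp) (by rw [h, sub_self])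
    have hm0 : 0 < |c - a.re| := abs_pos.2 (sub_ne_zero.2 hca)
    have hinvd : ∀ z : ℂ, z.re = c → DifferentiableAt ℂ (fun z => (z - a)⁻¹) z := fun z hz =>
      (differentiableAt_id.sub_const a).inv (hne z hz)
    have hinvb : ∀ z : ℂ, z.re = c → ‖(z - a)⁻¹‖ ≤ |c - a.re|⁻¹ := by
      intro z hz
      rw [norm_inv]
      apply inv_anti₀ hm0
      have := abs_re_le_norm (z - a)
      rwa [sub_re, hz] at this
    have j1 := eu_line hd hb (c := c) (by linarith) (by linarith) hinvd hinvb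
    have j3 : Integrable (fun t : ℝ => cexp ((c + t * I - a) ^ 2) * (c + t * I - a)⁻¹) := by
      refine Pool.Agent.H3.sh_vert (f := fun s => cexp ((s - a) ^ 2) * (s - a)⁻¹) (x := c)
        (C := Real.exp 5 * |c - a.re|⁻¹) (c := 1 / 2) (by norm_num)
        (fun s hs => DifferentiableAt.mul (by fun_prop) (hinvd s hs)) (fun s hs => ?_)
      rw [norm_mul]
      calc ‖cexp ((s - a) ^ 2)‖ * ‖(s - a)⁻¹‖ ≤
            (Real.exp 5 * Real.exp (-(1 / 2 * |s.im|))) * |c - a.re|⁻¹ :=
            mul_le_mul (eu_exp_bd ha (by rw [hs]; exact hc1) (by rw [hs]; exact hc2))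
              (hinvb s hs) (norm_nonneg _) (by positivity)
        _ = _ := by ring
    simp only [div_eq_mul_inv]
    rw [← integral_const_mul, ← integral_sub j1 (j3.const_mul _)]
    apply integral_congr_ae
    refine Eventually.of_forall (fun t => ?_)
    simp only
    rw [dslope_of_ne _ (hne' t), slope_def_field, hfa, sub_zero, hf]
    simp only
    rw [div_eq_mul_inv]
    ring
  have l1 := hline (3 / 2) (by norm_num) (by norm_num) (by linarith)
  have l2 := hline (-(1 / 4)) (by norm_num) (by norm_num) (by linarith)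
  rw [eu_ga (c := 3 / 2) (a := a) (by linarith)] at l1
  rw [eu_gb (c := -(1 / 4)) (a := a) (by linarith)] at l2
  rw [l1, l2] at hshift
  linear_combination -hshift

/-! ### the circle -/

theorem eu_zero {s : ℂ} {ρ : ℝ} (hs : ‖s‖ < ρ) (n : ℕ) :
    ∮ w in C(0, ρ), (w ^ (n + 1) * (w + s))⁻¹ = 0 := by
  have hρ0 : 0 < ρ := (norm_nonneg _).trans_lt hs
  have hsph : ∀ w ∈ Metric.sphere (0 : ℂ) ρ, w ≠ 0 ∧ w + s ≠ 0 := by
    intro w hw
    rw [mem_sphere_zero_iff_norm] at hw
    constructor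
    · intro h
      rw [h, norm_zero] at hw
      exact hρ0.ne hw
    · intro h
      have : w = -s := by linear_combination h
      rw [this, norm_neg] at hw
      exact hs.ne hw
  by_cases h0 : s = 0
  · subst h0
    have := circleIntegral.integral_sub_zpow_of_ne (n := -((n : ℤ) + 2)) (by omega) 0 0 ρ
    refine Eq.trans (circleIntegral.integral_congr hρ0.le ?_) this
    intro w hw
    have hw0 := (hsph w hw).1
    simp only [add_zero, sub_zero]
    rw [zpow_neg, ← pow_succ]
    congr 1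
  · have hpow : ∀ m : ℕ, CircleIntegrable (fun w : ℂ => (w ^ m)⁻¹) 0 ρ := by
      intro m
      apply ContinuousOn.circleIntegrable hρ0.le
      exact ContinuousOn.inv₀ (by fun_prop) (fun w hw => pow_ne_zero _ (hsph w hw).1)
    have hpow' : ∀ m : ℕ, CircleIntegrable (fun w : ℂ => (w ^ m * (w + s))⁻¹) 0 ρ := by
      intro m
      apply ContinuousOn.circleIntegrable hρ0.le
      exact ContinuousOn.inv₀ (by fun_prop)
        (fun w hw => mul_ne_zero (pow_ne_zero _ (hsph w hw).1) (hsph w hw).2)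
    have hstep : ∀ m : ℕ, ∮ w in C(0, ρ), (w ^ (m + 1) * (w + s))⁻¹ =
        s⁻¹ * ((∮ w in C(0, ρ), (w ^ (m + 1))⁻¹) - ∮ w in C(0, ρ), (w ^ m * (w + s))⁻¹) := by
      intro m
      rw [← circleIntegral.integral_sub (hpow _) (hpow' _), ← circleIntegral.integral_const_mul]
      apply circleIntegral.integral_congr hρ0.le
      intro w hw
      obtain ⟨hw0, hws⟩ := hsph w hw
      simp only
      field_simp
      ring
    induction n with
    | zero =>
      rw [hstep]
      have h1 := circleIntegral.integral_sub_inv_of_mem_ball (c := 0) (w := (0 : ℂ)) (R := ρ)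
        (Metric.mem_ball_self hρ0)
      have h2 := circleIntegral.integral_sub_inv_of_mem_ball (c := 0) (w := -s) (R := ρ)
        (by rw [Metric.mem_ball, dist_zero_right, norm_neg]; exact hs)
      simp only [sub_zero, sub_neg_eq_add] at h1 h2
      simp only [zero_add, pow_one, pow_zero, one_mul]
      rw [h1, h2, sub_self, mul_zero]
    | succ n ih =>
      rw [hstep, ih, sub_zero]
      have := circleIntegral.integral_sub_zpow_of_ne (n := -((n : ℤ) + 2)) (by omega) 0 0 ρ
      have h3 : ∮ w in C(0, ρ), (w ^ (n + 1 + 1))⁻¹ = 0 := by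
        refine Eq.trans (circleIntegral.integral_congr hρ0.le ?_) this
        intro w hw
        simp only [sub_zero]
        rw [zpow_neg]
        congr 1
      rw [h3, mul_zero]

theorem eu_rat {s : ℂ} {ρ : ℝ} (hs : ‖s‖ < ρ) {z : ℂ} (hz : ρ < ‖z‖) (n : ℕ) :
    ∮ w in C(0, ρ), (w ^ n * (w + s))⁻¹ * (z - w)⁻¹ =
      2 * Real.pi * I * (z ^ n * (z + s))⁻¹ := by
  have hρ0 : 0 < ρ := (norm_nonneg _).trans_lt hs
  have hz0 : z ≠ 0 := by
    intro h
    rw [h, norm_zero] at hz
    linarith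
  have hzs : z + s ≠ 0 := by
    intro h
    have : z = -s := by linear_combination h
    rw [this, norm_neg] at hz
    linarith
  have hsph : ∀ w ∈ Metric.sphere (0 : ℂ) ρ, w ≠ 0 ∧ w + s ≠ 0 ∧ z - w ≠ 0 := by
    intro w hw
    rw [mem_sphere_zero_iff_norm] at hw
    refine ⟨?_, ?_, ?_⟩
    · intro h
      rw [h, norm_zero] at hw
      exact hρ0.ne hw
    · intro h
      have : w = -s := by linear_combination h
      rw [this, norm_neg] at hw
      exact hs.ne hw
    · intro h
      have : z = w := by linear_combination h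
      rw [this, hw] at hz
      exact lt_irrefl _ hz
  have c1 : ∀ m : ℕ, CircleIntegrable (fun w : ℂ => (w ^ m * (w + s))⁻¹) 0 ρ := by
    intro m
    apply ContinuousOn.circleIntegrable hρ0.le
    exact ContinuousOn.inv₀ (by fun_prop)
      (fun w hw => mul_ne_zero (pow_ne_zero _ (hsph w hw).1) (hsph w hw).2.1)
  have c2 : CircleIntegrable (fun w : ℂ => (z - w)⁻¹) 0 ρ := by
    apply ContinuousOn.circleIntegrable hρ0.le
    exact ContinuousOn.inv₀ (by fun_prop) (fun w hw => (hsph w hw).2.2)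
  have c3 : ∀ m : ℕ, CircleIntegrable (fun w : ℂ => (w ^ m * (w + s))⁻¹ * (z - w)⁻¹) 0 ρ := by
    intro m
    apply ContinuousOn.circleIntegrable hρ0.le
    exact (ContinuousOn.inv₀ (by fun_prop)
      (fun w hw => mul_ne_zero (pow_ne_zero _ (hsph w hw).1) (hsph w hw).2.1)).mul
        (ContinuousOn.inv₀ (by fun_prop) (fun w hw => (hsph w hw).2.2))
  induction n with
  | zero =>
    have e1 : ∮ w in C(0, ρ), (w ^ 0 * (w + s))⁻¹ * (z - w)⁻¹ =
        (z + s)⁻¹ * ((∮ w in C(0, ρ), (w ^ 0 * (w + s))⁻¹) + ∮ w in C(0, ρ), (z - w)⁻¹) := by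
      rw [← circleIntegral.integral_add (c1 0) c2, ← circleIntegral.integral_const_mul]
      apply circleIntegral.integral_congr hρ0.le
      intro w hw
      obtain ⟨hw0, hws, hzw⟩ := hsph w hw
      simp only [pow_zero, one_mul]
      field_simp
      ring
    have h2 := circleIntegral.integral_sub_inv_of_mem_ball (c := 0) (w := -s) (R := ρ)
      (by rw [Metric.mem_ball, dist_zero_right, norm_neg]; exact hs)
    simp only [sub_neg_eq_add] at h2
    have h3 : ∮ w in C(0, ρ), (z - w)⁻¹ = 0 := by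
      apply DiffContOnCl.circleIntegral_eq_zero hρ0.le
      apply DifferentiableOn.diffContOnCl
      intro w hw
      apply DifferentiableAt.differentiableWithinAt
      rw [closure_ball _ hρ0.ne', mem_closedBall_zero_iff] at hw
      apply DifferentiableAt.inv (by fun_prop)
      intro h
      have : z = w := by linear_combination h
      rw [this] at hz
      linarith
    rw [e1, h3, add_zero]
    simp only [pow_zero, one_mul]
    rw [h2]
    ring
  | succ n ih =>
    have e1 : ∮ w in C(0, ρ), (w ^ (n + 1) * (w + s))⁻¹ * (z - w)⁻¹ =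
        z⁻¹ * ((∮ w in C(0, ρ), (w ^ (n + 1) * (w + s))⁻¹) +
          ∮ w in C(0, ρ), (w ^ n * (w + s))⁻¹ * (z - w)⁻¹) := by
      rw [← circleIntegral.integral_add (c1 _) (c3 _), ← circleIntegral.integral_const_mul]
      apply circleIntegral.integral_congr hρ0.le
      intro w hw
      obtain ⟨hw0, hws, hzw⟩ := hsph w hw
      simp only
      field_simp
      ring
    rw [e1, ih, eu_zero hs, zero_add]
    field_simp
    ring

/-! ### the block -/

theorem eu_main {H : ℂ → ℂ} {C : ℝ} (hd : ∀ z : ℂ, -(3 / 10) < z.re → z.re < 8 / 5 →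
      DifferentiableAt ℂ H z)
    (hb : ∀ z : ℂ, -(3 / 10) < z.re → z.re < 8 / 5 → ‖H z‖ ≤ C * Real.exp (-|z.im| / 2)) (i : ℕ)
    {s : ℂ} {ρ : ℝ} (hs : ‖s‖ < ρ) (hρ : ρ < 1 / 4) :
    ∫ t : ℝ, (H (((3 / 2 : ℝ) : ℂ) + t * I) * ((((3 / 2 : ℝ) : ℂ) + t * I) ^ (i + 1) *
        (((3 / 2 : ℝ) : ℂ) + t * I + s))⁻¹ -
      H (((-(1 / 4) : ℝ) : ℂ) + t * I) * ((((-(1 / 4) : ℝ) : ℂ) + t * I) ^ (i + 1) *
        (((-(1 / 4) : ℝ) : ℂ) + t * I + s))⁻¹) =
      I⁻¹ * ∮ z in C(0, ρ), H z / (z ^ (i + 1) * (z + s)) := by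
  have hρ0 : 0 < ρ := (norm_nonneg _).trans_lt hs
  have hC : 0 ≤ C := by
    have := (norm_nonneg _).trans (hb 0 (by norm_num) (by norm_num))
    simpa using this
  set p : ℝ → ℂ := fun t => ((3 / 2 : ℝ) : ℂ) + t * I with hp
  set m : ℝ → ℂ := fun t => ((-(1 / 4) : ℝ) : ℂ) + t * I with hm
  have pre : ∀ t, (p t).re = 3 / 2 := fun t => by simp [hp]
  have mre : ∀ t, (m t).re = -(1 / 4) := fun t => by simp [hm]
  have pim : ∀ t, (p t).im = t := fun t => by simp [hp]
  have mim : ∀ t, (m t).im = t := fun t => by simp [hm]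
  have pn : ∀ t, 3 / 2 ≤ ‖p t‖ := fun t => by
    have := abs_re_le_norm (p t)
    rw [pre, abs_of_pos (by norm_num)] at this
    exact this
  have mn : ∀ t, 1 / 4 ≤ ‖m t‖ := fun t => by
    have := abs_re_le_norm (m t)
    rw [mre, abs_neg, abs_of_pos (by norm_num)] at this
    exact this
  have wn : ∀ θ, ‖circleMap 0 ρ θ‖ = ρ := fun θ => by
    rw [norm_circleMap_zero, abs_of_pos hρ0]
  have w0 : ∀ θ, circleMap 0 ρ θ ≠ 0 := fun θ h => by
    have := wn θ
    rw [h, norm_zero] at this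
    exact hρ0.ne this
  have ws : ∀ θ, circleMap 0 ρ θ + s ≠ 0 := fun θ h => by
    have h1 : circleMap 0 ρ θ = -s := by linear_combination h
    have := wn θ
    rw [h1, norm_neg] at this
    exact hs.ne this
  have far : ∀ (z : ℂ) (θ : ℝ), 1 / 4 ≤ ‖z‖ → 1 / 4 - ρ ≤ ‖z - circleMap 0 ρ θ‖ := by
    intro z θ hz
    have := norm_sub_norm_le z (circleMap 0 ρ θ)
    rw [wn] at this
    linarith
  have hδ : 0 < 1 / 4 - ρ := by linarith
  have pw : ∀ t θ, p t - circleMap 0 ρ θ ≠ 0 := fun t θ h => by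
    have := far (p t) θ ((by norm_num : (1 : ℝ) / 4 ≤ 3 / 2).trans (pn t))
    rw [h, norm_zero] at this
    linarith
  have mw : ∀ t θ, m t - circleMap 0 ρ θ ≠ 0 := fun t θ h => by
    have := far (m t) θ (mn t)
    rw [h, norm_zero] at this
    linarith
  set R : ℂ → ℂ := fun w => (w ^ (i + 1) * (w + s))⁻¹ with hR
  set G : ℝ → ℂ → ℂ := fun t w => H (p t) * (p t - w)⁻¹ - H (m t) * (m t - w)⁻¹ with hG
  have pcont : Continuous p := by rw [hp]; fun_prop
  have mcont : Continuous m := by rw [hm]; fun_prop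
  have Hp : Continuous fun t => H (p t) := by
    rw [continuous_iff_continuousAt]
    intro t
    exact ContinuousAt.comp (f := p) (hd (p t) (by rw [pre]; norm_num)
      (by rw [pre]; norm_num)).continuousAt pcont.continuousAt
  have Hm : Continuous fun t => H (m t) := by
    rw [continuous_iff_continuousAt]
    intro t
    exact ContinuousAt.comp (f := m) (hd (m t) (by rw [mre]; norm_num)
      (by rw [mre]; norm_num)).continuousAt mcont.continuousAt
  have wcont : Continuous fun θ : ℝ => circleMap 0 ρ θ := continuous_circleMap 0 ρ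
  have Rcont : Continuous fun θ : ℝ => R (circleMap 0 ρ θ) := by
    rw [hR]
    exact Continuous.inv₀ ((wcont.pow _).mul (wcont.add continuous_const))
      (fun θ => mul_ne_zero (pow_ne_zero _ (w0 θ)) (ws θ))
  have Gcont : Continuous fun x : ℝ × ℝ => G x.1 (circleMap 0 ρ x.2) := by
    rw [hG]
    apply Continuous.sub
    · exact (Hp.comp continuous_fst).mul (Continuous.inv₀
        ((pcont.comp continuous_fst).sub (wcont.comp continuous_snd)) (fun x => pw x.1 x.2))
    · exact (Hm.comp continuous_fst).mul (Continuous.inv₀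
        ((mcont.comp continuous_fst).sub (wcont.comp continuous_snd)) (fun x => mw x.1 x.2))
  have Gb : ∀ t θ, ‖G t (circleMap 0 ρ θ)‖ ≤
      2 * C * (1 / 4 - ρ)⁻¹ * Real.exp (-(1 / 2 * |t|)) := by
    intro t θ
    have b1 := hb (p t) (by rw [pre]; norm_num) (by rw [pre]; norm_num)
    have b2 := hb (m t) (by rw [mre]; norm_num) (by rw [mre]; norm_num)
    rw [pim] at b1
    rw [mim] at b2
    have e : -|t| / 2 = -(1 / 2 * |t|) := by ring
    rw [e] at b1 b2
    have d1 : ‖(p t - circleMap 0 ρ θ)⁻¹‖ ≤ (1 / 4 - ρ)⁻¹ := by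
      rw [norm_inv]
      exact inv_anti₀ hδ (far (p t) θ ((by norm_num : (1 : ℝ) / 4 ≤ 3 / 2).trans (pn t)))
    have d2 : ‖(m t - circleMap 0 ρ θ)⁻¹‖ ≤ (1 / 4 - ρ)⁻¹ := by
      rw [norm_inv]
      exact inv_anti₀ hδ (far (m t) θ (mn t))
    calc ‖G t (circleMap 0 ρ θ)‖ ≤ ‖H (p t) * (p t - circleMap 0 ρ θ)⁻¹‖ +
          ‖H (m t) * (m t - circleMap 0 ρ θ)⁻¹‖ := norm_sub_le _ _
      _ ≤ C * Real.exp (-(1 / 2 * |t|)) * (1 / 4 - ρ)⁻¹ +
          C * Real.exp (-(1 / 2 * |t|)) * (1 / 4 - ρ)⁻¹ := by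
          rw [norm_mul, norm_mul]
          exact add_le_add (mul_le_mul b1 d1 (norm_nonneg _) (by positivity))
            (mul_le_mul b2 d2 (norm_nonneg _) (by positivity))
      _ = _ := by ring
  obtain ⟨K, hK⟩ : ∃ K : ℝ, ∀ θ : ℝ,
      ‖deriv (circleMap 0 ρ) θ * R (circleMap 0 ρ θ)‖ ≤ K := by
    refine ⟨ρ * (ρ ^ (i + 1) * (ρ - ‖s‖))⁻¹, fun θ => ?_⟩
    rw [norm_mul, deriv_circleMap, norm_mul, norm_I, mul_one, wn]
    apply mul_le_mul_of_nonneg_left _ hρ0.le
    simp only [hR]
    rw [norm_inv, norm_mul, norm_pow, wn]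
    have hsr : 0 < ρ - ‖s‖ := by linarith
    apply inv_anti₀ (by positivity)
    apply mul_le_mul_of_nonneg_left _ (by positivity)
    have := norm_sub_norm_le (circleMap 0 ρ θ) (-s)
    rw [sub_neg_eq_add, norm_neg, wn] at this
    exact this
  have hK0 : 0 ≤ K := (norm_nonneg _).trans (hK 0)
  -- product integrability
  have hint : Integrable (Function.uncurry fun (t θ : ℝ) =>
      deriv (circleMap 0 ρ) θ • (R (circleMap 0 ρ θ) * G t (circleMap 0 ρ θ)))
      (volume.prod (volume.restrict (Ioc (0 : ℝ) (2 * Real.pi)))) := by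
    have g1 : Integrable (fun t : ℝ => 2 * C * (1 / 4 - ρ)⁻¹ * Real.exp (-(1 / 2 * |t|))) :=
      (Pool.Agent.H3.sh_integrable (by norm_num : (0 : ℝ) < 1 / 2)).const_mul _
    have g2 : Integrable (fun _ : ℝ => K) (volume.restrict (Ioc (0 : ℝ) (2 * Real.pi))) :=
      integrable_const K
    have g3 := Integrable.mul_prod g1 g2
    refine Integrable.mono' g3 ?_ ?_
    · apply Continuous.aestronglyMeasurable
      unfold Function.uncurry
      simp only [deriv_circleMap]
      exact ((wcont.comp continuous_snd).mul continuous_const).smul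
        ((Rcont.comp continuous_snd).mul Gcont)
    · refine Eventually.of_forall (fun x => ?_)
      simp only [Function.uncurry]
      rw [smul_eq_mul, ← mul_assoc, norm_mul, mul_comm]
      exact mul_le_mul (Gb x.1 x.2) (hK x.2) (norm_nonneg _) (by positivity)
  -- the inner circle integral
  have hin : ∀ t : ℝ, H (p t) * ((p t) ^ (i + 1) * (p t + s))⁻¹ -
      H (m t) * ((m t) ^ (i + 1) * (m t + s))⁻¹ =
      (2 * Real.pi * I)⁻¹ * ∮ w in C(0, ρ), R w * G t w := by
    intro t
    have r1 := eu_rat hs (z := p t) (by have := pn t; linarith) (i + 1)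
    have r2 := eu_rat hs (z := m t) (by have := mn t; linarith) (i + 1)
    have hci : ∀ z : ℂ, (1 / 4 ≤ ‖z‖) →
        CircleIntegrable (fun w : ℂ => (w ^ (i + 1) * (w + s))⁻¹ * (z - w)⁻¹) 0 ρ := by
      intro z hz
      apply ContinuousOn.circleIntegrable hρ0.le
      apply ContinuousOn.mul
      · apply ContinuousOn.inv₀ (by fun_prop)
        intro w hw
        rw [mem_sphere_zero_iff_norm] at hw
        apply mul_ne_zero
        · apply pow_ne_zero
          intro h
          rw [h, norm_zero] at hw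
          exact hρ0.ne hw
        · intro h
          have h1 : w = -s := by linear_combination h
          rw [h1, norm_neg] at hw
          exact hs.ne hw
      · apply ContinuousOn.inv₀ (by fun_prop)
        intro w hw
        rw [mem_sphere_zero_iff_norm] at hw
        intro h
        have h1 : z = w := by linear_combination h
        rw [h1, hw] at hz
        linarith
    have q1 := hci (p t) ((by norm_num : (1 : ℝ) / 4 ≤ 3 / 2).trans (pn t))
    have q2 := hci (m t) (mn t)
    have e1 : ∮ w in C(0, ρ), R w * G t w =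
        H (p t) * (∮ w in C(0, ρ), (w ^ (i + 1) * (w + s))⁻¹ * (p t - w)⁻¹) -
        H (m t) * (∮ w in C(0, ρ), (w ^ (i + 1) * (w + s))⁻¹ * (m t - w)⁻¹) := by
      rw [← circleIntegral.integral_const_mul, ← circleIntegral.integral_const_mul,
        ← circleIntegral.integral_sub]
      · apply circleIntegral.integral_congr hρ0.le
        intro w hw
        simp only [hR, hG]
        ring
      · exact (q1.const_mul _)
      · exact (q2.const_mul _)
    rw [e1, r1, r2]
    have hpi : (Real.pi : ℂ) ≠ 0 := ofReal_ne_zero.2 Real.pi_ne_zero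
    have hI := I_ne_zero
    field_simp
  -- the line integrals
  have hout : ∀ θ : ℝ, ∫ t : ℝ, G t (circleMap 0 ρ θ) =
      2 * Real.pi * H (circleMap 0 ρ θ) := by
    intro θ
    have hw : ‖circleMap 0 ρ θ‖ < 1 / 4 := by rw [wn]; exact hρ
    have h1 := eu_pole hd hb hw
    rw [← h1, ← integral_sub]
    · apply integral_congr_ae
      refine Eventually.of_forall (fun t => ?_)
      simp only [hG, div_eq_mul_inv]
      rfl
    · have := eu_line hd hb (c := 3 / 2) (by norm_num) (by norm_num)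
        (g := fun z => (z - circleMap 0 ρ θ)⁻¹) (m := (1 / 4 - ρ)⁻¹)
        (fun z hz => by
          apply DifferentiableAt.inv (by fun_prop)
          intro h
          have hz' : z = circleMap 0 ρ θ := by linear_combination h
          have := abs_re_le_norm z
          rw [hz, hz', wn, abs_of_pos (by norm_num)] at this
          linarith)
        (fun z hz => by
          rw [norm_inv]
          apply inv_anti₀ hδ
          apply far
          have := abs_re_le_norm z
          rw [hz, abs_of_pos (by norm_num)] at this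
          linarith)
      simpa only [div_eq_mul_inv] using this
    · have := eu_line hd hb (c := -(1 / 4)) (by norm_num) (by norm_num)
        (g := fun z => (z - circleMap 0 ρ θ)⁻¹) (m := (1 / 4 - ρ)⁻¹)
        (fun z hz => by
          apply DifferentiableAt.inv (by fun_prop)
          intro h
          have hz' : z = circleMap 0 ρ θ := by linear_combination h
          have := abs_re_le_norm z
          rw [hz, hz', wn, abs_neg, abs_of_pos (by norm_num)] at this
          linarith)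
        (fun z hz => by
          rw [norm_inv]
          apply inv_anti₀ hδ
          apply far
          have := abs_re_le_norm z
          rw [hz, abs_neg, abs_of_pos (by norm_num)] at this
          linarith)
      simpa only [div_eq_mul_inv] using this
  have hstart : (∫ t : ℝ, (H (p t) * ((p t) ^ (i + 1) * (p t + s))⁻¹ -
      H (m t) * ((m t) ^ (i + 1) * (m t + s))⁻¹)) =
      (2 * Real.pi * I)⁻¹ * ∫ t : ℝ, ∫ θ in Ioc (0 : ℝ) (2 * Real.pi),
        deriv (circleMap 0 ρ) θ • (R (circleMap 0 ρ θ) * G t (circleMap 0 ρ θ)) := by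
    rw [← integral_const_mul]
    apply integral_congr_ae
    refine Eventually.of_forall (fun t => ?_)
    simp only
    rw [hin t, circleIntegral, intervalIntegral.integral_of_le (by positivity)]
  show (∫ t : ℝ, (H (p t) * ((p t) ^ (i + 1) * (p t + s))⁻¹ -
      H (m t) * ((m t) ^ (i + 1) * (m t + s))⁻¹)) = _
  rw [hstart, integral_integral_swap hint]
  have hfin : ∀ θ : ℝ, (∫ t : ℝ, deriv (circleMap 0 ρ) θ •
      (R (circleMap 0 ρ θ) * G t (circleMap 0 ρ θ))) =
      deriv (circleMap 0 ρ) θ • (2 * Real.pi * (H (circleMap 0 ρ θ) /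
        ((circleMap 0 ρ θ) ^ (i + 1) * (circleMap 0 ρ θ + s)))) := by
    intro θ
    rw [integral_smul, integral_const_mul, hout θ]
    congr 1
    simp only [hR]
    rw [div_eq_mul_inv]
    ring
  simp only [hfin]
  have hc : ∮ z in C(0, ρ), 2 * Real.pi * (H z / (z ^ (i + 1) * (z + s))) =
      2 * Real.pi * ∮ z in C(0, ρ), H z / (z ^ (i + 1) * (z + s)) :=
    circleIntegral.integral_const_mul _ _ _ _
  have hc2 : (∫ θ in Ioc (0 : ℝ) (2 * Real.pi), deriv (circleMap 0 ρ) θ •
      (2 * Real.pi * (H (circleMap 0 ρ θ) /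
        ((circleMap 0 ρ θ) ^ (i + 1) * (circleMap 0 ρ θ + s))))) =
      ∮ z in C(0, ρ), 2 * Real.pi * (H z / (z ^ (i + 1) * (z + s))) := by
    rw [circleIntegral, intervalIntegral.integral_of_le (by positivity)]
  rw [hc2, hc]
  have hpi : (Real.pi : ℂ) ≠ 0 := ofReal_ne_zero.2 Real.pi_ne_zero
  have hI := I_ne_zero
  field_simp

theorem res_two_pr {H : ℂ → ℂ} {C : ℝ} (hd : ∀ z : ℂ, -(3 / 10) < z.re → z.re < 8 / 5 →
      DifferentiableAt ℂ H z)
    (hb : ∀ z : ℂ, -(3 / 10) < z.re → z.re < 8 / 5 → ‖H z‖ ≤ C * Real.exp (-|z.im| / 2)) (i : ℕ)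
    {s : ℂ} {ρ : ℝ} (hs : ‖s‖ < ρ) (hρ : ρ < 1 / 4) :
    Integrable (fun t : ℝ => H (3 / 2 + t * I) / ((3 / 2 + t * I) ^ (i + 1) *
      (3 / 2 + t * I + s))) ∧
    Integrable (fun t : ℝ => H (-(1 / 4) + t * I) / ((-(1 / 4) + t * I) ^ (i + 1) *
      (-(1 / 4) + t * I + s))) ∧
    1 / (2 * Real.pi) * (∫ t : ℝ, H (3 / 2 + t * I) / ((3 / 2 + t * I) ^ (i + 1) *
      (3 / 2 + t * I + s))) -
      1 / (2 * Real.pi) * (∫ t : ℝ, H (-(1 / 4) + t * I) / ((-(1 / 4) + t * I) ^ (i + 1) *
        (-(1 / 4) + t * I + s))) =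
      1 / (2 * Real.pi * I) * ∮ z in C(0, ρ), H z / (z ^ (i + 1) * (z + s)) := by
  have hρ0 : 0 < ρ := (norm_nonneg _).trans_lt hs
  have hδ : 0 < 1 / 4 - ρ := by linarith
  have e1 : ((3 / 2 : ℝ) : ℂ) = 3 / 2 := by push_cast; rfl
  have e2 : ((-(1 / 4) : ℝ) : ℂ) = -(1 / 4) := by push_cast; rfl
  have key : ∀ c : ℝ, -(3 / 10) < c → c < 8 / 5 → 1 / 4 ≤ |c| →
      Integrable (fun t : ℝ => H (c + t * I) * ((c + t * I) ^ (i + 1) * (c + t * I + s))⁻¹) := by
    intro c h1 h2 h3
    have hn : ∀ z : ℂ, z.re = c → 1 / 4 ≤ ‖z‖ := fun z hz => by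
      have := abs_re_le_norm z
      rw [hz] at this
      linarith
    have hn2 : ∀ z : ℂ, z.re = c → 1 / 4 - ρ ≤ ‖z + s‖ := fun z hz => by
      have h4 := norm_sub_norm_le z (-s)
      rw [sub_neg_eq_add, norm_neg] at h4
      have := hn z hz
      linarith
    refine eu_line hd hb h1 h2 (g := fun z => (z ^ (i + 1) * (z + s))⁻¹)
      (m := ((1 / 4) ^ (i + 1) * (1 / 4 - ρ))⁻¹) (fun z hz => ?_) (fun z hz => ?_)
    · apply DifferentiableAt.inv (by fun_prop)
      apply mul_ne_zero
      · apply pow_ne_zero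
        intro h
        have := hn z hz
        rw [h, norm_zero] at this
        linarith
      · intro h
        have := hn2 z hz
        rw [h, norm_zero] at this
        linarith
    · rw [norm_inv, norm_mul, norm_pow]
      apply inv_anti₀ (by positivity)
      exact mul_le_mul (pow_le_pow_left₀ (by norm_num) (hn z hz) _) (hn2 z hz) hδ.le
        (by positivity)
  have k1 := key (3 / 2) (by norm_num) (by norm_num) (by rw [abs_of_pos] <;> norm_num)
  have k2 := key (-(1 / 4)) (by norm_num) (by norm_num) (by rw [abs_neg, abs_of_pos]; norm_num)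
  have hmain := eu_main hd hb i hs hρ
  rw [integral_sub k1 k2] at hmain
  rw [e1] at k1 hmain
  rw [e2] at k2 hmain
  simp only [← div_eq_mul_inv] at k1 k2 hmain
  refine ⟨k1, k2, ?_⟩
  have hpi : (Real.pi : ℂ) ≠ 0 := ofReal_ne_zero.2 Real.pi_ne_zero
  have hI := I_ne_zero
  rw [← mul_sub, hmain]
  field_simp

end Pool.Agent.LE
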