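import Pool.Agent.Lib_helper53.LE.Defs
import Pool.Agent.Lib_helper41.LVBF.ELM
import Pool.Agent.Lib_helper53.LEF.EN

/-! LSP3, part E, block ER: bounds for expectations. -/

set_option autoImplicit false

namespace Pool.Agent.LE

open Complex MeasureTheory ProbabilityTheory
open Pool.Agent.LSP (tau MX CC CB sg1 wX)
open Pool.Agent.KSL (WW)
open Pool.Agent.LEV (Uu Um)
open Pool.Agent.LVB (IsST el)
open Pool.Agent.LK (Qe V PQ MW)

theorem er_um_meas (k : ℕ) : Measurable (fun x : ℕ → ℝ => (Um k x : ℂ)) := by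
  refine Complex.measurable_ofReal.comp ?_
  unfold Um
  refine Finset.measurable_prod _ fun p _ => ?_
  exact (Pool.Agent.LEV.MEX_cont _).measurable.comp (measurable_pi_apply p)

theorem er_w_meas {I : Finset ℕ} {w : ℕ → ℝ → ℂ} (hw : ∀ p ∈ I, Measurable (w p)) :
    Measurable (fun x : ℕ → ℝ => ∏ p ∈ I, w p (x p)) :=
  Finset.measurable_prod _ fun p hp => (hw p hp).comp (measurable_pi_apply p)

theorem er_um_bound {I : Finset ℕ} {x : ℕ → ℝ} (hx : ∀ p ∈ I, |x p| ≤ 2) {k : ℕ}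
    (hk : k.primeFactors ⊆ I) :
    |Um k x| ≤ ∏ p ∈ k.primeFactors, ((k.factorization p : ℝ) + 1) := by
  unfold Um
  rw [Finset.abs_prod]
  exact Finset.prod_le_prod (fun p _ => abs_nonneg _) fun p hp =>
    Pool.Agent.LEV.MEX_le (hx p (hk hp)) _

theorem er_int {I : Finset ℕ} {P : Measure (ℕ → ℝ)} (hP : IsST I P)
    {w : ℕ → ℝ → ℂ} (hw : ∀ p ∈ I, Measurable (w p) ∧ (∀ x : ℝ, |x| ≤ 2 → ‖w p x‖ ≤ 10 ^ 6))
    {k : ℕ} (hk : k.primeFactors ⊆ I) :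
    Integrable (fun x : ℕ → ℝ => (Um k x : ℂ) * ∏ p ∈ I, w p (x p)) P := by
  have := hP.prob
  refine Integrable.of_bound (((er_um_meas k).mul
    (er_w_meas fun p hp => (hw p hp).1)).aestronglyMeasurable)
    ((∏ p ∈ k.primeFactors, ((k.factorization p : ℝ) + 1)) * ∏ _p ∈ I, (10 : ℝ) ^ 6) ?_
  filter_upwards [hP.bdd] with x hx
  rw [norm_mul, Complex.norm_real, Real.norm_eq_abs, norm_prod]
  refine mul_le_mul (er_um_bound hx hk) ?_ (Finset.prod_nonneg fun _ _ => norm_nonneg _)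
    (Finset.prod_nonneg fun _ _ => by positivity)
  exact Finset.prod_le_prod (fun p _ => norm_nonneg _) fun p hp => (hw p hp).2 _ (hx p hp)

/-- the local estimate -/
theorem er_loc {p v : ℕ} (hp : 2 ≤ p) (hv : 1 ≤ v) :
    ((v : ℝ) + 1) * 10 ^ 6 * 50 ≤ ((p ^ v : ℕ) : ℝ) ^ 28 := by
  have h1 : ((v : ℝ) + 1) ≤ 2 ^ v := by
    have : v + 1 ≤ 2 ^ v := Nat.lt_two_pow_self
    exact_mod_cast this
  have h2 : (10 : ℝ) ^ 6 * 50 ≤ 2 ^ 27 := by norm_num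
  have h3 : (2 : ℝ) ^ 27 ≤ (2 ^ v) ^ 27 := by
    refine pow_le_pow_left₀ (by norm_num) ?_ 27
    calc (2 : ℝ) = 2 ^ 1 := by norm_num
      _ ≤ 2 ^ v := pow_le_pow_right₀ (by norm_num) hv
  have h4 : ((2 : ℝ) ^ v) ^ 28 ≤ ((p ^ v : ℕ) : ℝ) ^ 28 := by
    refine pow_le_pow_left₀ (by positivity) ?_ 28
    push_cast
    exact pow_le_pow_left₀ (by norm_num) (by exact_mod_cast hp) v
  calc ((v : ℝ) + 1) * 10 ^ 6 * 50 = ((v : ℝ) + 1) * (10 ^ 6 * 50) := by ring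
    _ ≤ 2 ^ v * (2 ^ v) ^ 27 := mul_le_mul h1 (h2.trans h3) (by norm_num) (by positivity)
    _ = (2 ^ v) ^ 28 := by ring
    _ ≤ _ := h4

theorem er_loc_int {I : Finset ℕ} {P : Measure (ℕ → ℝ)} (hP : IsST I P)
    {w : ℕ → ℝ → ℂ} (hw : ∀ p ∈ I, Measurable (w p) ∧ (∀ x : ℝ, |x| ≤ 2 → ‖w p x‖ ≤ 10 ^ 6))
    {p : ℕ} (hp : p ∈ I) (v : ℕ) :
    ‖∫ x, (Uu (x p) v : ℂ) * w p (x p) ∂P‖ ≤ ((v : ℝ) + 1) * 10 ^ 6 := by
  have := hP.prob
  have h1 : ∀ᵐ x ∂P, ‖(Uu (x p) v : ℂ) * w p (x p)‖ ≤ ((v : ℝ) + 1) * 10 ^ 6 := by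
    filter_upwards [hP.bdd] with x hx
    rw [norm_mul, Complex.norm_real, Real.norm_eq_abs]
    exact mul_le_mul (Pool.Agent.LEV.MEX_le (hx p hp) v) ((hw p hp).2 _ (hx p hp))
      (norm_nonneg _) (by positivity)
  have h2 := norm_integral_le_of_norm_le_const h1
  simpa using h2

/-- block ER (uses ew_um_pr): bounds for expectations -/
theorem ew_bound_pr {I : Finset ℕ} {P : Measure (ℕ → ℝ)} (hI : ∀ p ∈ I, p.Prime) (hP : IsST I P)
    {w : ℕ → ℝ → ℂ} (hw : ∀ p ∈ I, Measurable (w p) ∧ (∀ x : ℝ, |x| ≤ 2 → ‖w p x‖ ≤ 10 ^ 6) ∧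
      1 / 50 ≤ ‖∫ x, w p (x p) ∂P‖) {K : ℕ} (hK : 1 ≤ K)
    (hKI : ∀ p : ℕ, p.Prime → p ≤ K → p ∈ I) {B : ℕ → ℝ} (hB : SuppIn K B) :
    EW P I w (MX K B) = ∑ k ∈ Finset.Icc 1 K, ((B k / Real.sqrt k : ℝ) : ℂ) * EW P I w (Um k) ∧
      (∀ k, 1 ≤ k → k ≤ K → ‖EW P I w (Um k)‖ ≤ (k : ℝ) ^ (28 : ℕ)) ∧
      ∀ b₀ : ℝ, (∀ k, |B k| ≤ b₀) → ‖EW P I w (MX K B)‖ ≤ b₀ * (K : ℝ) ^ (30 : ℕ) := by
  have := hP.prob
  have hw' : ∀ p ∈ I, Measurable (w p) ∧ (∀ x : ℝ, |x| ≤ 2 → ‖w p x‖ ≤ 10 ^ 6) :=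
    fun p hp => ⟨(hw p hp).1, (hw p hp).2.1⟩
  have hkI : ∀ k, 1 ≤ k → k ≤ K → k.primeFactors ⊆ I := by
    intro k hk1 hk p hp
    have hpp := Nat.prime_of_mem_primeFactors hp
    exact hKI p hpp ((Nat.le_of_dvd (by omega) (Nat.dvd_of_mem_primeFactors hp)).trans hk)
  have h1 : EW P I w (MX K B) =
      ∑ k ∈ Finset.Icc 1 K, ((B k / Real.sqrt k : ℝ) : ℂ) * EW P I w (Um k) := by
    unfold EW
    have e1 : ∫ x, (MX K B x : ℂ) * ∏ p ∈ I, w p (x p) ∂P = ∑ k ∈ Finset.Icc 1 K,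
        ((B k / Real.sqrt k : ℝ) : ℂ) * ∫ x, (Um k x : ℂ) * ∏ p ∈ I, w p (x p) ∂P := by
      have e2 : ∀ x : ℕ → ℝ, (MX K B x : ℂ) * ∏ p ∈ I, w p (x p) = ∑ k ∈ Finset.Icc 1 K,
          ((B k / Real.sqrt k : ℝ) : ℂ) * ((Um k x : ℂ) * ∏ p ∈ I, w p (x p)) := by
        intro x
        unfold MX
        push_cast
        rw [Finset.sum_mul]
        refine Finset.sum_congr rfl fun k _ => ?_
        ring
      simp only [e2]
      rw [integral_finsetSum]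
      · refine Finset.sum_congr rfl fun k _ => ?_
        rw [integral_const_mul]
      · intro k hk
        rw [Finset.mem_Icc] at hk
        exact (er_int hP hw' (hkI k hk.1 hk.2)).const_mul _
    rw [e1, Finset.sum_div]
    refine Finset.sum_congr rfl fun k _ => ?_
    rw [mul_div_assoc]
  have h2 : ∀ k, 1 ≤ k → k ≤ K → ‖EW P I w (Um k)‖ ≤ (k : ℝ) ^ (28 : ℕ) := by
    intro k hk1 hk
    have hw0 : ∀ p ∈ I, ∫ x, w p (x p) ∂P ≠ 0 := by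
      intro p hp h0
      have := (hw p hp).2.2
      rw [h0, norm_zero] at this
      norm_num at this
    rw [ew_um_pr hP (fun p hp => (hw p hp).1) hw0 hk1 (hkI k hk1 hk), norm_prod]
    have e3 : ∀ p ∈ k.primeFactors, ‖(∫ x, (Uu (x p) (k.factorization p) : ℂ) * w p (x p) ∂P) /
        ∫ x, w p (x p) ∂P‖ ≤ ((p ^ k.factorization p : ℕ) : ℝ) ^ 28 := by
      intro p hp
      have hpI := hkI k hk1 hk hp
      have hpp := Nat.prime_of_mem_primeFactors hp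
      have hv : 1 ≤ k.factorization p :=
        hpp.factorization_pos_of_dvd (by omega) (Nat.dvd_of_mem_primeFactors hp)
      have e4 := er_loc_int hP hw' hpI (k.factorization p)
      have e5 := (hw p hpI).2.2
      have e6 : 0 < ‖∫ x, w p (x p) ∂P‖ := lt_of_lt_of_le (by norm_num) e5
      rw [norm_div, div_le_iff₀ e6]
      refine e4.trans ?_
      have e7 := er_loc hpp.two_le hv
      calc ((k.factorization p : ℝ) + 1) * 10 ^ 6 =
          (((k.factorization p : ℝ) + 1) * 10 ^ 6 * 50) * (1 / 50) := by ring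
        _ ≤ ((p ^ k.factorization p : ℕ) : ℝ) ^ 28 * ‖∫ x, w p (x p) ∂P‖ :=
            mul_le_mul e7 e5 (by norm_num) (by positivity)
    refine (Finset.prod_le_prod (fun p _ => norm_nonneg _) e3).trans ?_
    rw [Finset.prod_pow, ← Nat.cast_prod]
    have e8 : ∏ p ∈ k.primeFactors, p ^ k.factorization p = k :=
      Nat.prod_factorization_pow_eq_self (by omega)
    rw [e8]
  refine ⟨h1, h2, fun b₀ hb => ?_⟩
  have hb0 : 0 ≤ b₀ := (abs_nonneg _).trans (hb 0)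
  have hK1 : (1 : ℝ) ≤ K := by exact_mod_cast hK
  rw [h1]
  refine (norm_sum_le _ _).trans ?_
  have h3 : ∀ k ∈ Finset.Icc 1 K, ‖((B k / Real.sqrt k : ℝ) : ℂ) * EW P I w (Um k)‖ ≤
      b₀ * (K : ℝ) ^ 28 := by
    intro k hk
    rw [Finset.mem_Icc] at hk
    have hk1 : (1 : ℝ) ≤ k := by exact_mod_cast hk.1
    have hkK : (k : ℝ) ≤ K := by exact_mod_cast hk.2
    have hs : 1 ≤ Real.sqrt k := by rwa [Real.one_le_sqrt]
    rw [norm_mul, Complex.norm_real, Real.norm_eq_abs, abs_div, abs_of_nonneg (Real.sqrt_nonneg _)]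
    refine mul_le_mul ?_ ((h2 k hk.1 hk.2).trans (pow_le_pow_left₀ (by linarith) hkK 28))
      (norm_nonneg _) hb0
    exact (div_le_self (abs_nonneg _) hs).trans (hb k)
  refine (Finset.sum_le_sum h3).trans ?_
  rw [Finset.sum_const, Nat.card_Icc, nsmul_eq_mul, Nat.add_sub_cancel]
  have h4 : (K : ℝ) ^ 29 ≤ (K : ℝ) ^ 30 := pow_le_pow_right₀ hK1 (by norm_num)
  calc (K : ℝ) * (b₀ * (K : ℝ) ^ 28) = b₀ * (K : ℝ) ^ 29 := by ring
    _ ≤ b₀ * (K : ℝ) ^ 30 := mul_le_mul_of_nonneg_left h4 hb0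

end Pool.Agent.LE
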