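import Pool.Agent.Lib_helper53.LE.Defs
import Pool.Agent.Lib_helper31.LKF.KG2
import Pool.Agent.Lib_helper19.H3.GR
import Pool.Agent.Lib_helper53.LEF.EQ
import Pool.Agent.Lib_helper53.LEF.ER
import Pool.Agent.Lib_helper53.LEF.ES
import Pool.Agent.Lib_helper53.LEF.EV

set_option autoImplicit false

namespace Pool.Agent.LE

open Complex MeasureTheory ProbabilityTheory
open Pool.Agent.LSP (tau MX CC CB sg1 wX)
open Pool.Agent.KSL (WW)
open Pool.Agent.LEV (Uu Um)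
open Pool.Agent.LVB (IsST el)
open Pool.Agent.LK (Qe V PQ MW)

theorem ewb_gamma {θ : ℝ} (h0 : 0 ≤ θ) (hθ : θ < Real.pi / 2) {x y : ℝ} (hx : 0 < x) :
    ∃ C : ℝ, 0 ≤ C ∧ ∀ w : ℂ, x ≤ w.re → w.re ≤ y → ‖Gamma w‖ ≤ C * Real.exp (-(θ * |w.im|)) := by
  have hcos : 0 < Real.cos θ := Real.cos_pos_of_mem_Ioo ⟨by linarith [Real.pi_pos], hθ⟩
  have hcont : ContinuousOn (fun t : ℝ => Real.Gamma t * (Real.cos θ) ^ (-t)) (Set.Icc x y) := by
    refine ContinuousOn.mul ?_ ?_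
    · intro t ht
      refine (Real.differentiableAt_Gamma (fun m hm => ?_)).continuousAt.continuousWithinAt
      have h1 : 0 < t := lt_of_lt_of_le hx ht.1
      rw [hm] at h1
      have : (0 : ℝ) ≤ m := Nat.cast_nonneg m
      linarith
    · refine Continuous.continuousOn ?_
      exact Continuous.rpow continuous_const (by fun_prop) (fun t => Or.inl hcos.ne')
  obtain ⟨C, hC⟩ := isCompact_Icc.exists_bound_of_continuousOn hcont
  refine ⟨max C 0, le_max_right _ _, fun w h1 h2 => ?_⟩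
  have hw : (w.re : ℂ) + (w.im : ℂ) * I = w := re_add_im w
  have hre : 0 < w.re := lt_of_lt_of_le hx h1
  have h3 := hC w.re ⟨h1, h2⟩
  rw [Real.norm_eq_abs] at h3
  have h4 : Real.Gamma w.re * (Real.cos θ) ^ (-w.re) ≤ max C 0 :=
    (le_abs_self _).trans (h3.trans (le_max_left _ _))
  rcases le_total 0 w.im with him | him
  · have h5 := Pool.Agent.H3.norm_Gamma_le_rot_pr (x := w.re) (y := w.im) (θ := θ) hre
      (by rw [abs_of_nonneg h0]; exact hθ)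
    rw [hw] at h5
    rw [abs_of_nonneg him]
    calc ‖Gamma w‖ ≤ Real.exp (-(θ * w.im)) * Real.Gamma w.re * Real.cos θ ^ (-w.re) := h5
      _ = (Real.Gamma w.re * Real.cos θ ^ (-w.re)) * Real.exp (-(θ * w.im)) := by ring
      _ ≤ _ := mul_le_mul_of_nonneg_right h4 (Real.exp_pos _).le
  · have h5 := Pool.Agent.H3.norm_Gamma_le_rot_pr (x := w.re) (y := w.im) (θ := -θ) hre
      (by rw [abs_neg, abs_of_nonneg h0]; exact hθ)
    rw [hw, Real.cos_neg] at h5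
    rw [abs_of_nonpos him]
    calc ‖Gamma w‖ ≤ Real.exp (-(-θ * w.im)) * Real.Gamma w.re * Real.cos θ ^ (-w.re) := h5
      _ = (Real.Gamma w.re * Real.cos θ ^ (-w.re)) * Real.exp (-(θ * -w.im)) := by
          rw [show -(-θ * w.im) = -(θ * -w.im) by ring]; ring
      _ ≤ _ := mul_le_mul_of_nonneg_right h4 (Real.exp_pos _).le

theorem ewb_Y {Y : ℝ} (hY : 1 ≤ Y) {z : ℂ} (hz : -(3 / 10) < z.re) :
    ‖((Y / (2 * Real.pi) : ℝ) : ℂ) ^ z‖ ≤ 2 * Real.pi * Y ^ z.re := by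
  have hpi := Real.pi_gt_three
  have h2 : (1 : ℝ) ≤ 2 * Real.pi := by linarith
  have hY0 : 0 < Y := by linarith
  rw [norm_cpow_eq_rpow_re_of_pos (by positivity), Real.div_rpow hY0.le (by positivity),
    div_eq_mul_inv, ← Real.rpow_neg (by positivity), mul_comm]
  refine mul_le_mul_of_nonneg_right ?_ (by positivity)
  calc (2 * Real.pi) ^ (-z.re) ≤ (2 * Real.pi) ^ (1 : ℝ) :=
        Real.rpow_le_rpow_of_exponent_le h2 (by linarith)
    _ = 2 * Real.pi := Real.rpow_one _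

theorem ewb_Yd {Y : ℝ} (hY : 1 ≤ Y) (z : ℂ) :
    DifferentiableAt ℂ (fun z : ℂ => ((Y / (2 * Real.pi) : ℝ) : ℂ) ^ z) z := by
  have hpi := Real.pi_pos
  have h1 : ((Y / (2 * Real.pi) : ℝ) : ℂ) ≠ 0 := by
    have : (Y / (2 * Real.pi) : ℝ) ≠ 0 := by positivity
    exact_mod_cast this
  exact differentiableAt_id.const_cpow (Or.inl h1)

theorem ewb_Gd {z : ℂ} (hz : -(3 / 10) < z.re) :
    DifferentiableAt ℂ (fun z : ℂ => Complex.Gamma (1 + z)) z := by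
  have h1 : DifferentiableAt ℂ Complex.Gamma (1 + z) := by
    apply Complex.differentiableAt_Gamma
    intro m hm
    have h2 := congrArg Complex.re hm
    simp only [add_re, one_re, neg_re, natCast_re] at h2
    have h3 : (0 : ℝ) ≤ m := Nat.cast_nonneg m
    linarith
  exact DifferentiableAt.comp z h1 (by fun_prop)

theorem ewb_exp {x : ℝ} (hx : 0 ≤ x) : (x + 3) ^ 4 * Real.exp (-(5 / 4 * x)) ≤
    16 ^ 4 * Real.exp (-x) := by
  have h1 : x + 3 ≤ 16 * Real.exp (x / 16) := by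
    have := Real.add_one_le_exp (x / 16)
    linarith
  have h2 : (x + 3) ^ 4 ≤ (16 * Real.exp (x / 16)) ^ 4 := pow_le_pow_left₀ (by linarith) h1 4
  have h3 : (16 * Real.exp (x / 16)) ^ 4 = 16 ^ 4 * Real.exp (x / 4) := by
    rw [mul_pow, ← Real.exp_nat_mul]
    congr 2
    push_cast
    ring
  calc (x + 3) ^ 4 * Real.exp (-(5 / 4 * x))
      ≤ 16 ^ 4 * Real.exp (x / 4) * Real.exp (-(5 / 4 * x)) := by
        rw [← h3]
        exact mul_le_mul_of_nonneg_right h2 (Real.exp_pos _).le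
    _ = 16 ^ 4 * Real.exp (-x) := by
        rw [mul_assoc, ← Real.exp_add]
        congr 2
        ring

variable {q : ℕ} [NeZero q]

theorem h2_facts_pr : ∃ C : ℝ, ∀ (q : ℕ) [NeZero q] (χ : DirichletCharacter ℂ q), PQ χ →
    ∀ (I : Finset ℕ) (P : Measure (ℕ → ℝ)), (∀ p ∈ I, p.Prime) → IsST I P →
    ∀ K : ℕ, 1 ≤ K → (∀ p : ℕ, p.Prime → p ≤ K → p ∈ I) → ∀ (B : ℕ → ℝ) (b₀ : ℝ), SuppIn K B →
    (∀ k, |B k| ≤ b₀) → ∀ Y : ℝ, 1 ≤ Y → ∀ r s : ℂ, ‖r‖ ≤ 1 / 8 → ‖s‖ ≤ 1 / 8 →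
    ∀ z : ℂ, -(3 / 10) < z.re → z.re < 8 / 5 → DifferentiableAt ℂ (H2 χ P I K B Y r s) z ∧
      ‖H2 χ P I K B Y r s z‖ ≤
        C * b₀ * q ^ 4 * K ^ 30 * Y ^ z.re * Real.exp (-|z.im|) := by
  obtain ⟨Cg, hCg0, hCg⟩ := ewb_gamma (θ := 5 / 4) (by norm_num)
    (by linarith [Real.pi_gt_three]) (x := 7 / 10) (y := 13 / 5) (by norm_num)
  obtain ⟨CL, hCL⟩ := Pool.Agent.LK.zk_bound_pr
  obtain ⟨CZ, hCZ⟩ := zq_facts_pr
  refine ⟨2 * Real.pi * Cg * |CL| ^ 2 * |CZ| * |CZ| * 16 ^ 4,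
    fun q _ χ hχ I P hI hP K hK hKI B b₀ hB hb Y hY r s hr hs z hz1 hz2 => ?_⟩
  have hb0 : 0 ≤ b₀ := (abs_nonneg (B 0)).trans (hb 0)
  have hq1 : (1 : ℝ) ≤ q := by exact_mod_cast Nat.one_le_iff_ne_zero.mpr (NeZero.ne q)
  have hrr := abs_le.mp ((abs_re_le_norm r).trans hr)
  have hri := abs_le.mp ((abs_im_le_norm r).trans hr)
  have hsr := abs_le.mp ((abs_re_le_norm s).trans hs)
  have hsi := abs_le.mp ((abs_im_le_norm s).trans hs)
  have hr7 : ‖r‖ ≤ 1 / 7 := by linarith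
  have hs7 : ‖s‖ ≤ 1 / 7 := by linarith
  have hw : ∀ p ∈ I, Measurable (w2 χ r s z p) ∧
      (∀ x : ℝ, |x| ≤ 2 → ‖w2 χ r s z p x‖ ≤ 10 ^ 6) ∧
      1 / 50 ≤ ‖∫ x, w2 χ r s z p (x p) ∂P‖ := fun p hp => by
    obtain ⟨h1, h2, h3⟩ := w2_facts_pr χ (hI p hp) hr7 hs7 hz1.le
    exact ⟨h1, h2, h3 I P hP hp⟩
  have hE := (ew_bound_pr hI hP hw hK hKI hB).2.2 b₀ hb
  have hEd : DifferentiableAt ℂ (fun z : ℂ => EW P I (w2 χ r s z) (MX K B)) z := by
    have hopen : IsOpen {u : ℂ × ℂ × ℂ | ‖u.1‖ < 1 / 7 ∧ ‖u.2.1‖ < 1 / 7 ∧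
        -(3 / 10) < u.2.2.re} := by
      have o1 : IsOpen {u : ℂ × ℂ × ℂ | ‖u.1‖ < 1 / 7} :=
        isOpen_lt (f := fun u : ℂ × ℂ × ℂ => ‖u.1‖) (by fun_prop) continuous_const
      have o2 : IsOpen {u : ℂ × ℂ × ℂ | ‖u.2.1‖ < 1 / 7} :=
        isOpen_lt (f := fun u : ℂ × ℂ × ℂ => ‖u.2.1‖) (by fun_prop) continuous_const
      have o3 : IsOpen {u : ℂ × ℂ × ℂ | -(3 / 10) < u.2.2.re} :=
        isOpen_lt (g := fun u : ℂ × ℂ × ℂ => u.2.2.re) continuous_const (by fun_prop)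
      exact o1.inter (o2.inter o3)
    have h1 : DifferentiableAt ℂ (fun u : ℂ × ℂ × ℂ => EW P I (w2 χ u.1 u.2.1 u.2.2) (MX K B))
        (r, s, z) := by
      refine (ew_diff_pr χ hI hP hKI hB).1.differentiableAt (hopen.mem_nhds ⟨?_, ?_, hz1⟩)
      · show ‖r‖ < 1 / 7
        linarith
      · show ‖s‖ < 1 / 7
        linarith
    exact DifferentiableAt.comp z (f := fun z : ℂ => ((r, s, z) : ℂ × ℂ × ℂ)) h1 (by fun_prop)
  have hLd : DifferentiableAt ℂ (fun z : ℂ => DirichletCharacter.LFunction χ (1 + r + z)) z :=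
    DifferentiableAt.comp z (DirichletCharacter.differentiable_LFunction hχ.ne _) (by fun_prop)
  have hre : (1 + z).re = 1 + z.re := by simp
  have him : (1 + z).im = z.im := by simp
  have hre2 : (1 + r + z).re = 1 + r.re + z.re := by simp
  have him2 : (1 + r + z).im = r.im + z.im := by simp
  have hre3 : (1 + s + z).re = 1 + s.re + z.re := by simp
  have him3 : (1 + s + z).im = s.im + z.im := by simp
  have hre4 : (2 + 2 * r + s + z).re = 2 + 2 * r.re + s.re + z.re := by simp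
  have hL := (hCL q χ hχ.ne (1 + r + z) (by rw [hre2]; linarith) (by rw [hre2]; linarith)).1.1
  rw [him2] at hL
  have hG := hCg (1 + z) (by rw [hre]; linarith) (by rw [hre]; linarith)
  rw [him] at hG
  obtain ⟨hZd, -, hZb⟩ := (hCZ q (1 + s + z)).1 (by rw [hre3]; linarith) (by rw [hre3]; linarith)
  rw [him3] at hZb
  obtain ⟨hZd', hZb', hZ0⟩ := (hCZ q (2 + 2 * r + s + z)).2 (by rw [hre4]; linarith)
  have hZd1 : DifferentiableAt ℂ (fun z : ℂ => zq1 q (1 + s + z)) z :=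
    DifferentiableAt.comp z hZd (by fun_prop)
  have hZd2 : DifferentiableAt ℂ (fun z : ℂ => zq q (2 + 2 * r + s + z)) z :=
    DifferentiableAt.comp z hZd' (by fun_prop)
  constructor
  · exact (((((ewb_Yd hY z).mul (ewb_Gd hz1)).mul (hLd.pow 2)).mul hZd1).div hZd2 hZ0).mul hEd
  · unfold H2
    rw [div_eq_mul_inv, norm_mul, norm_mul, norm_mul, norm_mul, norm_mul, norm_pow]
    have hY1 := ewb_Y hY hz1
    have hY0 : 0 < Y := by linarith
    have hYp : 0 < Y ^ z.re := Real.rpow_pos_of_pos hY0 _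
    have ht : 0 ≤ |z.im| := abs_nonneg _
    have ht1 : |r.im + z.im| + 2 ≤ |z.im| + 3 := by
      have h1 := abs_add_le r.im z.im
      have h2 : |r.im| ≤ 1 / 8 := (abs_im_le_norm r).trans hr
      linarith
    have ht2 : |s.im + z.im| + 2 ≤ |z.im| + 3 := by
      have h1 := abs_add_le s.im z.im
      have h2 : |s.im| ≤ 1 / 8 := (abs_im_le_norm s).trans hs
      linarith
    have hL' : ‖DirichletCharacter.LFunction χ (1 + r + z)‖ ≤ |CL| * q * (|z.im| + 3) := by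
      refine hL.trans ?_
      have h1 : CL * q ≤ |CL| * q := mul_le_mul_of_nonneg_right (le_abs_self _) (by linarith)
      exact mul_le_mul h1 ht1 (by positivity) (by positivity)
    have hZb1 : ‖zq1 q (1 + s + z)‖ ≤ |CZ| * q * (|z.im| + 3) ^ 2 := by
      refine hZb.trans ?_
      have h1 : CZ * q ≤ |CZ| * q := mul_le_mul_of_nonneg_right (le_abs_self _) (by linarith)
      exact mul_le_mul h1 (pow_le_pow_left₀ (by positivity) ht2 2) (by positivity)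
        (by positivity)
    have hZb2 : ‖(zq q (2 + 2 * r + s + z))⁻¹‖ ≤ |CZ| := hZb'.trans (le_abs_self _)
    have hexp := ewb_exp ht
    have hpi := Real.pi_pos
    calc ‖((Y / (2 * Real.pi) : ℝ) : ℂ) ^ z‖ * ‖Complex.Gamma (1 + z)‖ *
          ‖DirichletCharacter.LFunction χ (1 + r + z)‖ ^ 2 * ‖zq1 q (1 + s + z)‖ *
          ‖(zq q (2 + 2 * r + s + z))⁻¹‖ * ‖EW P I (w2 χ r s z) (MX K B)‖
        ≤ (2 * Real.pi * Y ^ z.re) * (Cg * Real.exp (-(5 / 4 * |z.im|))) *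
          (|CL| * q * (|z.im| + 3)) ^ 2 * (|CZ| * q * (|z.im| + 3) ^ 2) * |CZ| *
          (b₀ * (K : ℝ) ^ (30 : ℕ)) := by
          gcongr
      _ = (2 * Real.pi * Cg * |CL| ^ 2 * |CZ| * |CZ| * b₀ * q ^ 3 * K ^ 30 * Y ^ z.re) *
          ((|z.im| + 3) ^ 4 * Real.exp (-(5 / 4 * |z.im|))) := by ring
      _ ≤ (2 * Real.pi * Cg * |CL| ^ 2 * |CZ| * |CZ| * b₀ * q ^ 4 * K ^ 30 * Y ^ z.re) *
          (16 ^ 4 * Real.exp (-|z.im|)) := by
          have h5 : (q : ℝ) ^ 3 ≤ (q : ℝ) ^ 4 := pow_le_pow_right₀ hq1 (by norm_num)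
          gcongr
      _ = _ := by ring

end Pool.Agent.LE
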