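import Pool.Agent.Lib_helper53.LE.Defs
import Pool.Agent.Lib_helper31.LKF.KG2
import Pool.Agent.Lib_helper19.H3.GR
import Pool.Agent.Lib_helper53.LEF.EQ
import Pool.Agent.Lib_helper53.LEF.ER
import Pool.Agent.Lib_helper53.LEF.ES

set_option autoImplicit false

namespace Pool.Agent.LE

open Complex MeasureTheory ProbabilityTheory
open Pool.Agent.LSP (tau MX CC CB sg1 wX)
open Pool.Agent.KSL (WW)
open Pool.Agent.LEV (Uu Um)
open Pool.Agent.LVB (IsST el)
open Pool.Agent.LK (Qe V PQ MW)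

theorem exb_gamma {θ : ℝ} (h0 : 0 ≤ θ) (hθ : θ < Real.pi / 2) {x y : ℝ} (hx : 0 < x) :
    ∃ C : ℝ, 0 ≤ C ∧ ∀ w : ℂ, x ≤ w.re → w.re ≤ y → ‖Gamma w‖ ≤ C * Real.exp (-(θ * |w.im|)) := by
  have hcos : 0 < Real.cos θ := Real.cos_pos_of_mem_Ioo ⟨by linarith [Real.pi_pos], hθ⟩
  have hcont : ContinuousOn (fun t : ℝ => Real.Gamma t * (Real.cos θ) ^ (-t)) (Set.Icc x y) := by
    refine ContinuousOn.mul ?_ ?_
    · intro t ht
      refine (Real.differentiableAt_Gamma (fun m hm => ?_)).continuousAt.continuousWithinAt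
      have h1 : 0 < t := lt_of_lt_of_le hx ht.1
      rw [hm] at h1
      have : (0 : ℝ) ≤ m := Nat.cast_nonneg m
      linarith
    · refine Continuous.continuousOn ?_
      exact Continuous.rpow continuous_const (by fun_prop) (fun t => Or.inl hcos.ne')
  obtain ⟨C, hC⟩ := isCompact_Icc.exists_bound_of_continuousOn hcont
  refine ⟨max C 0, le_max_right _ _, fun w h1 h2 => ?_⟩
  have hw : (w.re : ℂ) + (w.im : ℂ) * I = w := re_add_im w
  have hre : 0 < w.re := lt_of_lt_of_le hx h1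
  have h3 := hC w.re ⟨h1, h2⟩
  rw [Real.norm_eq_abs] at h3
  have h4 : Real.Gamma w.re * (Real.cos θ) ^ (-w.re) ≤ max C 0 :=
    (le_abs_self _).trans (h3.trans (le_max_left _ _))
  rcases le_total 0 w.im with him | him
  · have h5 := Pool.Agent.H3.norm_Gamma_le_rot_pr (x := w.re) (y := w.im) (θ := θ) hre
      (by rw [abs_of_nonneg h0]; exact hθ)
    rw [hw] at h5
    rw [abs_of_nonneg him]
    calc ‖Gamma w‖ ≤ Real.exp (-(θ * w.im)) * Real.Gamma w.re * Real.cos θ ^ (-w.re) := h5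
      _ = (Real.Gamma w.re * Real.cos θ ^ (-w.re)) * Real.exp (-(θ * w.im)) := by ring
      _ ≤ _ := mul_le_mul_of_nonneg_right h4 (Real.exp_pos _).le
  · have h5 := Pool.Agent.H3.norm_Gamma_le_rot_pr (x := w.re) (y := w.im) (θ := -θ) hre
      (by rw [abs_neg, abs_of_nonneg h0]; exact hθ)
    rw [hw, Real.cos_neg] at h5
    rw [abs_of_nonpos him]
    calc ‖Gamma w‖ ≤ Real.exp (-(-θ * w.im)) * Real.Gamma w.re * Real.cos θ ^ (-w.re) := h5
      _ = (Real.Gamma w.re * Real.cos θ ^ (-w.re)) * Real.exp (-(θ * -w.im)) := by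
          rw [show -(-θ * w.im) = -(θ * -w.im) by ring]; ring
      _ ≤ _ := mul_le_mul_of_nonneg_right h4 (Real.exp_pos _).le

theorem exb_Y {Y : ℝ} (hY : 1 ≤ Y) {z : ℂ} (hz : -(3 / 10) < z.re) :
    ‖((Y / (2 * Real.pi) : ℝ) : ℂ) ^ z‖ ≤ 2 * Real.pi * Y ^ z.re := by
  have hpi := Real.pi_gt_three
  have h2 : (1 : ℝ) ≤ 2 * Real.pi := by linarith
  have hY0 : 0 < Y := by linarith
  rw [norm_cpow_eq_rpow_re_of_pos (by positivity), Real.div_rpow hY0.le (by positivity),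
    div_eq_mul_inv, ← Real.rpow_neg (by positivity), mul_comm]
  refine mul_le_mul_of_nonneg_right ?_ (by positivity)
  calc (2 * Real.pi) ^ (-z.re) ≤ (2 * Real.pi) ^ (1 : ℝ) :=
        Real.rpow_le_rpow_of_exponent_le h2 (by linarith)
    _ = 2 * Real.pi := Real.rpow_one _

theorem exb_Yd {Y : ℝ} (hY : 1 ≤ Y) (z : ℂ) :
    DifferentiableAt ℂ (fun z : ℂ => ((Y / (2 * Real.pi) : ℝ) : ℂ) ^ z) z := by
  have hpi := Real.pi_pos
  have h1 : ((Y / (2 * Real.pi) : ℝ) : ℂ) ≠ 0 := by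
    have : (Y / (2 * Real.pi) : ℝ) ≠ 0 := by positivity
    exact_mod_cast this
  exact differentiableAt_id.const_cpow (Or.inl h1)

theorem exb_Gd {z : ℂ} (hz : -(3 / 10) < z.re) :
    DifferentiableAt ℂ (fun z : ℂ => Complex.Gamma (1 + z)) z := by
  have h1 : DifferentiableAt ℂ Complex.Gamma (1 + z) := by
    apply Complex.differentiableAt_Gamma
    intro m hm
    have h2 := congrArg Complex.re hm
    simp only [add_re, one_re, neg_re, natCast_re] at h2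
    have h3 : (0 : ℝ) ≤ m := Nat.cast_nonneg m
    linarith
  exact DifferentiableAt.comp z h1 (by fun_prop)

theorem exb_exp {x : ℝ} (hx : 0 ≤ x) : (x + 3) ^ 4 * Real.exp (-(5 / 4 * x)) ≤
    16 ^ 4 * Real.exp (-x) := by
  have h1 : x + 3 ≤ 16 * Real.exp (x / 16) := by
    have := Real.add_one_le_exp (x / 16)
    linarith
  have h2 : (x + 3) ^ 4 ≤ (16 * Real.exp (x / 16)) ^ 4 := pow_le_pow_left₀ (by linarith) h1 4
  have h3 : (16 * Real.exp (x / 16)) ^ 4 = 16 ^ 4 * Real.exp (x / 4) := by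
    rw [mul_pow, ← Real.exp_nat_mul]
    congr 2
    push_cast
    ring
  calc (x + 3) ^ 4 * Real.exp (-(5 / 4 * x))
      ≤ 16 ^ 4 * Real.exp (x / 4) * Real.exp (-(5 / 4 * x)) := by
        rw [← h3]
        exact mul_le_mul_of_nonneg_right h2 (Real.exp_pos _).le
    _ = 16 ^ 4 * Real.exp (-x) := by
        rw [mul_assoc, ← Real.exp_add]
        congr 2
        ring

variable {q : ℕ} [NeZero q]

theorem h1_facts_pr : ∃ C : ℝ, ∀ (q : ℕ) [NeZero q] (χ : DirichletCharacter ℂ q), PQ χ →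
    ∀ (I : Finset ℕ) (P : Measure (ℕ → ℝ)), (∀ p ∈ I, p.Prime) → IsST I P →
    ∀ K : ℕ, 1 ≤ K → (∀ p : ℕ, p.Prime → p ≤ K → p ∈ I) → ∀ (B : ℕ → ℝ) (b₀ : ℝ), SuppIn K B →
    (∀ k, |B k| ≤ b₀) → ∀ Y : ℝ, 1 ≤ Y →
    ∀ z : ℂ, -(3 / 10) < z.re → z.re < 8 / 5 → DifferentiableAt ℂ (H1 χ P I K B Y) z ∧
      ‖H1 χ P I K B Y z‖ ≤ C * b₀ * q ^ 4 * K ^ 30 * Y ^ z.re * Real.exp (-|z.im|) := by
  obtain ⟨Cg, hCg0, hCg⟩ := exb_gamma (θ := 5 / 4) (by norm_num)
    (by linarith [Real.pi_gt_three]) (x := 7 / 10) (y := 13 / 5) (by norm_num)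
  obtain ⟨CL, hCL⟩ := Pool.Agent.LK.zk_bound_pr
  refine ⟨2 * Real.pi * Cg * |CL| * 16 ^ 4, fun q _ χ hχ I P hI hP K hK hKI B b₀ hB hb Y hY z hz1 hz2 => ?_⟩
  have hb0 : 0 ≤ b₀ := (abs_nonneg (B 0)).trans (hb 0)
  have hq1 : (1 : ℝ) ≤ q := by exact_mod_cast Nat.one_le_iff_ne_zero.mpr (NeZero.ne q)
  have hw : ∀ p ∈ I, Measurable (w1 χ z p) ∧ (∀ x : ℝ, |x| ≤ 2 → ‖w1 χ z p x‖ ≤ 10 ^ 6) ∧
      1 / 50 ≤ ‖∫ x, w1 χ z p (x p) ∂P‖ := fun p hp => by
    obtain ⟨h1, h2, h3⟩ := w1_facts_pr χ (hI p hp) hz1.le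
    exact ⟨h1, h2, h3 I P hP hp⟩
  have hE := (ew_bound_pr hI hP hw hK hKI hB).2.2 b₀ hb
  have hEd : DifferentiableAt ℂ (fun z : ℂ => EW P I (w1 χ z) (MX K B)) z := by
    refine (ew_diff_pr χ hI hP hKI hB).2.differentiableAt ?_
    exact (isOpen_lt continuous_const continuous_re).mem_nhds hz1
  have hLd : DifferentiableAt ℂ (fun z : ℂ => DirichletCharacter.LFunction χ (1 + z)) z :=
    DifferentiableAt.comp z (DirichletCharacter.differentiable_LFunction hχ.ne _) (by fun_prop)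
  have hre : (1 + z).re = 1 + z.re := by simp
  have him : (1 + z).im = z.im := by simp
  have hL := (hCL q χ hχ.ne (1 + z) (by rw [hre]; linarith) (by rw [hre]; linarith)).1.1
  rw [him] at hL
  have hG := hCg (1 + z) (by rw [hre]; linarith) (by rw [hre]; linarith)
  rw [him] at hG
  constructor
  · exact (((exb_Yd hY z).mul (exb_Gd hz1)).mul hLd).mul hEd
  · unfold H1
    rw [norm_mul, norm_mul, norm_mul]
    have hY1 := exb_Y hY hz1
    have hY0 : 0 < Y := by linarith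
    have hYp : 0 < Y ^ z.re := Real.rpow_pos_of_pos hY0 _
    have ht : 0 ≤ |z.im| := abs_nonneg _
    have hL' : ‖DirichletCharacter.LFunction χ (1 + z)‖ ≤ |CL| * q * (|z.im| + 3) := by
      refine hL.trans ?_
      have h1 : CL * q ≤ |CL| * q := mul_le_mul_of_nonneg_right (le_abs_self _) (by linarith)
      have h2 : 0 ≤ |CL| * q := by positivity
      nlinarith
    have hexp := exb_exp ht
    have h4 : |z.im| + 3 ≤ (|z.im| + 3) ^ 4 := by
      have : 1 ≤ |z.im| + 3 := by linarith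
      exact le_self_pow₀ this (by norm_num)
    calc ‖((Y / (2 * Real.pi) : ℝ) : ℂ) ^ z‖ * ‖Complex.Gamma (1 + z)‖ *
          ‖DirichletCharacter.LFunction χ (1 + z)‖ * ‖EW P I (w1 χ z) (MX K B)‖
        ≤ (2 * Real.pi * Y ^ z.re) * (Cg * Real.exp (-(5 / 4 * |z.im|))) *
          (|CL| * q * (|z.im| + 3)) * (b₀ * (K : ℝ) ^ (30 : ℕ)) := by
          gcongr
      _ = (2 * Real.pi * Cg * |CL| * b₀ * q * K ^ 30 * Y ^ z.re) *
          ((|z.im| + 3) * Real.exp (-(5 / 4 * |z.im|))) := by ring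
      _ ≤ (2 * Real.pi * Cg * |CL| * b₀ * q ^ 4 * K ^ 30 * Y ^ z.re) *
          (16 ^ 4 * Real.exp (-|z.im|)) := by
          have h5 : (q : ℝ) ≤ (q : ℝ) ^ 4 := le_self_pow₀ hq1 (by norm_num)
          have h6 : (|z.im| + 3) * Real.exp (-(5 / 4 * |z.im|)) ≤ 16 ^ 4 * Real.exp (-|z.im|) :=
            (mul_le_mul_of_nonneg_right h4 (Real.exp_pos _).le).trans hexp
          have hpi := Real.pi_pos
          gcongr
      _ = _ := by ring

end Pool.Agent.LE
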