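import Pool.Agent.Lib_helper53.LE.Defs
import Pool.Agent.Lib_helper53.LEF.GA

/-! LSP3, block EY: the tail of the twist (from `v_facts`). -/

set_option autoImplicit false

namespace Pool.Agent.LE

open Complex MeasureTheory ProbabilityTheory
open Pool.Agent.LSP (tau MX CC CB sg1 wX)
open Pool.Agent.LK (Qe V PQ MW)

/-- block EY: the tail of the twist -/
theorem tail_le_pr (i : ℕ) : ∃ C : ℝ, ∀ Y : ℝ, 1 ≤ Y → ∀ E₀ : ℕ, Y * (1 + Real.log Y) ≤ E₀ →
    (Summable fun e : ℕ => |V i (e / Y)|) ∧
    ∑' e : ℕ, (if E₀ < e then |V i (e / Y)| else 0) ≤ C * Y ^ (-5 : ℝ) ∧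
    ∀ y : ℝ, 0 < y → |V i y| ≤ C * (1 + |Real.log y|) ^ i * Real.exp (-y) := by
  obtain ⟨Cv, hCv, h1, h2, -⟩ := LEGA.v_facts_pr i
  refine ⟨Cv + 8, fun Y hY E₀ hE₀ => ?_⟩
  have hY0 : 0 < Y := by linarith
  have hlog : 0 ≤ Real.log Y := Real.log_nonneg hY
  set r : ℝ := Real.exp (-(1 / (4 * Y))) with hr
  have hr0 : 0 < r := Real.exp_pos _
  have hr1 : r < 1 := by
    rw [hr, Real.exp_lt_one_iff, neg_lt_zero]
    positivity
  have hpi : 6 + 1 / 4 ≤ 2 * Real.pi := by
    have := Real.pi_gt_d2
    linarith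
  -- the bound for the large terms
  have hV : ∀ e : ℕ, Y ≤ e → |V i (e / Y)| ≤ Real.exp (-(6 * (e / Y))) * r ^ e := by
    intro e he
    have he1 : 1 ≤ (e : ℝ) / Y := (one_le_div hY0).mpr he
    rw [abs_of_nonneg (h1 _ (by linarith)).1]
    refine (h2 _ he1).trans ?_
    rw [hr, ← Real.exp_nat_mul, ← Real.exp_add, Real.exp_le_exp]
    have h3 : (e : ℝ) * -(1 / (4 * Y)) = -(1 / 4 * (e / Y)) := by field_simp
    rw [h3]
    nlinarith
  have hsum : Summable fun e : ℕ => |V i (e / Y)| := by
    refine Summable.of_norm_bounded_eventually_nat (summable_geometric_of_lt_one hr0.le hr1) ?_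
    filter_upwards [Filter.eventually_ge_atTop ⌈Y⌉₊] with e he
    have he' : Y ≤ e := (Nat.le_ceil Y).trans (by exact_mod_cast he)
    rw [Real.norm_eq_abs, abs_abs]
    refine (hV e he').trans ?_
    calc _ ≤ 1 * r ^ e := by
          refine mul_le_mul_of_nonneg_right ?_ (by positivity)
          rw [Real.exp_le_one_iff, neg_nonpos]
          positivity
      _ = r ^ e := one_mul _
  refine ⟨hsum, ?_, fun y hy => ?_⟩
  · have hbd : ∀ e : ℕ, (if E₀ < e then |V i (e / Y)| else 0) ≤ Y ^ (-6 : ℝ) * r ^ e := by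
      intro e
      split_ifs with h
      · have he : Y * (1 + Real.log Y) ≤ e := hE₀.trans (by exact_mod_cast h.le)
        have he' : Y ≤ e := by nlinarith
        refine (hV e he').trans (mul_le_mul_of_nonneg_right ?_ (by positivity))
        rw [Real.rpow_def_of_pos hY0, Real.exp_le_exp]
        have h3 : 1 + Real.log Y ≤ e / Y := by
          rw [le_div_iff₀ hY0]
          linarith
        nlinarith
      · positivity
    have hs2 : Summable fun e : ℕ => Y ^ (-6 : ℝ) * r ^ e :=
      (summable_geometric_of_lt_one hr0.le hr1).mul_left _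
    have hs1 : Summable fun e : ℕ => (if E₀ < e then |V i (e / Y)| else 0) :=
      Summable.of_nonneg_of_le (fun e => by split_ifs <;> positivity) hbd hs2
    refine (hs1.tsum_le_tsum hbd hs2).trans ?_
    rw [tsum_mul_left, tsum_geometric_of_lt_one hr0.le hr1]
    have h4 : 1 / (8 * Y) ≤ 1 - r := by
      set x : ℝ := 1 / (4 * Y) with hx
      have hx0 : 0 < x := by positivity
      have hx1 : x ≤ 1 := by
        rw [hx, div_le_one (by positivity)]
        linarith
      have h5 : r ≤ 1 - x / 2 := by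
        rw [hr, Real.exp_neg]
        have h6 : 1 + x ≤ Real.exp x := by
          have := Real.add_one_le_exp x
          linarith
        rw [inv_le_comm₀ (Real.exp_pos _) (by linarith)]
        refine le_trans ?_ h6
        rw [inv_le_iff_one_le_mul₀ (by linarith)]
        nlinarith
      have h7 : 1 / (8 * Y) = x / 2 := by
        rw [hx]
        field_simp
        ring
      rw [h7]
      linarith
    have h5 : (1 - r)⁻¹ ≤ 8 * Y := by
      rw [inv_le_comm₀ (by linarith) (by positivity), ← one_div]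
      exact h4
    calc Y ^ (-6 : ℝ) * (1 - r)⁻¹ ≤ Y ^ (-6 : ℝ) * (8 * Y) :=
          mul_le_mul_of_nonneg_left h5 (by positivity)
      _ = 8 * Y ^ (-5 : ℝ) := by
          have : Y ^ (-5 : ℝ) = Y ^ (-6 : ℝ) * Y := by
            conv_rhs => rw [← Real.rpow_one Y, ← Real.rpow_mul hY0.le, one_mul,
              ← Real.rpow_add hY0]
            norm_num
          rw [this]
          ring
      _ ≤ (Cv + 8) * Y ^ (-5 : ℝ) := mul_le_mul_of_nonneg_right (by linarith) (by positivity)
  · rw [abs_of_nonneg (h1 y hy).1]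
    refine (h1 y hy).2.trans ?_
    refine mul_le_mul_of_nonneg_right ?_ (Real.exp_pos _).le
    exact mul_le_mul_of_nonneg_right (by linarith) (by positivity)

end Pool.Agent.LE
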