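import Pool.Agent.Lib_helper53.LE.Defs
import Pool.Agent.Lib_helper31.LKF.KP2
import Pool.Agent.Lib_helper41.LVBF.ELF
import Pool.Agent.Lib_helper68.KSLF.ERP
import Pool.Agent.Lib_helper53.LEF.EF
import Pool.Agent.Lib_helper53.LEF.EH
import Pool.Agent.Lib_helper53.LEF.EJ
import Pool.Agent.Lib_helper53.LEF.EK
import Pool.Agent.Lib_helper53.LEF.EO
import Pool.Agent.Lib_helper53.LEF.EP
import Pool.Agent.Lib_helper53.LEF.EQ
import Pool.Agent.Lib_helper53.LEF.ER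
import Pool.Agent.Lib_helper53.LEF.ET
import Pool.Agent.Lib_helper53.LEF.EU
import Pool.Agent.Lib_helper53.LEF.EV
import Pool.Agent.Lib_helper53.LEF.EW
import Pool.Agent.Lib_helper53.LEF.EX
import Pool.Agent.Lib_helper53.LEF.EY

/-! LSP3, block EZ: the quadratic and the linear functional. -/

set_option autoImplicit false

namespace Pool.Agent.LE

open Complex MeasureTheory ProbabilityTheory
open Pool.Agent.LSP (tau MX CC CB sg1 wX)
open Pool.Agent.KSL (WW)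
open Pool.Agent.LEV (Uu Um)
open Pool.Agent.LVB (IsST el)
open Pool.Agent.LK (Qe V PQ MW)

theorem ez_tk {Q : ℕ → ℂ} {C : ℝ} (hQ : ∀ e, ‖Q e‖ ≤ C) {k : ℕ} (hk : 1 ≤ k) (e : ℕ) :
    ‖TK Q k e‖ ≤ C * k := by
  have hC : 0 ≤ C := (norm_nonneg _).trans (hQ 0)
  unfold TK
  calc ‖∑ d ∈ (Nat.gcd e k).divisors, (1 / (d : ℂ)) * Q (e * k / d ^ 2)‖
      ≤ ∑ d ∈ (Nat.gcd e k).divisors, C := by
        refine norm_sum_le_of_le _ fun d hd => ?_
        rw [norm_mul, norm_div, norm_one, Complex.norm_natCast]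
        have hd1 : (1 : ℝ) ≤ d := by
          exact_mod_cast Nat.pos_of_mem_divisors hd
        calc 1 / (d : ℝ) * ‖Q (e * k / d ^ 2)‖ ≤ 1 * C :=
              mul_le_mul ((div_le_one (by linarith)).2 hd1) (hQ _) (norm_nonneg _) zero_le_one
          _ = C := one_mul C
    _ = (Nat.gcd e k).divisors.card * C := by rw [Finset.sum_const, nsmul_eq_mul]
    _ ≤ k * C := by
        refine mul_le_mul_of_nonneg_right ?_ hC
        have h1 := Nat.card_divisors_le_self (Nat.gcd e k)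
        have h2 := Nat.gcd_le_right e (Nat.lt_of_lt_of_le Nat.zero_lt_one hk)
        exact_mod_cast h1.trans h2
    _ = C * k := mul_comm _ _

variable {q : ℕ} [NeZero q]

theorem ez_chi0 {χ : DirichletCharacter ℂ q} (h : PQ χ) : χ ((0 : ℕ) : ZMod q) = 0 := by
  have hq : q ≠ 1 := by
    intro h1
    subst h1
    exact h.ne (Subsingleton.elim _ _)
  rw [Nat.cast_zero]
  exact MulChar.map_nonunit _ (by
    have : Nontrivial (ZMod q) := by
      have : Fact (1 < q) := ⟨by have := NeZero.ne q; omega⟩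
      infer_instance
    exact not_isUnit_zero)

theorem ez_sq {a : ℂ} (h : a ^ 2 = 1) : a = 1 ∨ a = -1 := by
  have h1 : (a - 1) * (a + 1) = 0 := by linear_combination h
  rcases mul_eq_zero.mp h1 with h2 | h2
  · left; linear_combination h2
  · right; linear_combination h2

theorem ez_re {χ : DirichletCharacter ℂ q} (h : PQ χ) (a : ZMod q) : ((χ a).re : ℂ) = χ a := by
  have h1 : χ a ^ 2 = (χ ^ 2) a := by
    rw [MulChar.pow_apply' _ (by norm_num)]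
  by_cases hu : IsUnit a
  · rw [h.sq, MulChar.one_apply hu] at h1
    rcases ez_sq h1 with h2 | h2 <;> simp [h2]
  · rw [MulChar.map_nonunit _ hu]
    simp

theorem ez_xi {χ : DirichletCharacter ℂ q} (h : PQ χ) {z : ℂ} (hz : z.re = 3 / 2) :
    xi χ z 0 = 0 ∧ xi χ z 1 = 1 ∧ (∀ m n, xi χ z (m * n) = xi χ z m * xi χ z n) ∧
      ∀ e : ℕ, ‖xi χ z e‖ ≤ (e : ℝ) ^ (-(3 / 2) : ℝ) := by
  refine ⟨?_, ?_, fun m n => ?_, fun e => ?_⟩
  · unfold xi
    rw [ez_chi0 h, zero_mul]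
  · unfold xi
    simp
  · unfold xi
    push_cast
    rw [map_mul, Complex.natCast_mul_natCast_cpow]
    ring
  · unfold xi
    rw [norm_mul]
    rcases Nat.eq_zero_or_pos e with rfl | he
    · rw [ez_chi0 h]
      simp
    · rw [Complex.norm_natCast_cpow_of_pos he]
      have h1 : (-z).re = -(3 / 2) := by rw [neg_re, hz]
      rw [h1]
      calc ‖χ (e : ZMod q)‖ * (e : ℝ) ^ (-(3 / 2) : ℝ) ≤ 1 * (e : ℝ) ^ (-(3 / 2) : ℝ) :=
            mul_le_mul_of_nonneg_right (DirichletCharacter.norm_le_one _ _) (by positivity)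
        _ = _ := one_mul _

/-- the coefficients of the smooth sum -/
noncomputable def ezc (χ : DirichletCharacter ℂ q) (Q : ℕ → ℂ) (K : ℕ) (B : ℕ → ℝ) (e : ℕ) : ℂ :=
  χ e * ∑ k ∈ Finset.Icc 1 K, (B k : ℂ) * TK Q k e

theorem ezc_bound (χ : DirichletCharacter ℂ q) {Q : ℕ → ℂ} {C : ℝ} (hQ : ∀ e, ‖Q e‖ ≤ C) {K : ℕ}
    {B : ℕ → ℝ} {b₀ : ℝ} (hB : ∀ k, |B k| ≤ b₀) (e : ℕ) : ‖ezc χ Q K B e‖ ≤ C * b₀ * K ^ 2 := by
  have hC : 0 ≤ C := (norm_nonneg _).trans (hQ 0)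
  have hb : 0 ≤ b₀ := (abs_nonneg _).trans (hB 0)
  unfold ezc
  rw [norm_mul]
  calc ‖χ (e : ZMod q)‖ * ‖∑ k ∈ Finset.Icc 1 K, (B k : ℂ) * TK Q k e‖
      ≤ 1 * ∑ k ∈ Finset.Icc 1 K, b₀ * (C * K) := by
        refine mul_le_mul (DirichletCharacter.norm_le_one _ _) ?_ (norm_nonneg _) zero_le_one
        refine norm_sum_le_of_le _ fun k hk => ?_
        have hk' := Finset.mem_Icc.mp hk
        rw [norm_mul, Complex.norm_real, Real.norm_eq_abs]
        refine mul_le_mul (hB k) ((ez_tk hQ hk'.1 e).trans ?_) (norm_nonneg _) hb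
        exact mul_le_mul_of_nonneg_left (by exact_mod_cast hk'.2) hC
    _ = C * b₀ * K ^ 2 := by
        rw [Finset.sum_const, nsmul_eq_mul, Nat.card_Icc, Nat.add_sub_cancel]
        ring

theorem ez_summ {χ : DirichletCharacter ℂ q} (h : PQ χ) {Q : ℕ → ℂ} {C : ℝ}
    (hQ : ∀ e, ‖Q e‖ ≤ C) {z : ℂ} (hz : z.re = 3 / 2) {k : ℕ} (hk : 1 ≤ k) :
    Summable (fun e : ℕ => xi χ z e * TK Q k e) := by
  refine Summable.of_norm_bounded (g := fun e : ℕ => C * k * (e : ℝ) ^ (-(3 / 2) : ℝ)) ?_ ?_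
  · exact (Real.summable_nat_rpow.mpr (by norm_num)).mul_left _
  · intro e
    rw [norm_mul]
    have h1 := (ez_xi h hz).2.2.2 e
    have h2 := ez_tk hQ hk e
    calc ‖xi χ z e‖ * ‖TK Q k e‖ ≤ (e : ℝ) ^ (-(3 / 2) : ℝ) * (C * k) :=
          mul_le_mul h1 h2 (norm_nonneg _) (by positivity)
      _ = _ := by ring

theorem ez_ser {χ : DirichletCharacter ℂ q} (h : PQ χ) {Q : ℕ → ℂ} {C : ℝ}
    (hQ : ∀ e, ‖Q e‖ ≤ C) {z : ℂ} (hz : z.re = 3 / 2) (K : ℕ) (B : ℕ → ℝ) :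
    ∑' e : ℕ, ezc χ Q K B e * (e : ℂ) ^ (-z) =
      ∑ k ∈ Finset.Icc 1 K, (B k : ℂ) * TS (xi χ z) Q k := by
  have h1 : ∀ e : ℕ, ezc χ Q K B e * (e : ℂ) ^ (-z) =
      ∑ k ∈ Finset.Icc 1 K, (B k : ℂ) * (xi χ z e * TK Q k e) := by
    intro e
    unfold ezc xi
    rw [Finset.mul_sum, Finset.sum_mul]
    exact Finset.sum_congr rfl fun k _ => by ring
  simp_rw [h1]
  rw [Summable.tsum_finsetSum fun k hk =>
    (ez_summ h hQ hz (Finset.mem_Icc.mp hk).1).mul_left _]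
  refine Finset.sum_congr rfl fun k _ => ?_
  unfold TS
  rw [tsum_mul_left]

theorem ez_exp : Integrable (fun z : ℝ => Real.exp (-|z| / 2)) := by
  have h1 : IntegrableOn (fun z : ℝ => Real.exp (-|z| / 2)) (Set.Iic 0) := by
    refine (integrableOn_exp_mul_Iic (a := 1 / 2) (by norm_num) 0).congr_fun ?_ measurableSet_Iic
    intro z hz
    simp only
    rw [abs_of_nonpos hz]
    congr 1
    ring
  have h2 : IntegrableOn (fun z : ℝ => Real.exp (-|z| / 2)) (Set.Ioi 0) := by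
    refine (integrableOn_exp_mul_Ioi (a := -(1 / 2)) (by norm_num) 0).congr_fun ?_ measurableSet_Ioi
    intro z hz
    simp only
    rw [abs_of_pos hz]
    congr 1
    ring
  have h3 := h1.union h2
  rwa [Set.Iic_union_Ioi, integrableOn_univ] at h3

theorem ez_core (i : ℕ) : ∃ C : ℝ, 0 ≤ C ∧ ∀ (q : ℕ) [NeZero q] (χ : DirichletCharacter ℂ q), PQ χ →
    ∀ (K : ℕ) (B : ℕ → ℝ) (b₀ : ℝ), (∀ k, |B k| ≤ b₀) → ∀ (Q : ℕ → ℂ) (CQ : ℝ),
    (∀ e, ‖Q e‖ ≤ CQ) → ∀ Y : ℝ, 1 ≤ Y → ∀ E₀ : ℕ, Y * (1 + Real.log Y) ≤ E₀ →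
    ∀ (s : ℂ) (ρ : ℝ), ‖s‖ ≤ 1 / 8 → ‖s‖ < ρ → ρ < 1 / 4 → ∀ (H : ℂ → ℂ) (M : ℝ),
    (∀ z : ℂ, -(3 / 10) < z.re → z.re < 8 / 5 → DifferentiableAt ℂ H z ∧
      ‖H z‖ ≤ M * Y ^ z.re * Real.exp (-|z.im| / 2)) →
    (∀ z : ℂ, z.re = 3 / 2 → (2 * Real.pi : ℂ) ^ (-z) * Complex.Gamma z / z ^ i * (Y : ℂ) ^ z *
      ∑ k ∈ Finset.Icc 1 K, (B k : ℂ) * TS (xi χ z) Q k = H z / (z ^ (i + 1) * (z + s))) →
    ‖∑ k ∈ Finset.Icc 1 K, (B k : ℂ) * ∑ e ∈ Finset.Icc 1 E₀, (xv χ i Y E₀ e : ℂ) * TK Q k e -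
      1 / (2 * Real.pi * Complex.I) * ∮ z in C(0, ρ), H z / (z ^ (i + 1) * (z + s))‖ ≤
      C * (M + CQ * b₀ * K ^ 2) * Y ^ (-(1 / 4) : ℝ) := by
  obtain ⟨CT, hCT⟩ := tail_le_pr i
  have hCT0 : 0 ≤ CT := by
    obtain ⟨-, h2, -⟩ := hCT 1 le_rfl 1 (by norm_num)
    have h3 : (0 : ℝ) ≤ ∑' e : ℕ, (if 1 < e then |V i (e / 1)| else 0) :=
      tsum_nonneg fun e => by split_ifs <;> positivity
    have h4 : CT * (1 : ℝ) ^ (-5 : ℝ) = CT := by rw [Real.one_rpow, mul_one]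
    linarith
  obtain ⟨CE, hCE⟩ : ∃ CE : ℝ, CE = ∫ t : ℝ, Real.exp (-|t| / 2) := ⟨_, rfl⟩
  have hCE0 : 0 ≤ CE := by rw [hCE]; exact integral_nonneg fun t => (Real.exp_pos _).le
  refine ⟨4 ^ (i + 1) * 8 * CE + CT, by positivity, ?_⟩
  intro q _ χ h K B b₀ hB Q CQ hQ Y hY E₀ hE₀ s ρ hs hsρ hρ H M hH hHrep
  have hC : 0 ≤ CQ := (norm_nonneg _).trans (hQ 0)
  have hb : 0 ≤ b₀ := (abs_nonneg _).trans (hB 0)
  have hY0 : 0 < Y := by linarith
  obtain ⟨hsum, htail, -⟩ := hCT Y hY E₀ hE₀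
  obtain ⟨hmel1, hmel2⟩ := mel_pr (LK.mw_V_pr i) (c := ezc χ Q K B) (C := CQ * b₀ * K ^ 2)
    (by unfold ezc; rw [ez_chi0 h, zero_mul]) (fun e => ezc_bound χ hQ hB e) hY0
  have hM0 : 0 ≤ M := by
    have h1 := (hH 0 (by norm_num) (by norm_num)).2
    have h2 := (norm_nonneg _).trans h1
    simp at h2
    exact h2
  -- the integrand
  have hint : ∀ t : ℝ, (2 * Real.pi : ℂ) ^ (-(3 / 2 + t * I : ℂ)) *
      Complex.Gamma (3 / 2 + t * I) / (3 / 2 + t * I) ^ i * (Y : ℂ) ^ (3 / 2 + t * I : ℂ) *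
        ∑' e : ℕ, ezc χ Q K B e * (e : ℂ) ^ (-(3 / 2 + t * I : ℂ)) =
      H (3 / 2 + t * I) / ((3 / 2 + t * I) ^ (i + 1) * (3 / 2 + t * I + s)) := by
    intro t
    have hz : (3 / 2 + t * I : ℂ).re = 3 / 2 := by simp
    rw [ez_ser h hQ hz]
    exact hHrep _ hz
  simp_rw [hint] at hmel2
  obtain ⟨hi1, hi2, hres⟩ := res_two_pr (H := H) (C := M * Y ^ (8 / 5 : ℝ))
    (fun z h1 h2 => (hH z h1 h2).1) (fun z h1 h2 => ((hH z h1 h2).2).trans (by
      gcongr)) i hsρ hρ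
  -- the remaining integral
  have hrem : ‖1 / (2 * Real.pi) * (∫ t : ℝ, H (-(1 / 4) + t * I) /
      ((-(1 / 4) + t * I) ^ (i + 1) * (-(1 / 4) + t * I + s)))‖ ≤
      4 ^ (i + 1) * 8 * CE * M * Y ^ (-(1 / 4) : ℝ) := by
    have hpt : ∀ t : ℝ, ‖H (-(1 / 4) + t * I) /
        ((-(1 / 4) + t * I) ^ (i + 1) * (-(1 / 4) + t * I + s))‖ ≤
        4 ^ (i + 1) * 8 * M * Y ^ (-(1 / 4) : ℝ) * Real.exp (-|t| / 2) := by
      intro t
      set z : ℂ := -(1 / 4) + t * I with hz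
      have hzre : z.re = -(1 / 4) := by simp [hz]
      have hzim : z.im = t := by simp [hz]
      have h1 := (hH z (by rw [hzre]; norm_num) (by rw [hzre]; norm_num)).2
      rw [hzre, hzim] at h1
      have h2 : 1 / 4 ≤ ‖z‖ := by
        have := Complex.abs_re_le_norm z
        rw [hzre] at this
        calc (1 / 4 : ℝ) = |(-(1 / 4) : ℝ)| := by rw [abs_neg, abs_of_pos (by norm_num)]
          _ ≤ _ := this
      have h3 : 1 / 8 ≤ ‖z + s‖ := by
        have := norm_sub_norm_le z (-s)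
        rw [sub_neg_eq_add, norm_neg] at this
        linarith
      have h4 : (1 / 4 : ℝ) ^ (i + 1) * (1 / 8) ≤ ‖z ^ (i + 1) * (z + s)‖ := by
        rw [norm_mul, norm_pow]
        gcongr
      rw [norm_div]
      have h5 : 0 < (1 / 4 : ℝ) ^ (i + 1) * (1 / 8) := by positivity
      calc ‖H z‖ / ‖z ^ (i + 1) * (z + s)‖
          ≤ (M * Y ^ (-(1 / 4) : ℝ) * Real.exp (-|t| / 2)) / ((1 / 4 : ℝ) ^ (i + 1) * (1 / 8)) := by
            gcongr
        _ = _ := by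
            rw [one_div_pow]
            field_simp
    rw [norm_mul]
    have hpi : ‖(1 / (2 * Real.pi) : ℂ)‖ ≤ 1 := by
      rw [norm_div, norm_one, norm_mul, Complex.norm_ofNat, Complex.norm_real,
        Real.norm_of_nonneg Real.pi_pos.le, div_le_one (by positivity)]
      have := Real.pi_gt_three
      linarith
    calc ‖(1 / (2 * Real.pi) : ℂ)‖ * ‖∫ t : ℝ, H (-(1 / 4) + t * I) /
          ((-(1 / 4) + t * I) ^ (i + 1) * (-(1 / 4) + t * I + s))‖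
        ≤ 1 * ∫ t : ℝ, 4 ^ (i + 1) * 8 * M * Y ^ (-(1 / 4) : ℝ) * Real.exp (-|t| / 2) := by
          refine mul_le_mul hpi ?_ (norm_nonneg _) zero_le_one
          exact norm_integral_le_of_norm_le (ez_exp.const_mul _)
            (Filter.Eventually.of_forall hpt)
      _ = _ := by
          rw [integral_const_mul, ← hCE]
          ring
  -- the finite sum
  set f : ℕ → ℂ := fun e => ezc χ Q K B e * (V i (e / Y) : ℂ) with hf
  have hfs : Summable f := by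
    refine Summable.of_norm_bounded hmel1 fun e => ?_
    rw [hf, norm_mul, Complex.norm_real, Real.norm_eq_abs]
  have hfin : ∑ k ∈ Finset.Icc 1 K, (B k : ℂ) *
      ∑ e ∈ Finset.Icc 1 E₀, (xv χ i Y E₀ e : ℂ) * TK Q k e = ∑ e ∈ Finset.Icc 1 E₀, f e := by
    simp_rw [Finset.mul_sum]
    rw [Finset.sum_comm]
    refine Finset.sum_congr rfl fun e he => ?_
    have he' := Finset.mem_Icc.mp he
    simp only [hf]
    unfold ezc xv
    rw [if_pos he', Finset.mul_sum, Finset.sum_mul]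
    refine Finset.sum_congr rfl fun k _ => ?_
    push_cast
    rw [ez_re h]
    ring
  have hf0 : f 0 = 0 := by
    simp only [hf]
    unfold ezc
    rw [ez_chi0 h]
    ring
  have htot : ∑' e : ℕ, f e = ∑ e ∈ Finset.Icc 1 E₀, f e +
      ∑' e : ℕ, (if E₀ < e then f e else 0) := by
    have h1 : ∀ e : ℕ, f e = (if e ∈ Finset.Icc 1 E₀ then f e else 0) +
        (if E₀ < e then f e else 0) := by
      intro e
      rcases Nat.eq_zero_or_pos e with rfl | he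
      · simp [hf0]
      · by_cases h2 : e ≤ E₀
        · rw [if_pos (Finset.mem_Icc.mpr ⟨he, h2⟩), if_neg (by omega), add_zero]
        · rw [if_neg (by rw [Finset.mem_Icc]; omega), if_pos (by omega), zero_add]
    have h2 : Summable (fun e : ℕ => if e ∈ Finset.Icc 1 E₀ then f e else 0) :=
      summable_of_ne_finset_zero (s := Finset.Icc 1 E₀) fun e he => if_neg he
    have h3 : Summable (fun e : ℕ => if E₀ < e then f e else 0) := by
      refine Summable.of_norm_bounded hfs.norm fun e => ?_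
      split_ifs
      · exact le_rfl
      · simp
    rw [tsum_congr h1, h2.tsum_add h3]
    congr 1
    rw [tsum_eq_sum (s := Finset.Icc 1 E₀) fun e he => if_neg he]
    exact Finset.sum_congr rfl fun e he => if_pos he
  have htl : ‖∑' e : ℕ, (if E₀ < e then f e else 0)‖ ≤
      CQ * b₀ * K ^ 2 * (CT * Y ^ (-5 : ℝ)) := by
    have h1 : Summable (fun e : ℕ => if E₀ < e then |V i (e / Y)| else 0) := by
      refine Summable.of_norm_bounded hsum fun e => ?_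
      split_ifs
      · rw [Real.norm_eq_abs, abs_abs]
      · simp
    refine (tsum_of_norm_bounded (h1.mul_left (CQ * b₀ * K ^ 2)).hasSum fun e => ?_).trans ?_
    · split_ifs
      · simp only [hf]
        rw [norm_mul, Complex.norm_real, Real.norm_eq_abs]
        exact mul_le_mul_of_nonneg_right (ezc_bound χ hQ hB e) (abs_nonneg _)
      · simp
    · rw [tsum_mul_left]
      exact mul_le_mul_of_nonneg_left htail (by positivity)
  have hY5 : Y ^ (-5 : ℝ) ≤ Y ^ (-(1 / 4) : ℝ) :=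
    Real.rpow_le_rpow_of_exponent_le hY (by norm_num)
  have hmain : ∑ e ∈ Finset.Icc 1 E₀, f e - 1 / (2 * Real.pi * Complex.I) *
      ∮ z in C(0, ρ), H z / (z ^ (i + 1) * (z + s)) =
      1 / (2 * Real.pi) * (∫ t : ℝ, H (-(1 / 4) + t * I) /
        ((-(1 / 4) + t * I) ^ (i + 1) * (-(1 / 4) + t * I + s))) -
      ∑' e : ℕ, (if E₀ < e then f e else 0) := by
    rw [← hres]
    have h1 := hmel2
    rw [htot] at h1
    linear_combination h1
  rw [hfin, hmain]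
  refine (norm_sub_le _ _).trans ?_
  have hYq : 0 ≤ Y ^ (-(1 / 4) : ℝ) := by positivity
  calc _ ≤ 4 ^ (i + 1) * 8 * CE * M * Y ^ (-(1 / 4) : ℝ) +
        CQ * b₀ * K ^ 2 * (CT * Y ^ (-(1 / 4) : ℝ)) := by
        refine add_le_add hrem (htl.trans ?_)
        gcongr
    _ ≤ _ := by
        have e1 : 0 ≤ 4 ^ (i + 1) * 8 * CE * (CQ * b₀ * K ^ 2) * Y ^ (-(1 / 4) : ℝ) := by
          positivity
        have e2 : 0 ≤ CT * M * Y ^ (-(1 / 4) : ℝ) := by positivity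
        nlinarith

theorem ez_gamma {z : ℂ} (hz : z ≠ 0) (i : ℕ) {Y : ℝ} (hY : 0 < Y) :
    (2 * Real.pi : ℂ) ^ (-z) * Complex.Gamma z / z ^ i * (Y : ℂ) ^ z =
      ((Y / (2 * Real.pi) : ℝ) : ℂ) ^ z * Complex.Gamma (1 + z) / z ^ (i + 1) := by
  have h1 : ((Y / (2 * Real.pi) : ℝ) : ℂ) ^ z = (Y : ℂ) ^ z * (2 * Real.pi : ℂ) ^ (-z) := by
    rw [div_eq_mul_inv, Complex.ofReal_mul, Complex.mul_cpow_ofReal_nonneg hY.le (by positivity)]
    congr 1
    rw [Complex.ofReal_inv, Complex.inv_cpow _ _ (by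
      rw [Complex.arg_ofReal_of_nonneg (by positivity)]
      exact Real.pi_pos.ne), Complex.cpow_neg]
    push_cast
    rfl
  rw [h1, add_comm 1 z, Complex.Gamma_add_one z hz, pow_succ]
  field_simp

theorem ez_pow_norm (χ : DirichletCharacter ℂ q) {p : ℕ} (hp : p.Prime) {r : ℂ}
    (hr : ‖r‖ ≤ 1 / 8) : ‖(p : ℂ) ^ (-r)‖ < Real.sqrt p ∧ ‖χ p * (p : ℂ) ^ (-r)‖ < Real.sqrt p := by
  have hp1 : (1 : ℝ) < p := by exact_mod_cast hp.one_lt
  have h1 : ‖(p : ℂ) ^ (-r)‖ < Real.sqrt p := by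
    rw [Complex.norm_natCast_cpow_of_pos hp.pos, Real.sqrt_eq_rpow]
    refine Real.rpow_lt_rpow_of_exponent_lt hp1 ?_
    have := (abs_le.mp ((Complex.abs_re_le_norm r).trans hr)).1
    rw [Complex.neg_re]
    linarith
  refine ⟨h1, ?_⟩
  rw [norm_mul]
  have h2 := DirichletCharacter.norm_le_one χ (p : ZMod q)
  nlinarith [norm_nonneg ((p : ℂ) ^ (-r))]

theorem ez_one_sub (χ : DirichletCharacter ℂ q) {p : ℕ} (hp : p.Prime) {r s : ℂ}
    (hr : ‖r‖ ≤ 1 / 8) (hs : ‖s‖ ≤ 1 / 8) : (1 - χ p * (p : ℂ) ^ (-1 - r - s)) ^ 2 *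
      (1 - (p : ℂ) ^ (-1 - 2 * r)) ≠ 0 := by
  have hp1 : (1 : ℝ) < p := by exact_mod_cast hp.one_lt
  have hre := (abs_le.mp ((Complex.abs_re_le_norm r).trans hr)).1
  have hse := (abs_le.mp ((Complex.abs_re_le_norm s).trans hs)).1
  have h1 : ‖(p : ℂ) ^ (-1 - r - s)‖ < 1 := by
    rw [Complex.norm_natCast_cpow_of_pos hp.pos]
    refine Real.rpow_lt_one_of_one_lt_of_neg hp1 ?_
    simp only [Complex.sub_re, Complex.neg_re, Complex.one_re]
    linarith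
  have h2 : ‖(p : ℂ) ^ (-1 - 2 * r)‖ < 1 := by
    rw [Complex.norm_natCast_cpow_of_pos hp.pos]
    refine Real.rpow_lt_one_of_one_lt_of_neg hp1 ?_
    simp only [Complex.sub_re, Complex.neg_re, Complex.one_re, Complex.mul_re, Complex.re_ofNat,
      Complex.im_ofNat, zero_mul, sub_zero]
    linarith
  refine mul_ne_zero (pow_ne_zero 2 fun h => ?_) fun h => ?_
  · have h3 : χ p * (p : ℂ) ^ (-1 - r - s) = 1 := by linear_combination -h
    have h4 : ‖χ p * (p : ℂ) ^ (-1 - r - s)‖ = 1 := by rw [h3, norm_one]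
    rw [norm_mul] at h4
    have h5 := DirichletCharacter.norm_le_one χ (p : ZMod q)
    nlinarith [norm_nonneg ((p : ℂ) ^ (-1 - r - s))]
  · have h3 : (p : ℂ) ^ (-1 - 2 * r) = 1 := by linear_combination -h
    rw [h3, norm_one] at h2
    exact lt_irrefl _ h2

theorem ez_wQ (χ : DirichletCharacter ℂ q) {p : ℕ} (hp : p.Prime) {r s : ℂ}
    (hr : ‖r‖ ≤ 1 / 8) (hs : ‖s‖ ≤ 1 / 8) : Measurable (wQ χ r s p) ∧
      ∃ C : ℝ, ∀ x : ℝ, |x| ≤ 2 → ‖wQ χ r s p x‖ ≤ C := by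
  refine ⟨((LVB.el_meas _ _).pow_const 2).mul (LVB.el_meas _ _), ?_⟩
  refine ⟨(1 / (1 - ‖(p : ℂ) ^ (-r)‖ / Real.sqrt p) ^ 2) ^ 2 *
    (1 / (1 - ‖χ p * (p : ℂ) ^ (-s)‖ / Real.sqrt p) ^ 2), fun x hx => ?_⟩
  unfold wQ
  rw [norm_mul, norm_pow]
  have h1 := (el_ser_pr hp (ez_pow_norm χ hp hr).1 hx).2
  have h2 := (el_ser_pr hp (ez_pow_norm χ hp hs).2 hx).2
  gcongr

theorem e_quad_pr (i : ℕ) : ∃ C : ℝ, ∀ (q : ℕ) [NeZero q] (χ : DirichletCharacter ℂ q), PQ χ →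
    ∀ (I : Finset ℕ) (P : Measure (ℕ → ℝ)), (∀ p ∈ I, p.Prime) → IsST I P →
    ∀ K : ℕ, 1 ≤ K → (∀ p : ℕ, p.Prime → p ≤ K → p ∈ I) → ∀ (B : ℕ → ℝ) (b₀ : ℝ), SuppIn K B →
    (∀ k, |B k| ≤ b₀) → ∀ Y : ℝ, 1 ≤ Y → ∀ E₀ : ℕ, Y * (1 + Real.log Y) ≤ E₀ →
    ∀ E : ℕ, E₀ * K ≤ E → ∀ r s : ℂ, ‖r‖ ≤ 1 / 8 → ‖s‖ ≤ 1 / 8 → ∀ ρ : ℝ, ‖s‖ < ρ → ρ < 1 / 4 →
    ‖∑ e ∈ Finset.Icc 1 E, (HP E (xv χ i Y E₀) B e : ℂ) * Qe χ e s r -
      1 / (2 * Real.pi * Complex.I) * ∮ z in C(0, ρ), H2 χ P I K B Y r s z / (z ^ (i + 1) * (z + s))‖ ≤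
      C * b₀ * q ^ 4 * K ^ 30 * Y ^ (-(1 / 4) : ℝ) := by
  obtain ⟨C₁, hC₁0, hC₁⟩ := ez_core i
  obtain ⟨C₂, hC₂⟩ := h2_facts_pr
  obtain ⟨CQ, hCQ⟩ := qe_bound_pr
  have hCQ0 : 0 ≤ CQ := (norm_nonneg _).trans
    (hCQ 1 (1 : DirichletCharacter ℂ 1) 0 0 (by simp) (by simp) 0)
  refine ⟨C₁ * (|C₂| + CQ), ?_⟩
  intro q _ χ h I P hI hP K hK hKI B b₀ hB hb Y hY E₀ hE₀ E hE r s hr hs ρ hsρ hρ
  have hb0 : 0 ≤ b₀ := (abs_nonneg _).trans (hb 0)
  have hq1 : (1 : ℝ) ≤ q := by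
    exact_mod_cast Nat.one_le_iff_ne_zero.mpr (NeZero.ne q)
  have hK1 : (1 : ℝ) ≤ K := by exact_mod_cast hK
  have hY0 : 0 < Y := by linarith
  have hxs : SuppIn E₀ (xv χ i Y E₀) := by
    intro e he
    unfold xv at he
    by_contra hc
    exact he (if_neg hc)
  have hlin := lin_twist_pr (x := xv χ i Y E₀) (E := E) (E' := E) hxs hB
    ((Nat.le_mul_of_pos_right _ hK).trans hE) hE (fun e => Qe χ e s r)
  rw [hlin]
  have hkey := hC₁ q χ h K B b₀ hb (fun e => Qe χ e s r) CQ (fun e => hCQ q χ r s hr hs e) Y hY E₀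
    hE₀ s ρ hs hsρ hρ (H2 χ P I K B Y r s) (|C₂| * b₀ * q ^ 4 * K ^ 30) ?_ ?_
  · refine hkey.trans ?_
    have h1 : (K : ℝ) ^ 2 ≤ q ^ 4 * (K : ℝ) ^ 30 := by
      have h2 : (K : ℝ) ^ 2 ≤ (K : ℝ) ^ 30 := pow_le_pow_right₀ hK1 (by norm_num)
      have h3 : (1 : ℝ) ≤ q ^ 4 := one_le_pow₀ hq1
      nlinarith [pow_pos (by linarith : (0 : ℝ) < K) 30]
    have h2 : |C₂| * b₀ * q ^ 4 * K ^ 30 + CQ * b₀ * K ^ 2 ≤
        (|C₂| + CQ) * b₀ * q ^ 4 * K ^ 30 := by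
      have h3 : CQ * b₀ * (K : ℝ) ^ 2 ≤ CQ * b₀ * (q ^ 4 * (K : ℝ) ^ 30) :=
        mul_le_mul_of_nonneg_left h1 (by positivity)
      nlinarith
    calc C₁ * (|C₂| * b₀ * q ^ 4 * K ^ 30 + CQ * b₀ * K ^ 2) * Y ^ (-(1 / 4) : ℝ)
        ≤ C₁ * ((|C₂| + CQ) * b₀ * q ^ 4 * K ^ 30) * Y ^ (-(1 / 4) : ℝ) := by gcongr
      _ = _ := by ring
  · intro z h1 h2
    obtain ⟨h3, h4⟩ := hC₂ q χ h I P hI hP K hK hKI B b₀ hB hb Y hY r s hr hs z h1 h2
    refine ⟨h3, h4.trans ?_⟩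
    have h5 : -|z.im| ≤ -|z.im| / 2 := by
      have := abs_nonneg z.im
      linarith
    gcongr
    exact le_abs_self C₂
  · intro z hz
    have hz0 : z ≠ 0 := by
      intro h0
      rw [h0] at hz
      norm_num at hz
    have hzs : z + s ≠ 0 := by
      intro h0
      have h1 : z = -s := by linear_combination h0
      have h2 := Complex.abs_re_le_norm s
      have h3 : z.re = -s.re := by rw [h1, Complex.neg_re]
      have h4 : s.re = -(3 / 2) := by linarith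
      rw [h4] at h2
      norm_num at h2
      linarith
    obtain ⟨x0, x1, xm, xb⟩ := ez_xi h hz
    obtain ⟨hq1', hqm⟩ := qe_mult_pr χ r s
    have hzre : -(3 / 10) ≤ z.re := by rw [hz]; norm_num
    have htw : ∀ k ∈ Finset.Icc 1 K, TS (xi χ z) (fun e => Qe χ e s r) k =
        TS (xi χ z) (fun e => Qe χ e s r) 1 * (1 / (Real.sqrt k : ℂ)) *
          EW P I (w2 χ r s z) (Um k) := by
      intro k hk
      have hk' := Finset.mem_Icc.mp hk
      have hkI : k.primeFactors ⊆ I := fun p hp => hKI p (Nat.prime_of_mem_primeFactors hp)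
        ((Nat.le_of_mem_primeFactors hp).trans hk'.2)
      refine tw_main_pr hI hP (G := wQ χ r s)
        (κ := fun p => (1 - χ p * (p : ℂ) ^ (-1 - r - s)) ^ 2 * (1 - (p : ℂ) ^ (-1 - 2 * r)))
        x0 x1 xm xb hqm (fun e => hCQ q χ r s hr hs e) ?_ ?_ ?_ ?_ ?_ hk'.1 hkI
      · exact fun p hp => (ez_wQ χ (hI p hp) hr hs).1
      · exact fun p hp => (ez_wQ χ (hI p hp) hr hs).2
      · intro p hp n
        exact qe_local_pr χ hP hp (hI p hp) hr hs n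
      · exact fun p hp => ez_one_sub χ (hI p hp) hr hs
      · intro p hp h0
        have h1 := (w2_facts_pr χ (hI p hp) (r := r) (s := s) (z := z) (hr.trans (by norm_num))
          (hs.trans (by norm_num)) hzre).2.2 I P hP hp
        have h2 : ∫ x, w2 χ r s z p (x p) ∂P = 0 := h0
        rw [h2, norm_zero] at h1
        norm_num at h1
    have hew := (ew_bound_pr hI hP (w := w2 χ r s z) (fun p hp => by
      obtain ⟨a1, a2, a3⟩ := w2_facts_pr χ (hI p hp) (r := r) (s := s) (z := z)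
        (hr.trans (by norm_num)) (hs.trans (by norm_num)) hzre
      exact ⟨a1, a2, a3 I P hP hp⟩) hK hKI hB).1
    have hsum : ∑ k ∈ Finset.Icc 1 K, (B k : ℂ) * TS (xi χ z) (fun e => Qe χ e s r) k =
        TS (xi χ z) (fun e => Qe χ e s r) 1 * EW P I (w2 χ r s z) (MX K B) := by
      rw [hew, Finset.mul_sum]
      refine Finset.sum_congr rfl fun k hk => ?_
      rw [htw k hk]
      push_cast
      ring
    rw [hsum, ts_one_pr h hr hs hz]
    have hz1 : zq1 q (1 + s + z) = (z + s) * zq q (1 + s + z) := by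
      obtain ⟨C, hC⟩ := zq_facts_pr
      have h1 : (1 + s + z).re = 5 / 2 + s.re := by
        rw [Complex.add_re, Complex.add_re, hz, Complex.one_re]
        ring
      have h2 := (abs_le.mp ((Complex.abs_re_le_norm s).trans hs))
      have h3 := (hC q (1 + s + z)).1 (by rw [h1]; linarith) (by rw [h1]; linarith)
      rw [h3.2.1 (by
        intro h4
        have h5 := congrArg Complex.re h4
        rw [h1, Complex.one_re] at h5
        linarith)]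
      ring
    rw [show (2 * Real.pi : ℂ) ^ (-z) * Complex.Gamma z / z ^ i * (Y : ℂ) ^ z *
      (DirichletCharacter.LFunction χ (1 + r + z) ^ 2 * zq q (1 + s + z) /
        zq q (2 + 2 * r + s + z) * EW P I (w2 χ r s z) (MX K B)) =
      ((2 * Real.pi : ℂ) ^ (-z) * Complex.Gamma z / z ^ i * (Y : ℂ) ^ z) *
      (DirichletCharacter.LFunction χ (1 + r + z) ^ 2 * zq q (1 + s + z) /
        zq q (2 + 2 * r + s + z) * EW P I (w2 χ r s z) (MX K B)) from by ring,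
      ez_gamma hz0 i hY0]
    unfold H2
    rw [hz1]
    field_simp

theorem e_lin_pr (i : ℕ) : ∃ C : ℝ, ∀ (q : ℕ) [NeZero q] (χ : DirichletCharacter ℂ q), PQ χ →
    ∀ (I : Finset ℕ) (P : Measure (ℕ → ℝ)), (∀ p ∈ I, p.Prime) → IsST I P →
    ∀ K : ℕ, 1 ≤ K → (∀ p : ℕ, p.Prime → p ≤ K → p ∈ I) → ∀ (B : ℕ → ℝ) (b₀ : ℝ), SuppIn K B →
    (∀ k, |B k| ≤ b₀) → ∀ Y : ℝ, 1 ≤ Y → ∀ E₀ : ℕ, Y * (1 + Real.log Y) ≤ E₀ →
    ∀ E : ℕ, E₀ * K ≤ E → ∀ ρ : ℝ, 0 < ρ → ρ < 1 / 4 →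
    ‖∑ e ∈ Finset.Icc 1 E, ((HP E (xv χ i Y E₀) B e / e : ℝ) : ℂ) -
      1 / (2 * Real.pi * Complex.I) * ∮ z in C(0, ρ), H1 χ P I K B Y z / z ^ (i + 1)‖ ≤
      C * b₀ * q ^ 4 * K ^ 30 * Y ^ (-(1 / 4) : ℝ) := by
  obtain ⟨C₁, hC₁0, hC₁⟩ := ez_core i
  obtain ⟨C₂, hC₂⟩ := h1_facts_pr
  refine ⟨C₁ * (4 * |C₂| + 1), ?_⟩
  intro q _ χ h I P hI hP K hK hKI B b₀ hB hb Y hY E₀ hE₀ E hE ρ hρ0 hρ
  have hb0 : 0 ≤ b₀ := (abs_nonneg _).trans (hb 0)
  have hq1 : (1 : ℝ) ≤ q := by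
    exact_mod_cast Nat.one_le_iff_ne_zero.mpr (NeZero.ne q)
  have hK1 : (1 : ℝ) ≤ K := by exact_mod_cast hK
  have hY0 : 0 < Y := by linarith
  have hxs : SuppIn E₀ (xv χ i Y E₀) := by
    intro e he
    unfold xv at he
    by_contra hc
    exact he (if_neg hc)
  have hQb : ∀ e : ℕ, ‖(1 / (e : ℂ))‖ ≤ 1 := by
    intro e
    rw [norm_div, norm_one, Complex.norm_natCast]
    rcases Nat.eq_zero_or_pos e with rfl | he
    · simp
    · rw [div_le_one (by exact_mod_cast he)]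
      exact_mod_cast he
  have hlin := lin_twist_pr (x := xv χ i Y E₀) (E := E) (E' := E) hxs hB
    ((Nat.le_mul_of_pos_right _ hK).trans hE) hE (fun e => 1 / (e : ℂ))
  have hl0 : ∑ e ∈ Finset.Icc 1 E, ((HP E (xv χ i Y E₀) B e / e : ℝ) : ℂ) =
      ∑ e ∈ Finset.Icc 1 E, (HP E (xv χ i Y E₀) B e : ℂ) * (1 / (e : ℂ)) := by
    refine Finset.sum_congr rfl fun e _ => ?_
    push_cast
    ring
  rw [hl0, hlin]
  have hcirc : (∮ z in C(0, ρ), H1 χ P I K B Y z / z ^ (i + 1)) =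
      ∮ z in C(0, ρ), (z * H1 χ P I K B Y z) / (z ^ (i + 1) * (z + 0)) := by
    refine circleIntegral.integral_congr hρ0.le fun z hz => ?_
    have hz0 : z ≠ 0 := by
      intro h0
      rw [h0, mem_sphere_zero_iff_norm, norm_zero] at hz
      exact hρ0.ne hz
    rw [add_zero, mul_comm z (H1 χ P I K B Y z), mul_div_mul_right _ _ hz0]
  rw [hcirc]
  have hkey := hC₁ q χ h K B b₀ hb (fun e => 1 / (e : ℂ)) 1 hQb Y hY E₀
    hE₀ 0 ρ (by simp) (by simpa using hρ0) hρ (fun z => z * H1 χ P I K B Y z)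
    (4 * |C₂| * b₀ * q ^ 4 * K ^ 30) ?_ ?_
  · refine hkey.trans ?_
    have h1 : (K : ℝ) ^ 2 ≤ q ^ 4 * (K : ℝ) ^ 30 := by
      have h2 : (K : ℝ) ^ 2 ≤ (K : ℝ) ^ 30 := pow_le_pow_right₀ hK1 (by norm_num)
      have h3 : (1 : ℝ) ≤ q ^ 4 := one_le_pow₀ hq1
      nlinarith [pow_pos (by linarith : (0 : ℝ) < K) 30]
    have h2 : 4 * |C₂| * b₀ * q ^ 4 * K ^ 30 + 1 * b₀ * K ^ 2 ≤
        (4 * |C₂| + 1) * b₀ * q ^ 4 * K ^ 30 := by
      have h3 : 1 * b₀ * (K : ℝ) ^ 2 ≤ 1 * b₀ * (q ^ 4 * (K : ℝ) ^ 30) :=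
        mul_le_mul_of_nonneg_left h1 (by positivity)
      nlinarith
    calc C₁ * (4 * |C₂| * b₀ * q ^ 4 * K ^ 30 + 1 * b₀ * K ^ 2) * Y ^ (-(1 / 4) : ℝ)
        ≤ C₁ * ((4 * |C₂| + 1) * b₀ * q ^ 4 * K ^ 30) * Y ^ (-(1 / 4) : ℝ) := by gcongr
      _ = _ := by ring
  · intro z h1 h2
    obtain ⟨h3, h4⟩ := hC₂ q χ h I P hI hP K hK hKI B b₀ hB hb Y hY z h1 h2
    refine ⟨differentiableAt_id.mul h3, ?_⟩
    have h5 : ‖z‖ * Real.exp (-|z.im|) ≤ 4 * Real.exp (-|z.im| / 2) := by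
      have h6 : ‖z‖ ≤ 2 + |z.im| := by
        have h7 := Complex.norm_le_abs_re_add_abs_im z
        have h8 : |z.re| ≤ 2 := abs_le.mpr ⟨by linarith, by linarith⟩
        linarith
      have h9 : 2 + |z.im| ≤ 4 * Real.exp (|z.im| / 2) := by
        have := Real.add_one_le_exp (|z.im| / 2)
        linarith [abs_nonneg z.im]
      calc ‖z‖ * Real.exp (-|z.im|) ≤ (4 * Real.exp (|z.im| / 2)) * Real.exp (-|z.im|) := by
            gcongr
            exact h6.trans h9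
        _ = 4 * Real.exp (-|z.im| / 2) := by
            rw [mul_assoc, ← Real.exp_add]
            congr 2
            ring
    rw [norm_mul]
    calc ‖z‖ * ‖H1 χ P I K B Y z‖
        ≤ ‖z‖ * (|C₂| * b₀ * q ^ 4 * K ^ 30 * Y ^ z.re * Real.exp (-|z.im|)) := by
          refine mul_le_mul_of_nonneg_left (h4.trans ?_) (norm_nonneg _)
          gcongr
          exact le_abs_self C₂
      _ = (|C₂| * b₀ * q ^ 4 * K ^ 30 * Y ^ z.re) * (‖z‖ * Real.exp (-|z.im|)) := by ring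
      _ ≤ (|C₂| * b₀ * q ^ 4 * K ^ 30 * Y ^ z.re) * (4 * Real.exp (-|z.im| / 2)) := by gcongr
      _ = _ := by ring
  · intro z hz
    have hz0 : z ≠ 0 := by
      intro h0
      rw [h0] at hz
      norm_num at hz
    obtain ⟨x0, x1, xm, xb⟩ := ez_xi h hz
    have hzre : -(3 / 10) ≤ z.re := by rw [hz]; norm_num
    have htw : ∀ k ∈ Finset.Icc 1 K, TS (xi χ z) (fun e => 1 / (e : ℂ)) k =
        TS (xi χ z) (fun e => 1 / (e : ℂ)) 1 * (1 / (Real.sqrt k : ℂ)) *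
          EW P I (w1 χ z) (Um k) := by
      intro k hk
      have hk' := Finset.mem_Icc.mp hk
      have hkI : k.primeFactors ⊆ I := fun p hp => hKI p (Nat.prime_of_mem_primeFactors hp)
        ((Nat.le_of_mem_primeFactors hp).trans hk'.2)
      refine tw_main_pr hI hP (G := fun p => el p 1) (κ := fun _ => 1) (C := 1)
        x0 x1 xm xb (fun m n _ => by push_cast; rw [one_div_mul_one_div]) hQb ?_ ?_ ?_ ?_ ?_
        hk'.1 hkI
      · exact fun p _ => LVB.el_meas _ _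
      · intro p hp
        exact ⟨_, fun x hx => (el_ser_pr (hI p hp) (a := 1) (by
          rw [norm_one]
          exact Real.lt_sqrt_of_sq_lt (by
            rw [one_pow]
            exact_mod_cast (hI p hp).one_lt)) hx).2⟩
      · intro p hp n
        have hpp := hI p hp
        have hsq : (Real.sqrt p : ℂ) * Real.sqrt p = (p : ℂ) := by
          rw [← Complex.ofReal_mul, Real.mul_self_sqrt (Nat.cast_nonneg p)]
          norm_cast
        have h1 : ∫ x, (Uu (x p) n : ℂ) * el p 1 (x p) ∂P = (1 / (Real.sqrt p : ℂ)) ^ n := by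
          have h2 := KSL.ERP_uc hP hp hpp n
          have h3 : (fun x : ℕ → ℝ => (Uu (x p) n : ℂ) * el p 1 (x p)) =
              fun x => ((KSL.er p (x p) * Uu (x p) n : ℝ) : ℂ) := by
            funext x
            rw [← KSL.er_el_pr]
            push_cast
            ring
          rw [h3, integral_complex_ofReal, h2]
          push_cast
          rfl
        rw [h1, one_mul, ← mul_pow, div_mul_div_comm, one_mul, hsq]
        push_cast
        rw [one_div_pow]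
      · exact fun p _ => one_ne_zero
      · intro p hp h0
        have h1 := (w1_facts_pr χ (hI p hp) (z := z) hzre).2.2 I P hP hp
        have h2 : ∫ x, w1 χ z p (x p) ∂P = 0 := h0
        rw [h2, norm_zero] at h1
        norm_num at h1
    have hew := (ew_bound_pr hI hP (w := w1 χ z) (fun p hp => by
      obtain ⟨a1, a2, a3⟩ := w1_facts_pr χ (hI p hp) (z := z) hzre
      exact ⟨a1, a2, a3 I P hP hp⟩) hK hKI hB).1
    have hsum : ∑ k ∈ Finset.Icc 1 K, (B k : ℂ) * TS (xi χ z) (fun e => 1 / (e : ℂ)) k =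
        TS (xi χ z) (fun e => 1 / (e : ℂ)) 1 * EW P I (w1 χ z) (MX K B) := by
      rw [hew, Finset.mul_sum]
      refine Finset.sum_congr rfl fun k hk => ?_
      rw [htw k hk]
      push_cast
      ring
    rw [hsum, ts_one_lin_pr h.ne hz]
    rw [show (2 * Real.pi : ℂ) ^ (-z) * Complex.Gamma z / z ^ i * (Y : ℂ) ^ z *
      (DirichletCharacter.LFunction χ (1 + z) * EW P I (w1 χ z) (MX K B)) =
      ((2 * Real.pi : ℂ) ^ (-z) * Complex.Gamma z / z ^ i * (Y : ℂ) ^ z) *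
      (DirichletCharacter.LFunction χ (1 + z) * EW P I (w1 χ z) (MX K B)) from by ring,
      ez_gamma hz0 i hY0]
    unfold H1
    rw [add_zero]
    field_simp

end Pool.Agent.LE
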