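import Pool.Agent.Lib_helper53.LEF.EC

/-! LSP3, block EE: the zero mode is multiplicative. -/

set_option autoImplicit false

namespace Pool.Agent.LE

open Complex MeasureTheory ProbabilityTheory
open Pool.Agent.LSP (tau MX CC CB sg1 wX)
open Pool.Agent.LEV (Uu Um)

theorem ee_loc {p : ℕ} (hp : p.Prime) (k : ℕ) :
    Uu (Real.sqrt p + 1 / Real.sqrt p) k * Real.sqrt p ^ k = ∑ j ∈ Finset.range (k + 1), (p : ℝ) ^ j ∧
    Uu (Real.sqrt p + 1 / Real.sqrt p) (k + 1) * Real.sqrt p ^ (k + 1) =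
      ∑ j ∈ Finset.range (k + 2), (p : ℝ) ^ j := by
  have hp0 : (0 : ℝ) < p := by exact_mod_cast hp.pos
  have hs : Real.sqrt p ≠ 0 := (Real.sqrt_pos.mpr hp0).ne'
  have hs2 : Real.sqrt p * Real.sqrt p = p := Real.mul_self_sqrt hp0.le
  induction k with
  | zero =>
    constructor
    · simp [Uu]
    · rw [Finset.sum_range_succ, Finset.sum_range_one]
      simp only [Uu, zero_add, pow_one, pow_zero]
      field_simp
      rw [sq, hs2]
      ring
  | succ k ih =>
    refine ⟨ih.2, ?_⟩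
    have e1 : Uu (Real.sqrt p + 1 / Real.sqrt p) (k + 2) =
        (Real.sqrt p + 1 / Real.sqrt p) * Uu (Real.sqrt p + 1 / Real.sqrt p) (k + 1) -
          Uu (Real.sqrt p + 1 / Real.sqrt p) k := rfl
    have e2 : (Real.sqrt p + 1 / Real.sqrt p) * Real.sqrt p = p + 1 := by
      rw [add_mul, hs2]
      field_simp
    have e3 : Uu (Real.sqrt p + 1 / Real.sqrt p) (k + 2) * Real.sqrt p ^ (k + 2) =
        (p + 1) * (Uu (Real.sqrt p + 1 / Real.sqrt p) (k + 1) * Real.sqrt p ^ (k + 1)) -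
          p * (Uu (Real.sqrt p + 1 / Real.sqrt p) k * Real.sqrt p ^ k) := by
      rw [e1]
      calc _ = ((Real.sqrt p + 1 / Real.sqrt p) * Real.sqrt p) *
            (Uu (Real.sqrt p + 1 / Real.sqrt p) (k + 1) * Real.sqrt p ^ (k + 1)) -
            (Real.sqrt p * Real.sqrt p) * (Uu (Real.sqrt p + 1 / Real.sqrt p) k *
              Real.sqrt p ^ k) := by ring
        _ = _ := by rw [e2, hs2]
    show Uu (Real.sqrt p + 1 / Real.sqrt p) (k + 2) * Real.sqrt p ^ (k + 2) =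
      ∑ j ∈ Finset.range (k + 3), (p : ℝ) ^ j
    rw [e3, ih.1, ih.2, Finset.sum_range_succ _ (k + 2), Finset.sum_range_succ _ (k + 1)]
    ring

theorem ee_um {e : ℕ} (he : 1 ≤ e) :
    Um e (fun p => Real.sqrt p + 1 / Real.sqrt p) = sg1 e / Real.sqrt e := by
  have he0 : e ≠ 0 := by omega
  have hs : Real.sqrt e = ∏ p ∈ e.primeFactors, Real.sqrt p ^ e.factorization p := by
    have h1 : (e : ℝ) = ∏ p ∈ e.primeFactors, (p : ℝ) ^ e.factorization p := by
      conv_lhs => rw [← Nat.prod_factorization_pow_eq_self he0]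
      rw [Finsupp.prod, Nat.support_factorization]
      push_cast
      rfl
    rw [h1, Real.sqrt_eq_iff_mul_self_eq_of_pos]
    · rw [← sq, ← Finset.prod_pow]
      refine Finset.prod_congr rfl fun p hp => ?_
      rw [← pow_mul, mul_comm, pow_mul, Real.sq_sqrt (Nat.cast_nonneg p)]
    · refine Finset.prod_pos fun p hp => pow_pos (Real.sqrt_pos.mpr ?_) _
      exact_mod_cast (Nat.prime_of_mem_primeFactors hp).pos
  have hsg : sg1 e = ∏ p ∈ e.primeFactors, ∑ j ∈ Finset.range (e.factorization p + 1), (p : ℝ) ^ j := by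
    unfold sg1
    have := Nat.sum_divisors he0
    have h2 : (∑ d ∈ e.divisors, (d : ℝ)) = ((∑ d ∈ e.divisors, d : ℕ) : ℝ) := by push_cast; rfl
    rw [h2, this]
    push_cast
    rfl
  have hs0 : Real.sqrt e ≠ 0 := (Real.sqrt_pos.mpr (by exact_mod_cast he)).ne'
  rw [eq_div_iff hs0, hs, hsg]
  unfold Um
  rw [← Finset.prod_mul_distrib]
  exact Finset.prod_congr rfl fun p hp =>
    (ee_loc (Nat.prime_of_mem_primeFactors hp) (e.factorization p)).1

theorem ee_mx (E : ℕ) (x : ℕ → ℝ) : MX E x (fun p => Real.sqrt p + 1 / Real.sqrt p) =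
    ∑ e ∈ Finset.Icc 1 E, x e * sg1 e / e := by
  unfold MX
  refine Finset.sum_congr rfl fun e he => ?_
  have he1 := (Finset.mem_Icc.mp he).1
  have hs0 : Real.sqrt e ≠ 0 := (Real.sqrt_pos.mpr (by exact_mod_cast he1)).ne'
  have hs2 : Real.sqrt e * Real.sqrt e = e := Real.mul_self_sqrt (Nat.cast_nonneg e)
  rw [ee_um he1, div_mul_div_comm, hs2]

/-- block EE (uses mx_hp): the zero mode is multiplicative -/
theorem zm_hp_pr {E₁ E₂ E E' : ℕ} {x y : ℕ → ℝ} (hx : SuppIn E₁ x) (hy : SuppIn E₂ y)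
    (hE : E₁ ≤ E) (hE' : E₁ * E₂ ≤ E') :
    ∑ e ∈ Finset.Icc 1 E', HP E x y e * sg1 e / e =
      (∑ e ∈ Finset.Icc 1 E₁, x e * sg1 e / e) * ∑ e ∈ Finset.Icc 1 E₂, y e * sg1 e / e := by
  rw [← ee_mx, ← ee_mx, ← ee_mx]
  exact mx_hp_pr hx hy hE hE' _

end Pool.Agent.LE
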