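import Pool.Agent.Lib_helper53.LE.Defs
import Pool.Agent.Lib_helper61.FG.P.CD
import Pool.Agent.Lib_helper53.LEF.EF

/-! LSP3, part E, block EG: the linear functional `WW`. -/

set_option autoImplicit false

namespace Pool.Agent.LE

open Complex MeasureTheory ProbabilityTheory
open Pool.Agent.LSP (tau MX CC CB sg1 wX)
open Pool.Agent.KSL (WW)
open Pool.Agent.LEV (Uu Um)
open Pool.Agent.LVB (IsST el)
open Pool.Agent.LK (Qe V PQ MW)

/-- `d ↦ d` on the divisors of `m` -/
noncomputable def eg_f (m : ℕ) : ArithmeticFunction ℝ :=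
  ⟨fun d => if d ∣ m then (d : ℝ) else 0, by simp⟩

theorem eg_f_apply (m d : ℕ) : eg_f m d = if d ∣ m then (d : ℝ) else 0 := rfl

theorem eg_tau (n : ℕ) : ((ArithmeticFunction.zeta : ArithmeticFunction ℝ) *
    (ArithmeticFunction.zeta : ArithmeticFunction ℝ)) n = tau n := by
  rw [ArithmeticFunction.coe_zeta_mul_apply]
  unfold tau
  rw [Finset.card_eq_sum_ones, Nat.cast_sum]
  refine Finset.sum_congr rfl fun i hi => ?_
  have h : i ≠ 0 := (Nat.pos_of_mem_divisors hi).ne'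
  simp [ArithmeticFunction.natCoe_apply, ArithmeticFunction.zeta_apply, h]

theorem eg_cc (m : ℕ) {q : ℕ} (hq : 1 ≤ q) :
    (eg_f m * (ArithmeticFunction.moebius : ArithmeticFunction ℝ)) q =
      Pool.Agent.FG61.cc q m := by
  rw [Pool.Agent.FG61.CD_cc q m hq, ArithmeticFunction.mul_apply,
    Nat.sum_divisorsAntidiagonal (fun a b => eg_f m a *
      (ArithmeticFunction.moebius : ArithmeticFunction ℝ) b)]
  refine Finset.sum_congr rfl fun t _ => ?_
  rw [eg_f_apply, ArithmeticFunction.intCoe_apply]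
  split_ifs
  · rfl
  · rw [zero_mul]

theorem eg_key {e : ℕ} (he : 1 ≤ e) (m : ℕ) (hm : 1 ≤ m) :
    ∑ q ∈ e.divisors, tau (e / q) * Pool.Agent.FG61.cc q m = sg1 (Nat.gcd e m) := by
  have h1 : ∑ q ∈ e.divisors, tau (e / q) * Pool.Agent.FG61.cc q m =
      ((eg_f m * (ArithmeticFunction.moebius : ArithmeticFunction ℝ)) *
        ((ArithmeticFunction.zeta : ArithmeticFunction ℝ) *
          (ArithmeticFunction.zeta : ArithmeticFunction ℝ))) e := by
    rw [ArithmeticFunction.mul_apply,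
      Nat.sum_divisorsAntidiagonal (fun a b => (eg_f m *
        (ArithmeticFunction.moebius : ArithmeticFunction ℝ)) a *
        ((ArithmeticFunction.zeta : ArithmeticFunction ℝ) *
          (ArithmeticFunction.zeta : ArithmeticFunction ℝ)) b)]
    refine Finset.sum_congr rfl fun q hq => ?_
    rw [eg_tau, eg_cc m (Nat.pos_of_mem_divisors hq), mul_comm]
  have h2 : (eg_f m * (ArithmeticFunction.moebius : ArithmeticFunction ℝ)) *
        ((ArithmeticFunction.zeta : ArithmeticFunction ℝ) *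
          (ArithmeticFunction.zeta : ArithmeticFunction ℝ)) =
      (ArithmeticFunction.zeta : ArithmeticFunction ℝ) * eg_f m := by
    have h3 := ArithmeticFunction.coe_moebius_mul_coe_zeta (R := ℝ)
    calc _ = ((ArithmeticFunction.moebius : ArithmeticFunction ℝ) *
          (ArithmeticFunction.zeta : ArithmeticFunction ℝ)) *
          ((ArithmeticFunction.zeta : ArithmeticFunction ℝ) * eg_f m) := by ring
      _ = _ := by rw [h3, one_mul]
  rw [h1, h2, ArithmeticFunction.coe_zeta_mul_apply]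
  unfold sg1
  have h4 : (Nat.gcd e m).divisors = e.divisors.filter (fun d => d ∣ m) := by
    ext d
    rw [Nat.mem_divisors, Finset.mem_filter, Nat.mem_divisors, Nat.dvd_gcd_iff]
    have : Nat.gcd e m ≠ 0 := (Nat.gcd_pos_of_pos_left m he).ne'
    constructor
    · rintro ⟨⟨h5, h6⟩, -⟩
      exact ⟨⟨h5, by omega⟩, h6⟩
    · rintro ⟨⟨h5, -⟩, h6⟩
      exact ⟨⟨h5, h6⟩, this⟩
  rw [h4, Finset.sum_filter]
  rfl

/-- block EG -/
theorem ww_eq_pr {E : ℕ} {x : ℕ → ℝ} (hx : SuppIn E x) {m : ℕ} (hm : 1 ≤ m) :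
    WW E (wX E x) m = ∑ e ∈ Finset.Icc 1 E, x e / e * sg1 (Nat.gcd e m) := by
  unfold WW wX
  have h1 : ∀ q ∈ Finset.Icc 1 E,
      (∑ e ∈ (Finset.Icc 1 E).filter (fun e => q ∣ e), x e / e * tau (e / q)) *
        Pool.Agent.FG61.cc q m =
      ∑ e ∈ Finset.Icc 1 E, if q ∣ e then x e / e * (tau (e / q) *
        Pool.Agent.FG61.cc q m) else 0 := by
    intro q _
    rw [Finset.sum_mul, Finset.sum_filter]
    refine Finset.sum_congr rfl fun e _ => ?_
    split_ifs
    · ring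
    · rfl
  rw [Finset.sum_congr rfl h1, Finset.sum_comm]
  refine Finset.sum_congr rfl fun e he => ?_
  have he1 := (Finset.mem_Icc.1 he).1
  have he2 := (Finset.mem_Icc.1 he).2
  rw [← eg_key he1 m hm, Finset.mul_sum, ← Finset.sum_filter]
  refine Finset.sum_congr ?_ fun _ _ => rfl
  ext q
  rw [Finset.mem_filter, Finset.mem_Icc, Nat.mem_divisors]
  constructor
  · rintro ⟨-, h2⟩
    exact ⟨h2, by omega⟩
  · rintro ⟨h2, -⟩
    exact ⟨⟨Nat.pos_of_dvd_of_pos h2 he1, (Nat.le_of_dvd he1 h2).trans he2⟩, h2⟩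

theorem eg_tk {k e : ℕ} (hk : 1 ≤ k) (he : 1 ≤ e) :
    TK (fun e => 1 / (e : ℂ)) k e = ((sg1 (Nat.gcd e k) / ((e : ℝ) * k) : ℝ) : ℂ) := by
  unfold TK sg1
  have he0 : (e : ℂ) ≠ 0 := by exact_mod_cast (by omega : e ≠ 0)
  have hk0 : (k : ℂ) ≠ 0 := by exact_mod_cast (by omega : k ≠ 0)
  rw [Finset.sum_div]
  push_cast
  refine Finset.sum_congr rfl fun d hd => ?_
  have hd1 : d ∣ Nat.gcd e k := (Nat.mem_divisors.1 hd).1
  have hd0 : (d : ℂ) ≠ 0 := by exact_mod_cast (Nat.pos_of_mem_divisors hd).ne'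
  obtain ⟨a, ha⟩ := hd1.trans (Nat.gcd_dvd_left e k)
  obtain ⟨b, hb⟩ := hd1.trans (Nat.gcd_dvd_right e k)
  have h1 : e * k / d ^ 2 = a * b := by
    rw [ha, hb, show d * a * (d * b) = (a * b) * d ^ 2 by ring]
    exact Nat.mul_div_cancel _ (pow_pos (Nat.pos_of_mem_divisors hd) 2)
  rw [h1]
  have h2 : (e : ℂ) * k = d ^ 2 * ((a * b : ℕ) : ℂ) := by
    have : e * k = d ^ 2 * (a * b) := by rw [ha, hb]; ring
    exact_mod_cast this
  have h3 : (((a * b : ℕ) : ℂ)) ≠ 0 := by
    intro h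
    rw [h, mul_zero] at h2
    exact mul_ne_zero he0 hk0 h2
  rw [h2]
  field_simp

/-- block EG (uses lin_twist_pr, ww_eq) -/
theorem lin_ww_pr {E M E' : ℕ} {x s : ℕ → ℝ} (hx : SuppIn E x) (hs : SuppIn M s)
    (hE' : E * M ≤ E') :
    ∑ m ∈ Finset.Icc 1 M, s m * WW E (wX E x) m / Real.sqrt m =
      ∑ e ∈ Finset.Icc 1 E', HP E' x (fun m => Real.sqrt m * s m) e / e := by
  rcases Nat.eq_zero_or_pos M with rfl | hM
  · have h0 : ∀ m, s m = 0 := by
      intro m
      by_contra h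
      have := hs m h
      omega
    have h1 : ∀ e, HP E' x (fun m => Real.sqrt m * s m) e = 0 := by
      intro e
      unfold HP
      refine Finset.sum_eq_zero fun j _ => ?_
      rw [Finset.sum_eq_zero, mul_zero]
      intro p _
      show x (j * p.1) * (Real.sqrt ((j * p.2 : ℕ) : ℝ) * s (j * p.2)) = 0
      rw [h0, mul_zero, mul_zero]
    simp [h1]
  · have hB : SuppIn M (fun m => Real.sqrt m * s m) := fun e he =>
      hs e (right_ne_zero_of_mul he)
    have hEE : E ≤ E' := (Nat.le_mul_of_pos_right E hM).trans hE'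
    have h1 := lin_twist_pr hx hB hEE hE' (fun e => 1 / (e : ℂ))
    have h2 : ((∑ e ∈ Finset.Icc 1 E', HP E' x (fun m => Real.sqrt m * s m) e / e : ℝ) : ℂ) =
        ∑ e ∈ Finset.Icc 1 E', (HP E' x (fun m => Real.sqrt m * s m) e : ℂ) *
          (1 / (e : ℂ)) := by
      rw [Complex.ofReal_sum]
      refine Finset.sum_congr rfl fun e _ => ?_
      push_cast
      ring
    have h3 : ((∑ m ∈ Finset.Icc 1 M, s m * WW E (wX E x) m / Real.sqrt m : ℝ) : ℂ) =
        ∑ k ∈ Finset.Icc 1 M, ((Real.sqrt k * s k : ℝ) : ℂ) *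
          ∑ e ∈ Finset.Icc 1 E, (x e : ℂ) * TK (fun e => 1 / (e : ℂ)) k e := by
      rw [Complex.ofReal_sum]
      refine Finset.sum_congr rfl fun k hk => ?_
      have hk1 := (Finset.mem_Icc.1 hk).1
      have hk0 : (0 : ℝ) < k := by exact_mod_cast hk1
      have h4 : ∑ e ∈ Finset.Icc 1 E, (x e : ℂ) * TK (fun e => 1 / (e : ℂ)) k e =
          ((WW E (wX E x) k / k : ℝ) : ℂ) := by
        rw [ww_eq_pr hx hk1, Finset.sum_div, Complex.ofReal_sum]
        refine Finset.sum_congr rfl fun e he => ?_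
        rw [eg_tk hk1 (Finset.mem_Icc.1 he).1, ← Complex.ofReal_mul]
        congr 1
        have he0 : (0 : ℝ) < e := by exact_mod_cast (Finset.mem_Icc.1 he).1
        field_simp
      rw [h4, ← Complex.ofReal_mul]
      congr 1
      have h5 : Real.sqrt k * Real.sqrt k = k := Real.mul_self_sqrt hk0.le
      have h6 : 0 < Real.sqrt k := Real.sqrt_pos.2 hk0
      rw [div_eq_div_iff h6.ne' (by positivity) |>.mpr]
      · rw [mul_div_assoc']
      · linear_combination (-(s k * WW E (wX E x) k)) * h5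
    have h4 := h3.trans (h1.symm.trans h2.symm)
    exact_mod_cast h4


end Pool.Agent.LE
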