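import Pool.Agent.Lib_helper53.LE.Defs
import Pool.Agent.Lib_helper31.LK.HA

/-! LSP3, part E, block EA: the product of two Hecke polynomials. -/

set_option autoImplicit false

namespace Pool.Agent.LE

open Pool.Agent.LEV (Uu Um)

theorem um_mul_pr {m n : ℕ} (hm : 1 ≤ m) (hn : 1 ≤ n) (x : ℕ → ℝ) :
    Um m x * Um n x = ∑ d ∈ (Nat.gcd m n).divisors, Um (m * n / d ^ 2) x :=
  Pool.Agent.LK.ha_hecke (by omega) (by omega) x

end Pool.Agent.LE
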